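import Pool.Agent.H49.GSB.Index

/-!
# Algebras which generate the same subgroup of the Brauer group
-/

open TensorProduct Module
open Pool.Agent.H72.SB hiding IsFunctionField

namespace Pool.Agent.H49.GSB

universe u

variable {k : Type u} [Field k]

theorem arith3 {r d m : ℕ} (hr : 2 ≤ r) (hm : 1 ≤ m) (hmn : m < r * d) :
    2 * (Nat.gcd m d * (d - Nat.gcd m d)) ≤ m * (r * d - m) := by
  obtain ⟨g, hg⟩ : ∃ g, Nat.gcd m d = g := ⟨_, rfl⟩
  have h1 : g ∣ m := hg ▸ Nat.gcd_dvd_left m d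
  have h2 : g ∣ d := hg ▸ Nat.gcd_dvd_right m d
  have h3 : g ∣ r * d - m := Nat.dvd_sub (h2.mul_left r) h1
  have h4 : g ≤ m := Nat.le_of_dvd hm h1
  have h5 : g ≤ r * d - m := Nat.le_of_dvd (by omega) h3
  have hd : 0 < d := by
    rcases Nat.eq_zero_or_pos d with h0 | h0
    · rw [h0, mul_zero] at hmn; omega
    · exact h0
  have h6 : g ≤ d := Nat.le_of_dvd hd h2
  rw [hg]
  obtain ⟨x, hx⟩ := Nat.exists_eq_add_of_le h4
  obtain ⟨y, hy⟩ := Nat.exists_eq_add_of_le h5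
  obtain ⟨z, rfl⟩ := Nat.exists_eq_add_of_le h6
  have h7 : g + z - g = z := by omega
  have h8 : r * (g + z) = (g + x) + (g + y) := by omega
  have h9 : 2 * (g + z) ≤ r * (g + z) := Nat.mul_le_mul_right _ hr
  have h10 : 2 * z ≤ x + y := by omega
  rw [h7, hy, hx]
  have h11 : 0 ≤ x * y := Nat.zero_le _
  calc 2 * (g * z) = g * (2 * z) := by ring
    _ ≤ g * (x + y) := Nat.mul_le_mul_left _ h10
    _ ≤ g * (x + y) + (g * g + x * y) := Nat.le_add_right _ _
    _ = (g + x) * (g + y) := by ring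

theorem exists_degree {A D : CSA.{u, u} k} {n r : ℕ} (hA : finrank k A = n ^ 2) (hr : r ≠ 0)
    (hn : 0 < n) (e : A ≃ₐ[k] Matrix (Fin r) (Fin r) D) :
    ∃ d, 0 < d ∧ n = r * d ∧ finrank k D = d ^ 2 := by
  have h1 : n ^ 2 = r ^ 2 * finrank k D := by
    rw [← hA, e.toLinearEquiv.finrank_eq, Module.finrank_matrix]
    simp only [Fintype.card_fin]
    ring
  have h2 : r ∣ n := (Nat.pow_dvd_pow_iff (by norm_num : (2 : ℕ) ≠ 0)).1 ⟨_, h1⟩
  obtain ⟨d, rfl⟩ := h2
  refine ⟨d, Nat.pos_of_mul_pos_left hn, rfl, ?_⟩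
  have h3 : r ^ 2 * d ^ 2 = r ^ 2 * finrank k D := by rw [← h1]; ring
  exact (Nat.eq_of_mul_eq_mul_left (by positivity) h3).symm

/-- The main theorem. -/
theorem common [Infinite k] {A B : CSA.{u, u} k} {n m : ℕ} (hA : finrank k A = n ^ 2)
    (hB : finrank k B = n ^ 2) (hm : 1 ≤ m) (hmn : m < n) (hAB : InCyclic A B)
    (hBA : InCyclic B A)
    (h : (∃ x : A, x ≠ 0 ∧ ¬ IsUnit x) ∨ (3 * Nat.gcd m n ≤ m ∧ 3 * Nat.gcd m n ≤ n - m)) :
    ∃ (F : Type u) (_ : Field F) (_ : Algebra k F), H72.SB.IsFunctionField A m F ∧ H72.SB.IsFunctionField B m F := by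
  obtain ⟨r, D, hr, hdiv, ⟨eA⟩⟩ := exists_division A
  obtain ⟨s, D', hs, hdiv', ⟨eB⟩⟩ := exists_division B
  obtain ⟨d, hd, hnd, hD⟩ := exists_degree hA hr (by omega) eA
  obtain ⟨d', hd', hnd', hD'⟩ := exists_degree hB hs (by omega) eB
  have hDA := brauer_of_matrix hr eA
  have hDB := brauer_of_matrix hs eB
  have h₁ : InCyclic D D' := InCyclic.equiv _ _ (inCyclic_left hDA hAB) hDB.symm
  have h₂ : InCyclic D' D := InCyclic.equiv _ _ (inCyclic_left hDB hBA) hDA.symm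
  have h3 : d = d' := Nat.dvd_antisymm (deg_dvd hdiv hD' hD hd' h₂) (deg_dvd hdiv' hD hD' hd h₁)
  subst h3
  have h4 : r = s := by
    rw [hnd] at hnd'
    exact Nat.eq_of_mul_eq_mul_right hd hnd'
  subst h4
  subst hnd
  refine matrix_common A B D D' hD hD' eA eB h₁ h₂ hm hmn.le ?_
  by_cases hr2 : 2 ≤ r
  · exact arith3 hr2 hm hmn
  · have hr1 : r = 1 := by omega
    subst hr1
    rw [one_mul] at h ⊢ hmn
    rcases h with ⟨x, hx, hxu⟩ | ⟨h5, h6⟩
    · exfalso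
      apply hxu
      have h7 : eA x = Matrix.scalar (Fin 1) (eA x 0 0) := by
        ext i j
        have hi : i = 0 := Subsingleton.elim _ _
        have hj : j = 0 := Subsingleton.elim _ _
        subst hi hj
        simp
      have h8 : eA x 0 0 ≠ 0 := by
        intro h9
        rw [h9, map_zero] at h7
        exact hx ((map_eq_zero_iff eA eA.injective).1 h7)
      have h9 : IsUnit (eA x) := by
        rw [h7]
        exact (hdiv _ h8).map (Matrix.scalar (Fin 1))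
      exact (isUnit_map_iff eA x).1 h9
    · exact arith_ineq h5 h6 hmn hm

theorem same_iff {A B : CSA.{u, u} k} {n m : ℕ} (hA : finrank k A = n ^ 2)
    (hB : finrank k B = n ^ 2) (hm : 1 ≤ m) (hmn : m < n) (hAB : InCyclic A B)
    (hBA : InCyclic B A)
    (h : (∃ x : A, x ≠ 0 ∧ ¬ IsUnit x) ∨ (3 * Nat.gcd m n ≤ m ∧ 3 * Nat.gcd m n ≤ n - m)) :
    (∃ (F : Type u) (_ : Field F) (_ : Algebra k F), H72.SB.IsFunctionField A m F ∧ H72.SB.IsFunctionField B m F) ∧
    ∀ (F : Type u) [Field F] [Algebra k F], H72.SB.IsFunctionField A m F ↔ H72.SB.IsFunctionField B m F := by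
  rcases finite_or_infinite k with hk | hk
  · obtain ⟨e⟩ := nonempty_algEquiv_of_finite A B (by rw [hA, hB])
    obtain ⟨F, i1, i2, hF⟩ := Pool.Agent.H72.SB.exists_functionField A hA hmn.le
    exact ⟨⟨F, i1, i2, hF, hF.congr e⟩, fun F _ _ => ⟨fun h => h.congr e, fun h => h.congr e.symm⟩⟩
  · obtain ⟨F₀, i1, i2, h1, h2⟩ := common hA hB hm hmn hAB hBA h
    refine ⟨⟨F₀, i1, i2, h1, h2⟩, fun F _ _ => ⟨fun h3 => ?_, fun h3 => ?_⟩⟩
    · obtain ⟨e⟩ := functionField_unique A hA (by omega) h1 h3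
      exact h2.congr_field e
    · obtain ⟨e⟩ := functionField_unique B hB (by omega) h2 h3
      exact h1.congr_field e

end Pool.Agent.H49.GSB
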