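import Mathlib

/-!
# Towers of fields of rational functions
-/

open scoped IntermediateField

namespace Pool.Agent.H49.GSB

universe u

/-- The variables of a field of rational functions. -/
noncomputable def ratX (K : Type u) [Field K] (N : ℕ) (i : Fin N) :
    FractionRing (MvPolynomial (Fin N) K) :=
  algebraMap (MvPolynomial (Fin N) K) _ (MvPolynomial.X i)

theorem ratX_basis (K : Type u) [Field K] (N : ℕ) : IsTranscendenceBasis K (ratX K N) := by
  have h5 : Algebra.IsAlgebraic (MvPolynomial (Fin N) K)
      (FractionRing (MvPolynomial (Fin N) K)) :=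
    IsLocalization.isAlgebraic _ (nonZeroDivisors (MvPolynomial (Fin N) K))
  exact (IsTranscendenceBasis.mvPolynomial (Fin N) K).algebraMap_comp

theorem ratX_gen (k : Type u) [Field k] (K : Type u) [Field K] [Algebra k K] (N : ℕ)
    (F : IntermediateField k (FractionRing (MvPolynomial (Fin N) K)))
    (h1 : ∀ c : K, algebraMap K _ c ∈ F) (h2 : ∀ i, ratX K N i ∈ F) : F = ⊤ := by
  have h3 : ∀ p : MvPolynomial (Fin N) K,
      algebraMap (MvPolynomial (Fin N) K) (FractionRing (MvPolynomial (Fin N) K)) p ∈ F := by
    intro p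
    induction p using MvPolynomial.induction_on with
    | C c =>
      have := h1 c
      rwa [IsScalarTower.algebraMap_apply K (MvPolynomial (Fin N) K)] at this
    | add p q hp hq => rw [map_add]; exact F.add_mem hp hq
    | mul_X p i hp => rw [map_mul]; exact F.mul_mem hp (h2 i)
  rw [eq_top_iff]
  intro x _
  obtain ⟨a, b, _, rfl⟩ := IsFractionRing.div_surjective (A := MvPolynomial (Fin N) K) x
  exact F.div_mem (h3 a) (h3 b)

/-- A field which is generated by a transcendence basis is a field of rational functions. -/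
theorem nonempty_equiv_of_basis (k : Type u) [Field k] (K : Type u) [Field K] [Algebra k K]
    {L : Type u} [Field L] [Algebra k L] [Algebra K L] [IsScalarTower k K L] {N : ℕ}
    {X : Fin N → L} (hX : AlgebraicIndependent K X)
    (hgen : ∀ F : IntermediateField k L, (∀ c : K, algebraMap K L c ∈ F) → (∀ z, X z ∈ F) →
      F = ⊤) : Nonempty (FractionRing (MvPolynomial (Fin N) K) ≃ₐ[k] L) := by
  have h1 : IntermediateField.adjoin K (Set.range X) = ⊤ := by
    have h2 := hgen ((IntermediateField.adjoin K (Set.range X)).restrictScalars k)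
      (fun c => (IntermediateField.adjoin K (Set.range X)).algebraMap_mem c)
      (fun z => IntermediateField.subset_adjoin K _ ⟨z, rfl⟩)
    rw [eq_top_iff]
    intro x _
    have h3 : x ∈ (IntermediateField.adjoin K (Set.range X)).restrictScalars k := by
      rw [h2]; trivial
    exact h3
  have e1 : FractionRing (MvPolynomial (Fin N) K) ≃ₐ[K] L :=
    (hX.aevalEquivField.trans (IntermediateField.equivOfEq h1)).trans IntermediateField.topEquiv
  exact ⟨e1.restrictScalars k⟩

theorem nonempty_equiv_tower (k : Type u) [Field k] (K : Type u) [Field K] [Algebra k K]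
    (N₁ N₂ : ℕ) :
    Nonempty (FractionRing (MvPolynomial (Fin (N₁ + N₂)) K) ≃ₐ[k]
      FractionRing (MvPolynomial (Fin N₂) (FractionRing (MvPolynomial (Fin N₁) K)))) := by
  let K₁ := FractionRing (MvPolynomial (Fin N₁) K)
  let L := FractionRing (MvPolynomial (Fin N₂) K₁)
  have h1 := (ratX_basis K N₁).sumElim_comp (ratX_basis K₁ N₂)
  let E : Fin (N₁ + N₂) ≃ Fin N₂ ⊕ Fin N₁ := finSumFinEquiv.symm.trans (Equiv.sumComm _ _)
  have h2 := h1.comp_equiv E
  refine nonempty_equiv_of_basis k K (L := L) h2.1 ?_
  intro F hF hX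
  have h3 : ∀ z, Sum.elim (ratX K₁ N₂) (algebraMap K₁ L ∘ ratX K N₁) z ∈ F := by
    intro z
    have := hX (E.symm z)
    rwa [Function.comp, Equiv.apply_symm_apply] at this
  refine ratX_gen k K₁ N₂ F ?_ (fun i => h3 (.inl i))
  have h4 := ratX_gen k K N₁ (F.comap (IsScalarTower.toAlgHom k K₁ L)) (fun c => by
    change algebraMap K₁ L (algebraMap K K₁ c) ∈ F
    rw [← IsScalarTower.algebraMap_apply]
    exact hF c) (fun i => h3 (.inr i))
  intro c
  have h5 : c ∈ F.comap (IsScalarTower.toAlgHom k K₁ L) := by rw [h4]; trivial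
  exact h5

end Pool.Agent.H49.GSB
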