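import Pool.Agent.H49.GSB.Cell2
import Pool.Agent.H49.GSB.Tower
import Pool.Agent.H72.SB.Main

/-!
# `SB_m(M_r(D))` is birational to `SB_g(D) × 𝔸^N`, `g = gcd(m, deg D)`
-/

open TensorProduct Module

namespace Pool.Agent.H49.GSB

universe u

variable {k : Type u} [Field k]

theorem toH72 {A : CSA.{u, u} k} {n m : ℕ} (hA : finrank k A = n ^ 2) {F : Type u} [Field F]
    [Algebra k F] (h : IsFunctionField k A m n F) : Pool.Agent.H72.SB.IsFunctionField A m F := by
  obtain ⟨⟨I, ⟨hI, hdim⟩, hmin⟩, htr⟩ := h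
  exact ⟨n, hA, I, hI, hdim, htr, fun L hL => hmin L hL⟩

theorem ofH72 {A : CSA.{u, u} k} {n m : ℕ} (hA : finrank k A = n ^ 2) {F : Type u} [Field F]
    [Algebra k F] (h : Pool.Agent.H72.SB.IsFunctionField A m F) : IsFunctionField k A m n F := by
  obtain ⟨n', hn', I, hI, hdim, htr, hmin⟩ := h
  have h1 : n' = n := by
    have : n' ^ 2 = n ^ 2 := by rw [← hn', hA]
    exact Nat.pow_left_injective (n := 2) (by norm_num) this
  subst h1
  exact ⟨⟨I, ⟨hI, hdim⟩, fun L hL => hmin L hL⟩, htr⟩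

theorem arith1 {c d g : ℕ} (hc : 1 ≤ c) (hcd : c < d) (hg : g = Nat.gcd c d) :
    g * (d - g) ≤ c * (d - c) := by
  have hg0 : 0 < g := by rw [hg]; exact Nat.gcd_pos_of_pos_left _ hc
  obtain ⟨c', hc'⟩ : g ∣ c := by rw [hg]; exact Nat.gcd_dvd_left c d
  obtain ⟨d', hd'⟩ : g ∣ d := by rw [hg]; exact Nat.gcd_dvd_right c d
  subst hc' hd'
  have h1 : 1 ≤ c' := by
    rcases Nat.eq_zero_or_pos c' with h0 | h0
    · rw [h0, mul_zero] at hc; omega
    · exact h0
  have h2 : c' < d' := Nat.lt_of_mul_lt_mul_left hcd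
  obtain ⟨a, rfl⟩ : ∃ a, c' = 1 + a := ⟨c' - 1, by omega⟩
  obtain ⟨b, rfl⟩ : ∃ b, d' = 1 + a + (1 + b) := ⟨d' - (1 + a) - 1, by omega⟩
  have h3 : g * (1 + a + (1 + b)) - g = g * (1 + a + b) := by
    have : g * (1 + a + (1 + b)) = g * (1 + a + b) + g := by ring
    rw [this, Nat.add_sub_cancel]
  have h4 : g * (1 + a + (1 + b)) - g * (1 + a) = g * (1 + b) := by
    have : g * (1 + a + (1 + b)) = g * (1 + b) + g * (1 + a) := by ring
    rw [this, Nat.add_sub_cancel]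
  rw [h3, h4]
  nlinarith [Nat.zero_le (g * g * (a * b))]

theorem arith2 {a b c d m : ℕ} (hm : m = a * d + c) (hcd : c ≤ d) :
    c * (d - c) ≤ m * ((a + 1 + b) * d - m) := by
  obtain ⟨d', rfl⟩ : ∃ d', d = c + d' := ⟨d - c, by omega⟩
  have h1 : c + d' - c = d' := by omega
  have h2 : (a + 1 + b) * (c + d') - m = b * (c + d') + d' := by
    have : (a + 1 + b) * (c + d') = b * (c + d') + d' + m := by rw [hm]; ring
    rw [this, Nat.add_sub_cancel]
  rw [h1, h2, hm]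
  exact Nat.mul_le_mul (by omega) (by omega)

/-- `SB_m(M_r(D))` is birational to `SB_g(D) × 𝔸^N`, `g = gcd(m, deg D)`. -/
theorem functionField_matrix [Infinite k] (A D : CSA.{u, u} k) {d r m : ℕ}
    (hD : finrank k D = d ^ 2) (e : A ≃ₐ[k] Matrix (Fin r) (Fin r) D) (hm : 1 ≤ m)
    (hmn : m ≤ r * d) {F₀ : Type u} [Field F₀] [Algebra k F₀]
    (h : Pool.Agent.H72.SB.IsFunctionField D (Nat.gcd m d) F₀) :
    Pool.Agent.H72.SB.IsFunctionField A m (FractionRing (MvPolynomial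
      (Fin (m * (r * d - m) - Nat.gcd m d * (d - Nat.gcd m d))) F₀)) := by
  have hd : 0 < d := by
    rcases Nat.eq_zero_or_pos d with h0 | h0
    · rw [h0, mul_zero] at hmn; omega
    · exact h0
  have hA : finrank k A = (r * d) ^ 2 := by
    rw [e.toLinearEquiv.finrank_eq, Module.finrank_matrix, hD]
    simp only [Fintype.card_fin]
    ring
  -- division with remainder
  obtain ⟨a, c, hc, hcd, hmac⟩ : ∃ a c, 1 ≤ c ∧ c ≤ d ∧ m = a * d + c := by
    refine ⟨(m - 1) / d, (m - 1) % d + 1, by omega, Nat.mod_lt _ hd, ?_⟩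
    have := Nat.div_add_mod' (m - 1) d
    omega
  have har : a < r := by
    by_contra hcon
    push Not at hcon
    have : r * d ≤ a * d := Nat.mul_le_mul_right d hcon
    omega
  obtain ⟨b, rfl⟩ : ∃ b, r = a + 1 + b := ⟨r - a - 1, by omega⟩
  have hg : Nat.gcd m d = Nat.gcd c d := by
    rw [hmac, add_comm, Nat.gcd_add_mul_right_left]
  rw [hg] at h ⊢
  have h0 := ofH72 hD h
  let ι : (Fin a ⊕ Unit) ⊕ Fin b ≃ Fin (a + 1 + b) :=
    (Equiv.sumCongr ((Equiv.sumCongr (Equiv.refl _) finOneEquiv.symm).trans finSumFinEquiv)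
      (Equiv.refl _)).trans finSumFinEquiv
  let e' : Matrix ((Fin a ⊕ Unit) ⊕ Fin b) ((Fin a ⊕ Unit) ⊕ Fin b) D ≃ₐ[k] A :=
    (Matrix.reindexAlgEquiv k D ι).trans e.symm
  have hle2 := arith2 (b := b) hmac hcd
  rcases hcd.lt_or_eq with hlt | heq
  · have hle1 := arith1 hc hlt rfl
    obtain ⟨N₁, hN₁⟩ := Nat.exists_eq_add_of_le hle1
    obtain ⟨N₂, hN₂⟩ := Nat.exists_eq_add_of_le hle2
    let K₁ := FractionRing (MvPolynomial (Fin N₁) F₀)
    let L := FractionRing (MvPolynomial (Fin N₂) K₁)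
    have h1 := reduceMat (k := k) (A := D) (K := F₀) (K₁ := K₁) (L := L) (b := b) hc hlt hD hmac
      rfl h0 hN₁ (ratX_basis F₀ N₁) (fun F hF hX => ratX_gen k F₀ N₁ F hF hX) hN₂
      (ratX_basis K₁ N₂) (fun F hF hX => ratX_gen k K₁ N₂ F hF hX)
    have h2 := toH72 hA (h1.congr e')
    obtain ⟨f⟩ := nonempty_equiv_tower k F₀ N₁ N₂
    have h3 := h2.congr_field f.symm
    have h4 : m * ((a + 1 + b) * d - m) - Nat.gcd c d * (d - Nat.gcd c d) = N₁ + N₂ := by omega
    rw [h4]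
    exact h3
  · subst heq
    rw [Nat.gcd_self] at h ⊢
    rw [Nat.gcd_self] at h0
    obtain ⟨N₂, hN₂⟩ := Nat.exists_eq_add_of_le hle2
    let L := FractionRing (MvPolynomial (Fin N₂) F₀)
    have h1 := cell (k := k) (A := D) (K := F₀) (L := L) (α := Fin a) (β := Fin b) (m := m)
      le_rfl hD (by rw [Fintype.card_fin]; exact hmac) h0
      (by rw [Fintype.card_fin, Fintype.card_fin]; exact hN₂)
      (ratX_basis F₀ N₂) (fun F hF hX => ratX_gen k F₀ N₂ F hF hX)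
    rw [Fintype.card_fin, Fintype.card_fin] at h1
    have h2 := toH72 hA (h1.congr e')
    have h4 : m * ((a + 1 + b) * c - m) - c * (c - c) = N₂ := by omega
    rw [h4]
    exact h2

end Pool.Agent.H49.GSB
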