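import Mathlib

/-!
# Extensions of central simple algebras are simple
-/

open TensorProduct MulOpposite

namespace Pool.Agent.H49.GSB

section density

variable {k A : Type*} [Field k] [Ring A] [Algebra k A]

attribute [local instance] instModuleTensorProductMop

theorem bimod_smul (a : A) (b : Aᵐᵒᵖ) (x : A) : (a ⊗ₜ[k] b) • x = a * x * b.unop := by
  rw [TensorProduct.Algebra.smul_def]
  simp [mul_assoc]

theorem bimod_isSimple [IsSimpleRing A] : IsSimpleModule (A ⊗[k] Aᵐᵒᵖ) A := by
  have hl : ∀ (N : Submodule (A ⊗[k] Aᵐᵒᵖ) A) (a x : A), x ∈ N → a * x ∈ N := by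
    intro N a x hx
    have h := N.smul_mem (a ⊗ₜ[k] (1 : Aᵐᵒᵖ)) hx
    rwa [bimod_smul, unop_one, mul_one] at h
  have hr : ∀ (N : Submodule (A ⊗[k] Aᵐᵒᵖ) A) (a x : A), x ∈ N → x * a ∈ N := by
    intro N a x hx
    have h := N.smul_mem ((1 : A) ⊗ₜ[k] (op a : Aᵐᵒᵖ)) hx
    rwa [bimod_smul, unop_op, one_mul] at h
  rw [isSimpleModule_iff]
  exact
    { exists_pair_ne := ⟨⊥, ⊤, by
        intro h
        have h1 : (1 : A) ∈ (⊥ : Submodule (A ⊗[k] Aᵐᵒᵖ) A) := by rw [h]; trivial
        exact one_ne_zero ((Submodule.mem_bot _).1 h1)⟩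
      eq_bot_or_eq_top := by
        intro N
        let T : TwoSidedIdeal A := TwoSidedIdeal.mk' (N : Set A) N.zero_mem
          (fun hx hy => N.add_mem hx hy)
          (fun {x} hx => by
            have := hl N (-1) x hx
            rwa [neg_one_mul] at this)
          (fun {x y} hy => hl N x y hy) (fun {x y} hx => hr N y x hx)
        have hT : ∀ x, x ∈ T ↔ x ∈ N := by
          intro x
          exact TwoSidedIdeal.mem_mk' _ _ _ _ _ _ x
        rcases IsSimpleRing.simple.eq_bot_or_eq_top T with h | h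
        · left
          rw [eq_bot_iff]
          intro x hx
          have h1 : x ∈ T := (hT x).2 hx
          rw [h, TwoSidedIdeal.mem_bot] at h1
          exact h1
        · right
          rw [eq_top_iff]
          intro x _
          rw [← hT, h]
          trivial }

theorem exists_bimod [IsSimpleRing A] [Algebra.IsCentral k A] (T : A →ₗ[k] A) (s : Finset A) :
    ∃ r : A ⊗[k] Aᵐᵒᵖ, ∀ m ∈ s, T m = r • m := by
  have : IsSimpleModule (A ⊗[k] Aᵐᵒᵖ) A := bimod_isSimple
  -- the endomorphisms are the scalars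
  have hφ : ∀ φ : Module.End (A ⊗[k] Aᵐᵒᵖ) A, ∃ c : k, ∀ x, φ x = c • x := by
    intro φ
    have h1 : ∀ x, φ x = x * φ 1 := by
      intro x
      have h := φ.map_smul (x ⊗ₜ[k] (1 : Aᵐᵒᵖ)) 1
      rwa [bimod_smul, bimod_smul, unop_one, mul_one, mul_one, mul_one] at h
    have h2 : ∀ x, φ x = φ 1 * x := by
      intro x
      have h := φ.map_smul ((1 : A) ⊗ₜ[k] (op x : Aᵐᵒᵖ)) 1
      rwa [bimod_smul, bimod_smul, unop_op, one_mul, one_mul, one_mul] at h
    have h3 : φ 1 ∈ Subalgebra.center k A := by
      rw [Subalgebra.mem_center_iff]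
      intro x
      rw [← h1, h2]
    obtain ⟨c, hc⟩ := Algebra.mem_bot.1 (Algebra.IsCentral.out h3)
    exact ⟨c, fun x => by rw [h2, ← hc, Algebra.smul_def]⟩
  let f : Module.End (Module.End (A ⊗[k] Aᵐᵒᵖ) A) A :=
    { toFun := T
      map_add' := T.map_add
      map_smul' := fun φ x => by
        obtain ⟨c, hc⟩ := hφ φ
        change T (φ x) = φ (T x)
        rw [hc, hc, map_smul] }
  exact jacobson_density f s

end density

variable {k A L : Type*} [Field k] [Ring A] [Algebra k A] [Field L] [Algebra k L]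

attribute [local instance] instModuleTensorProductMop

/-- The action of an element of `A ⊗ Aᵒᵖ` on `A` as a linear map. -/
noncomputable def act (r : A ⊗[k] Aᵐᵒᵖ) : A →ₗ[k] A := AlgHom.mulLeftRight k A r

theorem act_apply (r : A ⊗[k] Aᵐᵒᵖ) (x : A) : act r x = r • x := by
  induction r using TensorProduct.induction_on with
  | zero =>
    have h : act (0 : A ⊗[k] Aᵐᵒᵖ) = 0 := by simp [act]
    rw [h, LinearMap.zero_apply]
    exact (zero_smul (A ⊗[k] Aᵐᵒᵖ) x).symm
  | tmul a b => rw [bimod_smul]; simp [act]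
  | add r s hr hs =>
    have h : act (r + s) x = act r x + act s x := by simp [act]
    rw [h, hr, hs, add_smul]

theorem lTensor_act (a : A) (c : Aᵐᵒᵖ) (u : L ⊗[k] A) :
    LinearMap.lTensor L (act (a ⊗ₜ[k] c)) u =
      (1 ⊗ₜ a : L ⊗[k] A) * u * (1 ⊗ₜ c.unop : L ⊗[k] A) := by
  induction u using TensorProduct.induction_on with
  | zero => simp
  | tmul x y =>
    rw [LinearMap.lTensor_tmul, act_apply, bimod_smul]
    simp
  | add x y hx hy => rw [map_add, hx, hy, mul_add, add_mul]

theorem isSimple_tensor [IsSimpleRing A] [Algebra.IsCentral k A] [FiniteDimensional k A] :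
    IsSimpleRing (L ⊗[k] A) := by
  classical
  have : Nontrivial (L ⊗[k] A) := by
    have h : Function.Injective (Algebra.TensorProduct.includeLeft : L →ₐ[k] L ⊗[k] A) :=
      Algebra.TensorProduct.includeLeft_injective (S := k) (algebraMap k A).injective
    exact h.nontrivial
  apply IsSimpleRing.of_eq_bot_or_eq_top
  intro J
  by_contra! hJ
  obtain ⟨hJ0, hJ1⟩ := hJ
  apply hJ1
  -- a nonzero element
  obtain ⟨u, huJ, hu⟩ : ∃ u ∈ J, u ≠ 0 := by
    by_contra! h
    apply hJ0
    rw [eq_bot_iff]
    intro x hx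
    rw [TwoSidedIdeal.mem_bot]
    exact h x hx
  let b := Module.finBasis k A
  let bL := Algebra.TensorProduct.basis L b
  obtain ⟨i, hi⟩ : ∃ i, bL.repr u i ≠ 0 := by
    by_contra! h
    apply hu
    apply bL.repr.injective
    ext i
    rw [h i, map_zero]
    rfl
  -- the operators of the bimodule preserve `J`
  have hact : ∀ r : A ⊗[k] Aᵐᵒᵖ, LinearMap.lTensor L (act r) u ∈ J := by
    intro r
    induction r using TensorProduct.induction_on with
    | zero =>
      have h : LinearMap.lTensor L (act (0 : A ⊗[k] Aᵐᵒᵖ)) u = 0 := by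
        have : act (0 : A ⊗[k] Aᵐᵒᵖ) = 0 := by simp [act]
        rw [this]; simp
      rw [h]; exact J.zero_mem
    | tmul a c =>
      rw [lTensor_act]
      exact J.mul_mem_right _ _ (J.mul_mem_left _ _ huJ)
    | add r s hr hs =>
      have h : LinearMap.lTensor L (act (r + s)) u =
          LinearMap.lTensor L (act r) u + LinearMap.lTensor L (act s) u := by
        have : act (r + s) = act r + act s := by simp [act]
        rw [this, LinearMap.lTensor_add]; rfl
      rw [h]; exact J.add_mem hr hs
  -- the operator which sends the `i`-th basis vector to one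
  let T : A →ₗ[k] A := (Algebra.linearMap k A) ∘ₗ (b.coord i)
  obtain ⟨r, hr⟩ := exists_bimod T (Finset.univ.image b)
  have hrT : act r = T := by
    apply b.ext
    intro j
    rw [act_apply, hr (b j) (Finset.mem_image_of_mem _ (Finset.mem_univ j))]
  have h1 := hact r
  rw [hrT] at h1
  have h2 : ∀ x : L ⊗[k] A, LinearMap.lTensor L T x = (bL.repr x i) ⊗ₜ (1 : A) := by
    intro x
    induction x using TensorProduct.induction_on with
    | zero => simp
    | tmul c a =>
      rw [LinearMap.lTensor_tmul, Algebra.TensorProduct.basis_repr_tmul]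
      change c ⊗ₜ[k] (algebraMap k A (b.coord i a)) = _
      rw [Module.Basis.coord_apply, Algebra.algebraMap_eq_smul_one, ← TensorProduct.smul_tmul]
      congr 1
      simp [Algebra.smul_def, mul_comm]
    | add x y hx hy => rw [map_add, hx, hy, map_add, Finsupp.add_apply, TensorProduct.add_tmul]
  rw [h2] at h1
  have h3 := J.mul_mem_left ((bL.repr u i)⁻¹ ⊗ₜ (1 : A)) _ h1
  rw [Algebra.TensorProduct.tmul_mul_tmul, inv_mul_cancel₀ hi, one_mul,
    ← Algebra.TensorProduct.one_def] at h3
  rw [eq_top_iff]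
  intro x _
  have h4 := J.mul_mem_left x _ h3
  rwa [mul_one] at h4

end Pool.Agent.H49.GSB
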