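import Pool.Agent.H49.GSB.Echelon

/-!
# Extension of scalars
-/

open TensorProduct

namespace Pool.Agent.H49.GSB

universe u

variable {k : Type u} [Field k] {A : Type u} [Ring A] [Algebra k A]
  {K : Type u} [Field K] [Algebra k K] {L : Type u} [Field L] [Algebra k L] [Algebra K L]
  [IsScalarTower k K L]

/-- The map `A_K → A_L`. -/
noncomputable def bc (k A K L : Type u) [Field k] [Ring A] [Algebra k A] [Field K] [Algebra k K]
    [Field L] [Algebra k L] [Algebra K L] [IsScalarTower k K L] : K ⊗[k] A →ₐ[k] L ⊗[k] A :=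
  Algebra.TensorProduct.map (IsScalarTower.toAlgHom k K L) (AlgHom.id k A)

@[simp] theorem bc_tmul (c : K) (a : A) : bc k A K L (c ⊗ₜ a) = algebraMap K L c ⊗ₜ a := by
  simp [bc]

@[simp] theorem bc_smul (c : K) (x : K ⊗[k] A) :
    bc k A K L (c • x) = algebraMap K L c • bc k A K L x := by
  induction x using TensorProduct.induction_on with
  | zero => simp
  | tmul d a => simp [TensorProduct.smul_tmul', Algebra.smul_def]
  | add x y hx hy => rw [smul_add, map_add, hx, hy, map_add, smul_add]

/-- Coordinates. -/
noncomputable abbrev bas {ι : Type*} (K : Type u) [Field K] [Algebra k K]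
    (b : Module.Basis ι k A) : Module.Basis ι K (K ⊗[k] A) := Algebra.TensorProduct.basis K b

theorem bas_repr_tmul {ι : Type*} (b : Module.Basis ι k A) (c : K) (a : A) (i : ι) :
    (bas K b).repr (c ⊗ₜ a) i = c * algebraMap k K (b.repr a i) := by
  rw [Algebra.TensorProduct.basis_repr_tmul]
  simp

theorem bas_repr_bc {ι : Type*} (b : Module.Basis ι k A) (x : K ⊗[k] A) (i : ι) :
    (bas L b).repr (bc k A K L x) i = algebraMap K L ((bas K b).repr x i) := by
  induction x using TensorProduct.induction_on with
  | zero => simp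
  | tmul c a => rw [bc_tmul, bas_repr_tmul, bas_repr_tmul, map_mul, ← IsScalarTower.algebraMap_apply]
  | add x y hx hy => simp only [map_add, Finsupp.add_apply, hx, hy]

theorem bas_repr_lam {ι : Type*} (b : Module.Basis ι k A) (l : K →ₗ[k] K) (x : K ⊗[k] A) (i : ι) :
    (bas K b).repr (lam l x) i = l ((bas K b).repr x i) := by
  induction x using TensorProduct.induction_on with
  | zero => simp
  | tmul c a =>
    rw [lam_tmul, bas_repr_tmul, bas_repr_tmul, mul_comm, ← Algebra.smul_def, mul_comm,
      ← Algebra.smul_def, map_smul]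
  | add x y hx hy => simp only [map_add, Finsupp.add_apply, hx, hy]

theorem bc_injective : Function.Injective (bc k A K L) := by
  let b := Module.Basis.ofVectorSpace k A
  intro x y h
  apply (bas K b).repr.injective
  ext i
  apply (algebraMap K L).injective
  rw [← bas_repr_bc, ← bas_repr_bc, h]

/-- The extension of a subspace. -/
noncomputable def ext (L : Type u) [Field L] [Algebra k L] [Algebra K L] [IsScalarTower k K L]
    (I : Submodule K (K ⊗[k] A)) : Submodule L (L ⊗[k] A) :=
  Submodule.span L (bc k A K L '' I)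

theorem bc_mem_ext {I : Submodule K (K ⊗[k] A)} {x : K ⊗[k] A} (hx : x ∈ I) :
    bc k A K L x ∈ ext L I := Submodule.subset_span ⟨x, hx, rfl⟩

theorem ext_right {I : Submodule K (K ⊗[k] A)} (hI : ∀ x ∈ I, ∀ y : K ⊗[k] A, x * y ∈ I)
    {x : L ⊗[k] A} (hx : x ∈ ext L I) (y : L ⊗[k] A) : x * y ∈ ext L I := by
  induction hx using Submodule.span_induction with
  | mem x hx =>
    obtain ⟨x, hx, rfl⟩ := hx
    induction y using TensorProduct.induction_on with
    | zero => rw [mul_zero]; exact Submodule.zero_mem _
    | tmul c a =>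
      have h1 : (c ⊗ₜ[k] a : L ⊗[k] A) = c • bc k A K L (1 ⊗ₜ a) := by
        simp [TensorProduct.smul_tmul']
      rw [h1, mul_smul_comm, ← map_mul]
      exact Submodule.smul_mem _ _ (bc_mem_ext (hI _ hx _))
    | add y z hy hz => rw [mul_add]; exact Submodule.add_mem _ hy hz
  | zero => rw [zero_mul]; exact Submodule.zero_mem _
  | add x z _ _ hx hz => rw [add_mul]; exact Submodule.add_mem _ hx hz
  | smul c x _ hx => rw [smul_mul_assoc]; exact Submodule.smul_mem _ _ hx

/-- An echelon basis of a subspace is an echelon basis of its extension. -/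
theorem ext_echelon {ι : Type*} [Fintype ι] [DecidableEq ι] {b : Module.Basis ι k A}
    {I : Submodule K (K ⊗[k] A)} {S : Finset ι} {y : ι → K ⊗[k] A}
    (h3 : ∀ x ∈ I, x = ∑ s ∈ S, (bas K b).repr x s • y s) {x : L ⊗[k] A} (hx : x ∈ ext L I) :
    x = ∑ s ∈ S, (bas L b).repr x s • bc k A K L (y s) := by
  induction hx using Submodule.span_induction with
  | mem x hx =>
    obtain ⟨x, hx, rfl⟩ := hx
    conv_lhs => rw [h3 x hx, map_sum]
    exact Finset.sum_congr rfl fun s _ => by rw [bc_smul, bas_repr_bc]
  | zero => simp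
  | add x y _ _ hx hy =>
    conv_lhs => rw [hx, hy]
    rw [← Finset.sum_add_distrib]
    exact Finset.sum_congr rfl fun s _ => by rw [map_add, Finsupp.add_apply, add_smul]
  | smul c x _ hx =>
    conv_lhs => rw [hx, Finset.smul_sum]
    exact Finset.sum_congr rfl fun s _ => by rw [map_smul, Finsupp.smul_apply, smul_smul, smul_eq_mul]

theorem ext_finrank [FiniteDimensional k A] (I : Submodule K (K ⊗[k] A)) :
    Module.finrank L (ext L I) = Module.finrank K I := by
  classical
  let b := Module.finBasis k A
  obtain ⟨S, y, h1, h2, h3⟩ := echelon (bas K b) I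
  rw [echelon_finrank h1 h2 h3]
  refine echelon_finrank (b := bas L b) (S := S) (y := fun s => bc k A K L (y s))
    (fun s hs => bc_mem_ext (h1 s hs)) (fun s hs t ht => ?_) (fun x hx => ext_echelon h3 hx)
  rw [bas_repr_bc, h2 s hs t ht]
  split_ifs <;> simp

/-- An element `x` of `K` with `l x = l 1 * x` for all `F`-linear `l` belongs to `F`. -/
theorem mem_of_forall (F : IntermediateField k K) {x : K}
    (h : ∀ l : K →ₗ[F] K, l x = l 1 * x) : x ∈ F := by
  by_contra hx
  have h1 : x ∉ Submodule.span F {(1 : K)} := by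
    intro h2
    obtain ⟨c, hc⟩ := Submodule.mem_span_singleton.1 h2
    apply hx
    rw [← hc, Algebra.smul_def, mul_one]
    exact c.2
  obtain ⟨f, hf1, hf2⟩ := Submodule.exists_le_ker_of_notMem h1
  have h3 : f 1 = 0 := hf2 (Submodule.mem_span_singleton_self 1)
  have h4 := h (toK F f)
  rw [toK_apply, toK_apply, h3] at h4
  simp at h4
  exact hf1 h4

/-- If the extension of `I` is defined over `F` and `I` is not defined over a proper subfield of `K`
then `F` contains `K`. -/
theorem le_of_ext_stable [FiniteDimensional k A] {I : Submodule K (K ⊗[k] A)}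
    (hmin : ∀ F : IntermediateField k K, DefinedOver F I → F = ⊤)
    (F : IntermediateField k L) (h : Stable F (ext L I)) (c : K) : algebraMap K L c ∈ F := by
  classical
  let b := Module.finBasis k A
  obtain ⟨S, y, h1, h2, h3⟩ := echelon (bas K b) I
  let F' : IntermediateField k K := F.comap (IsScalarTower.toAlgHom k K L)
  have key : ∀ s ∈ S, ∀ i, (bas K b).repr (y s) i ∈ F' := by
    intro s hs i
    change algebraMap K L _ ∈ F
    apply mem_of_forall
    intro l
    have h4 := h l _ (bc_mem_ext (L := L) (h1 s hs))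
    have h5 := ext_echelon h3 h4
    rw [Finset.sum_eq_single s] at h5
    · have h6 := congrArg (fun x => (bas L b).repr x i) h5
      simp only [map_smul, Finsupp.smul_apply, bas_repr_lam, bas_repr_bc, smul_eq_mul,
        LinearMap.coe_restrictScalars, h2 s hs s hs, if_true, map_one] at h6
      exact h6
    · intro t ht hts
      rw [bas_repr_lam, bas_repr_bc, h2 s hs t ht, if_neg (fun h => hts h.symm)]
      simp
    · intro h'; exact absurd hs h'
  have hF' : F' = ⊤ := by
    apply hmin
    rw [DefinedOver, echelon_span h1 h3, Submodule.span_le]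
    rintro _ ⟨s, hs, rfl⟩
    refine Submodule.subset_span ⟨Submodule.subset_span ⟨s, hs, rfl⟩, ?_⟩
    refine ⟨∑ i, (⟨_, key s hs i⟩ : F') ⊗ₜ b i, ?_⟩
    rw [map_sum]
    conv_rhs => rw [← (bas K b).sum_repr (y s)]
    refine Finset.sum_congr rfl fun i _ => ?_
    rw [Algebra.TensorProduct.map_tmul, Algebra.TensorProduct.basis_apply,
      TensorProduct.smul_tmul', smul_eq_mul, mul_one]
    rfl
  have h7 : c ∈ F' := by rw [hF']; trivial
  exact h7

end Pool.Agent.H49.GSB
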