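import Pool.Agent.H49.GSB.Defs

/-!
# Fields of definition of subspaces

A subspace of `K ⊗ A` is defined over `F` if and only if it is stable under `l ⊗ id` for all
`F`-linear maps `l : K → K`.
-/

open TensorProduct

namespace Pool.Agent.H49.GSB

universe u

variable {k : Type u} [Field k] {A : Type u} [Ring A] [Algebra k A]
  {K : Type u} [Field K] [Algebra k K]

/-- `l ⊗ id` -/
noncomputable def lam (l : K →ₗ[k] K) : K ⊗[k] A →ₗ[k] K ⊗[k] A := LinearMap.rTensor A l

@[simp] theorem lam_tmul (l : K →ₗ[k] K) (c : K) (a : A) : lam l (c ⊗ₜ[k] a) = l c ⊗ₜ a := by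
  simp [lam]

/-- The map `A_F → A_K`. -/
noncomputable abbrev inc (F : IntermediateField k K) : F ⊗[k] A →ₐ[k] K ⊗[k] A :=
  Algebra.TensorProduct.map F.val (AlgHom.id k A)

theorem lam_smul_inc (F : IntermediateField k K) (l : K →ₗ[F] K) (c : K) (y : F ⊗[k] A) :
    lam (l.restrictScalars k) (c • inc F y) = l c • inc F y := by
  induction y using TensorProduct.induction_on with
  | zero => simp
  | tmul f a =>
    simp only [inc, Algebra.TensorProduct.map_tmul, IntermediateField.coe_val, AlgHom.coe_id, id,
      TensorProduct.smul_tmul', lam_tmul, LinearMap.coe_restrictScalars, smul_eq_mul]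
    congr 1
    have h := l.map_smul f c
    rw [Algebra.smul_def, Algebra.smul_def] at h
    rw [mul_comm c, mul_comm (l c)]
    exact h
  | add x y hx hy =>
    rw [map_add, smul_add, map_add, hx, hy, smul_add]

theorem lam_mul_inc (F : IntermediateField k K) (l : K →ₗ[F] K) (x : K ⊗[k] A) (y : F ⊗[k] A) :
    lam (l.restrictScalars k) (x * inc F y) = lam (l.restrictScalars k) x * inc F y := by
  induction x using TensorProduct.induction_on with
  | zero => simp
  | add x x' hx hx' => rw [add_mul, map_add, hx, hx', map_add, add_mul]
  | tmul c a =>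
    induction y using TensorProduct.induction_on with
    | zero => simp
    | add y y' hy hy' => rw [map_add, mul_add, map_add, hy, hy', mul_add]
    | tmul f b =>
      simp only [inc, Algebra.TensorProduct.map_tmul, IntermediateField.coe_val, AlgHom.coe_id, id,
        Algebra.TensorProduct.tmul_mul_tmul, lam_tmul, LinearMap.coe_restrictScalars]
      congr 1
      have h := l.map_smul f c
      rw [Algebra.smul_def, Algebra.smul_def] at h
      rw [mul_comm c, mul_comm (l c)]
      exact h

theorem lam_inc_mul (F : IntermediateField k K) (l : K →ₗ[F] K) (x : K ⊗[k] A) (y : F ⊗[k] A) :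
    lam (l.restrictScalars k) (inc F y * x) = inc F y * lam (l.restrictScalars k) x := by
  induction x using TensorProduct.induction_on with
  | zero => simp
  | add x x' hx hx' => rw [mul_add, map_add, hx, hx', map_add, mul_add]
  | tmul c a =>
    induction y using TensorProduct.induction_on with
    | zero => simp
    | add y y' hy hy' => rw [map_add, add_mul, map_add, hy, hy', add_mul]
    | tmul f b =>
      simp only [inc, Algebra.TensorProduct.map_tmul, IntermediateField.coe_val, AlgHom.coe_id, id,
        Algebra.TensorProduct.tmul_mul_tmul, lam_tmul, LinearMap.coe_restrictScalars]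
      congr 1
      have h := l.map_smul f c
      rw [Algebra.smul_def, Algebra.smul_def] at h
      exact h

/-- Stability under all `l ⊗ id` with `l` linear over `F`. -/
def Stable (F : IntermediateField k K) (I : Submodule K (K ⊗[k] A)) : Prop :=
  ∀ (l : K →ₗ[F] K), ∀ x ∈ I, lam (l.restrictScalars k) x ∈ I

/-- multiplication by `c` followed by `l` -/
noncomputable def mulThen (F : IntermediateField k K) (l : K →ₗ[F] K) (c : K) : K →ₗ[F] K :=
  l ∘ₗ LinearMap.mulLeft F c

theorem lam_mulThen (F : IntermediateField k K) (l : K →ₗ[F] K) (c : K) (x : K ⊗[k] A) :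
    lam ((mulThen F l c).restrictScalars k) x = lam (l.restrictScalars k) (c • x) := by
  induction x using TensorProduct.induction_on with
  | zero => simp
  | tmul d a => simp [mulThen, TensorProduct.smul_tmul']
  | add x y hx hy => rw [map_add, smul_add, map_add, hx, hy]

theorem DefinedOver.stable {F : IntermediateField k K} {I : Submodule K (K ⊗[k] A)}
    (h : DefinedOver F I) : Stable F I := by
  intro l x hx
  have key : ∀ x ∈ Submodule.span K {x | x ∈ I ∧ IsRational F x}, ∀ l : K →ₗ[F] K,
      lam (l.restrictScalars k) x ∈ I := by
    intro x hx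
    induction hx using Submodule.span_induction with
    | mem x hx =>
      intro l
      obtain ⟨hxI, y, rfl⟩ := hx
      have h1 := lam_smul_inc F l 1 y
      rw [one_smul] at h1
      rw [h1]
      exact I.smul_mem _ hxI
    | zero => intro l; simp
    | add x y _ _ hx hy => intro l; rw [map_add]; exact I.add_mem (hx l) (hy l)
    | smul c x _ hx => intro l; rw [← lam_mulThen]; exact hx _
  exact key x (h hx) l

/-- an `F`-linear functional as a map to `K` -/
noncomputable def toK (F : IntermediateField k K) (l : K →ₗ[F] F) : K →ₗ[F] K :=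
  (Algebra.linearMap F K) ∘ₗ l

theorem toK_apply (F : IntermediateField k K) (l : K →ₗ[F] F) (c : K) :
    toK F l c = (l c : K) := rfl

theorem isRational_lam (F : IntermediateField k K) (l : K →ₗ[F] F) (x : K ⊗[k] A) :
    IsRational F (lam ((toK F l).restrictScalars k) x) := by
  induction x using TensorProduct.induction_on with
  | zero => exact ⟨0, by simp⟩
  | tmul c a => exact ⟨l c ⊗ₜ a, by simp [toK_apply]⟩
  | add x y hx hy =>
    obtain ⟨x', hx'⟩ := hx
    obtain ⟨y', hy'⟩ := hy
    exact ⟨x' + y', by rw [map_add, map_add, hx', hy']⟩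

theorem Stable.definedOver {F : IntermediateField k K} {I : Submodule K (K ⊗[k] A)}
    (h : Stable F I) : DefinedOver F I := by
  intro x hx
  let e := Module.Basis.ofVectorSpace F K
  have key : ∀ x : K ⊗[k] A, ∃ s : Finset (Module.Basis.ofVectorSpaceIndex F K),
      ∀ t : Finset _, s ⊆ t →
        x = ∑ i ∈ t, e i • lam ((toK F (e.coord i)).restrictScalars k) x := by
    intro x
    induction x using TensorProduct.induction_on with
    | zero => exact ⟨∅, fun t _ => by simp⟩
    | tmul c a =>
      refine ⟨(e.repr c).support, fun t ht => ?_⟩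
      have h1 : c = ∑ i ∈ t, e i * (e.coord i c : K) := by
        conv_lhs => rw [← e.linearCombination_repr c, Finsupp.linearCombination_apply]
        rw [Finsupp.sum_of_support_subset _ ht]
        · refine Finset.sum_congr rfl fun i _ => ?_
          rw [Algebra.smul_def, mul_comm]
          rfl
        · intro i _; simp
      conv_lhs => rw [h1, TensorProduct.sum_tmul]
      refine Finset.sum_congr rfl fun i _ => ?_
      rw [lam_tmul, TensorProduct.smul_tmul', smul_eq_mul, LinearMap.coe_restrictScalars,
        toK_apply]
    | add x y hx hy =>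
      obtain ⟨s, hs⟩ := hx
      obtain ⟨s', hs'⟩ := hy
      classical
      refine ⟨s ∪ s', fun t ht => ?_⟩
      conv_lhs => rw [hs t (Finset.union_subset_left ht), hs' t (Finset.union_subset_right ht)]
      rw [← Finset.sum_add_distrib]
      refine Finset.sum_congr rfl fun i _ => ?_
      rw [map_add, smul_add]
  obtain ⟨s, hs⟩ := key x
  rw [hs s (Finset.Subset.refl s)]
  exact Submodule.sum_mem _ fun i _ => Submodule.smul_mem _ _
    (Submodule.subset_span ⟨h (toK F (e.coord i)) x hx, isRational_lam F (e.coord i) x⟩)

end Pool.Agent.H49.GSB
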