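import Mathlib

/-!
# Matrix units in simple algebras
-/

open MulOpposite

namespace Pool.Agent.H49.GSB

/-- Modules of the same dimension over a simple algebra are isomorphic. -/
theorem exists_linearEquiv {K S M N : Type*} [Field K] [Ring S] [Algebra K S]
    [FiniteDimensional K S] [IsSimpleRing S] [AddCommGroup M] [Module S M] [Module K M]
    [IsScalarTower K S M] [AddCommGroup N] [Module S N] [Module K N] [IsScalarTower K S N]
    [FiniteDimensional K M] [FiniteDimensional K N]
    (h : Module.finrank K M = Module.finrank K N) : Nonempty (M ≃ₗ[S] N) := by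
  have : IsArtinianRing S := IsArtinianRing.of_finite K S
  have : Module.Finite S M := Module.Finite.of_restrictScalars_finite K S M
  have : Module.Finite S N := Module.Finite.of_restrictScalars_finite K S N
  rcases subsingleton_or_nontrivial (M × N) with hs | hs
  · have h1 : Subsingleton M := ⟨fun x y => by
      have := Subsingleton.elim (x, (0 : N)) (y, 0); exact congrArg Prod.fst this⟩
    have h2 : Subsingleton N := ⟨fun x y => by
      have := Subsingleton.elim ((0 : M), x) (0, y); exact congrArg Prod.snd this⟩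
    exact ⟨0⟩
  · have hiso := IsSimpleRing.isIsotypic S (M × N)
    obtain ⟨P, hP⟩ := IsAtomic.exists_atom (Submodule S (M × N))
    rw [← isSimpleModule_iff_isAtom] at hP
    have hMN := hiso P
    have hM : IsIsotypicOfType S M P :=
      hMN.of_injective (LinearMap.inl S M N) LinearMap.inl_injective
    have hN : IsIsotypicOfType S N P :=
      hMN.of_injective (LinearMap.inr S M N) LinearMap.inr_injective
    obtain ⟨a, ⟨e⟩⟩ := hM.linearEquiv_fun
    obtain ⟨b, ⟨f⟩⟩ := hN.linearEquiv_fun
    have hPK : FiniteDimensional K P := by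
      have : FiniteDimensional K (M × N) := inferInstance
      exact FiniteDimensional.of_injective (P.subtype.restrictScalars K) P.subtype_injective
    have hPn : Nontrivial P := IsSimpleModule.nontrivial S P
    have hpos : 0 < Module.finrank K P := Module.finrank_pos
    have h1 : Module.finrank K M = a * Module.finrank K P := by
      rw [(e.restrictScalars K).finrank_eq, Module.finrank_pi_fintype]
      simp
    have h2 : Module.finrank K N = b * Module.finrank K P := by
      rw [(f.restrictScalars K).finrank_eq, Module.finrank_pi_fintype]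
      simp
    rw [h1, h2] at h
    have hab : a = b := Nat.eq_of_mul_eq_mul_right hpos h
    subst hab
    exact ⟨e.trans f.symm⟩

/-- Matrix units. -/
structure IsUnits {ι R : Type*} [Fintype ι] [DecidableEq ι] [Ring R] (E : ι → ι → R) : Prop where
  mul_same : ∀ a b c, E a b * E b c = E a c
  mul_ne : ∀ a b c d, b ≠ c → E a b * E c d = 0
  sum : ∑ a, E a a = 1

theorem exists_units {ι K R : Type*} [Fintype ι] [DecidableEq ι] [Field K] [Ring R] [Algebra K R]
    [FiniteDimensional K R] [IsSimpleRing R] (I : Submodule K R) (hI : ∀ x ∈ I, ∀ y, x * y ∈ I)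
    (o : ι) (hdim : Fintype.card ι * Module.finrank K I = Module.finrank K R) :
    ∃ E : ι → ι → R, IsUnits E ∧ ∀ x, x ∈ I ↔ E o o * x = x := by
  -- the right ideal as a module over the opposite ring
  let J : Submodule Rᵐᵒᵖ R :=
    { carrier := I
      add_mem' := I.add_mem
      zero_mem' := I.zero_mem
      smul_mem' := fun c x hx => hI x hx c.unop }
  have hJI : ∀ x, x ∈ J ↔ x ∈ I := fun x => Iff.rfl
  have : IsArtinianRing Rᵐᵒᵖ := IsArtinianRing.of_finite K Rᵐᵒᵖ
  obtain ⟨J', hJ'⟩ := exists_isCompl J
  have hfJ : Module.finrank K J = Module.finrank K I := rfl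
  have hfin : FiniteDimensional K J' :=
    FiniteDimensional.of_injective (J'.subtype.restrictScalars K) J'.subtype_injective
  have hfin' : FiniteDimensional K J :=
    FiniteDimensional.of_injective (J.subtype.restrictScalars K) J.subtype_injective
  -- the complement is a power of `J`
  have hsum : Module.finrank K J + Module.finrank K J' = Module.finrank K R := by
    have e := Submodule.prodEquivOfIsCompl J J' hJ'
    rw [← (e.restrictScalars K).finrank_eq, Module.finrank_prod]
  have hcard : Fintype.card {i // i ≠ o} + 1 = Fintype.card ι := by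
    rw [Fintype.card_subtype_compl, Fintype.card_subtype_eq]
    have : 0 < Fintype.card ι := Fintype.card_pos_iff.2 ⟨o⟩
    omega
  have hdim' : Module.finrank K ({i // i ≠ o} → J) = Module.finrank K J' := by
    rw [Module.finrank_pi_fintype]
    simp only [Finset.sum_const, Finset.card_univ, smul_eq_mul]
    rw [← hcard, add_mul, one_mul] at hdim
    rw [hfJ] at hsum ⊢
    omega
  obtain ⟨e'⟩ := exists_linearEquiv (K := K) (S := Rᵐᵒᵖ) hdim'
  -- an isomorphism of a power of `J` with the ring
  let Φ₀ : (ι → J) →ₗ[Rᵐᵒᵖ] R :=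
    J.subtype ∘ₗ LinearMap.proj o +
      J'.subtype ∘ₗ e'.toLinearMap ∘ₗ LinearMap.funLeft Rᵐᵒᵖ J (Subtype.val : {i // i ≠ o} → ι)
  have hΦ₀ : ∀ f : ι → J, Φ₀ f = (f o : R) + (e' (fun i => f i.1) : R) := fun f => rfl
  have hbij : Function.Bijective Φ₀ := by
    constructor
    · rw [← LinearMap.ker_eq_bot, LinearMap.ker_eq_bot']
      intro f hf
      rw [hΦ₀] at hf
      have h1 : (f o : R) ∈ J' := by
        rw [eq_neg_of_add_eq_zero_left hf]
        exact J'.neg_mem (e' _).2
      have h2 : (f o : R) = 0 := Submodule.disjoint_def.1 hJ'.disjoint _ (f o).2 h1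
      have h3 : e' (fun i => f i.1) = 0 := by
        rw [h2, zero_add] at hf
        exact Subtype.ext hf
      have h4 : (fun i : {i // i ≠ o} => f i.1) = 0 := by
        rwa [LinearEquiv.map_eq_zero_iff] at h3
      funext i
      by_cases hi : i = o
      · rw [hi]; exact Subtype.ext h2
      · exact congrFun h4 ⟨i, hi⟩
    · intro x
      have hx : x ∈ J ⊔ J' := by rw [hJ'.sup_eq_top]; trivial
      obtain ⟨j, hj, j', hj', rfl⟩ := Submodule.mem_sup.1 hx
      refine ⟨fun i => if h : i = o then ⟨j, hj⟩ else e'.symm ⟨j', hj'⟩ ⟨i, h⟩, ?_⟩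
      rw [hΦ₀]
      have h1 : (fun i : {i // i ≠ o} => (if h : i.1 = o then (⟨j, hj⟩ : J) else
          e'.symm ⟨j', hj'⟩ ⟨i.1, h⟩)) = e'.symm ⟨j', hj'⟩ := by
        funext i
        rw [dif_neg i.2]
      rw [h1, dif_pos rfl, LinearEquiv.apply_symm_apply]
  let Φ : (ι → J) ≃ₗ[Rᵐᵒᵖ] R := LinearEquiv.ofBijective Φ₀ hbij
  have hΦo : ∀ x : J, Φ (Pi.single o x) = x := by
    intro x
    change Φ₀ _ = _
    rw [hΦ₀, Pi.single_eq_same]
    have h1 : (fun i : {i // i ≠ o} => (Pi.single o x : ι → J) i.1) = 0 := by
      funext i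
      rw [Pi.single_eq_of_ne i.2]
      rfl
    rw [h1, map_zero]
    simp
  -- endomorphisms are left multiplications
  have hmul : ∀ (f : R →ₗ[Rᵐᵒᵖ] R) (x : R), f x = f 1 * x := by
    intro f x
    have h := f.map_smul (op x) 1
    rwa [op_smul_eq_mul, op_smul_eq_mul, one_mul] at h
  let T : ι → ι → (R →ₗ[Rᵐᵒᵖ] R) := fun a b =>
    Φ.toLinearMap ∘ₗ LinearMap.single Rᵐᵒᵖ (fun _ => J) a ∘ₗ LinearMap.proj b ∘ₗ Φ.symm.toLinearMap
  have hT : ∀ a b x, T a b x = Φ (Pi.single a (Φ.symm x b)) := fun a b x => rfl
  refine ⟨fun a b => T a b 1, ⟨?_, ?_, ?_⟩, ?_⟩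
  · intro a b c
    rw [← hmul, hT, hT b c, LinearEquiv.symm_apply_apply, Pi.single_eq_same, ← hT]
  · intro a b c d hbc
    rw [← hmul, hT, hT c d, LinearEquiv.symm_apply_apply, Pi.single_eq_of_ne hbc, Pi.single_zero,
      map_zero]
  · simp only [hT]
    rw [← map_sum]
    have h1 : ∑ a, (Pi.single a (Φ.symm 1 a) : ι → J) = Φ.symm 1 := by
      funext i
      rw [Finset.sum_apply, Finset.sum_eq_single i]
      · rw [Pi.single_eq_same]
      · intro j _ hj
        rw [Pi.single_eq_of_ne (Ne.symm hj)]
      · intro h; exact absurd (Finset.mem_univ _) h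
    rw [h1, LinearEquiv.apply_symm_apply]
  · intro x
    rw [← hmul, hT]
    constructor
    · intro hx
      have h1 : Φ.symm x = Pi.single o ⟨x, hx⟩ := by
        rw [LinearEquiv.symm_apply_eq, hΦo]
      rw [h1, Pi.single_eq_same, hΦo]
    · intro hx
      rw [← hx, hΦo]
      exact (Φ.symm x o).2

/-- The corner of a matrix unit. -/
def corner (K : Type*) {R : Type*} [Field K] [Ring R] [Algebra K R] (e : R) : Submodule K R where
  carrier := {x | e * x * e = x}
  add_mem' := fun {x y} hx hy => by
    simp only [Set.mem_setOf_eq] at *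
    rw [mul_add, add_mul, hx, hy]
  zero_mem' := by simp
  smul_mem' := fun c x hx => by
    simp only [Set.mem_setOf_eq] at *
    rw [mul_smul_comm, smul_mul_assoc, hx]

theorem corner_finrank {ι K R : Type*} [Fintype ι] [DecidableEq ι] [Field K] [Ring R] [Algebra K R]
    {E : ι → ι → R} (hE : IsUnits E) (o : ι) :
    Module.finrank K R = Fintype.card ι * Fintype.card ι * Module.finrank K (corner K (E o o)) := by
  have h1 : ∀ a b (x : R), E o a * x * E b o ∈ corner K (E o o) := by
    intro a b x
    change E o o * (E o a * x * E b o) * E o o = _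
    rw [← mul_assoc, ← mul_assoc, hE.mul_same, mul_assoc, hE.mul_same]
  let f : R →ₗ[K] (ι × ι → corner K (E o o)) :=
    { toFun := fun x i => ⟨E o i.1 * x * E i.2 o, h1 _ _ _⟩
      map_add' := fun x y => by
        funext i; apply Subtype.ext
        change E o i.1 * (x + y) * E i.2 o = E o i.1 * x * E i.2 o + E o i.1 * y * E i.2 o
        rw [mul_add, add_mul]
      map_smul' := fun c x => by
        funext i; apply Subtype.ext
        change E o i.1 * (c • x) * E i.2 o = c • (E o i.1 * x * E i.2 o)
        rw [mul_smul_comm, smul_mul_assoc] }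
  have hf : ∀ x i, (f x i : R) = E o i.1 * x * E i.2 o := fun x i => rfl
  have hbij : Function.Bijective f := by
    constructor
    · intro x y hxy
      have h2 : ∀ z : R, z = ∑ i : ι × ι, E i.1 o * (f z i : R) * E o i.2 := by
        intro z
        have h3 : z = (∑ a, E a a) * z * (∑ b, E b b) := by rw [hE.sum, one_mul, mul_one]
        conv_lhs => rw [h3, Finset.sum_mul, Finset.sum_mul_sum]
        rw [Fintype.sum_prod_type]
        refine Finset.sum_congr rfl fun a _ => Finset.sum_congr rfl fun b _ => ?_
        rw [hf, ← mul_assoc, ← mul_assoc, hE.mul_same, mul_assoc _ _ (E o b), hE.mul_same]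
      rw [h2 x, h2 y, hxy]
    · intro g
      refine ⟨∑ i : ι × ι, E i.1 o * (g i : R) * E o i.2, ?_⟩
      funext j
      apply Subtype.ext
      rw [hf, Finset.mul_sum, Finset.sum_mul, Finset.sum_eq_single j]
      · have h2 : E o o * (g j : R) * E o o = g j := (g j).2
        rw [← mul_assoc, ← mul_assoc, hE.mul_same, mul_assoc _ (E o j.2), hE.mul_same, h2]
      · intro i _ hij
        rw [← mul_assoc, ← mul_assoc, mul_assoc _ (E o i.2)]
        by_cases h3 : j.1 = i.1
        · have h4 : i.2 ≠ j.2 := fun h => hij (Prod.ext h3.symm h)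
          rw [hE.mul_ne _ _ _ _ h4, mul_zero]
        · rw [hE.mul_ne _ _ _ _ h3, zero_mul, zero_mul]
      · intro h; exact absurd (Finset.mem_univ _) h
  rw [(LinearEquiv.ofBijective f hbij).finrank_eq]
  by_cases hfin : FiniteDimensional K (corner K (E o o))
  · rw [Module.finrank_pi_fintype]
    simp
  · have h5 : Module.finrank K (corner K (E o o)) = 0 := Module.finrank_of_not_finite hfin
    rw [h5, mul_zero]
    apply Module.finrank_of_not_finite
    intro h6
    apply hfin
    have h7 : Function.Surjective
        (LinearMap.proj (o, o) : (ι × ι → corner K (E o o)) →ₗ[K] corner K (E o o)) :=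
      LinearMap.proj_surjective _
    exact Module.Finite.of_surjective _ h7

/-- A basis of the corner. -/
theorem exists_corner_basis {ι K R : Type*} [Fintype ι] [DecidableEq ι] [Field K] [Ring R]
    [Algebra K R] [FiniteDimensional K R] {E : ι → ι → R} (hE : IsUnits E) (o : ι) {g : ℕ}
    (h : Module.finrank K R = (Fintype.card ι * g) ^ 2) :
    ∃ a : Fin (g ^ 2) → R, (∀ i, E o o * a i * E o o = a i) ∧ LinearIndependent K a := by
  have h1 := corner_finrank (K := K) hE o
  have h2 : 0 < Fintype.card ι := Fintype.card_pos_iff.2 ⟨o⟩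
  have h3 : Module.finrank K (corner K (E o o)) = g ^ 2 := by
    rw [h] at h1
    have h4 : (Fintype.card ι * Fintype.card ι) * g ^ 2 =
        (Fintype.card ι * Fintype.card ι) * Module.finrank K (corner K (E o o)) := by
      rw [← h1]; ring
    exact (Nat.eq_of_mul_eq_mul_left (Nat.mul_pos h2 h2) h4).symm
  let b := Module.finBasisOfFinrankEq K (corner K (E o o)) h3
  refine ⟨fun i => (b i : R), fun i => (b i).2, ?_⟩
  exact b.linearIndependent.map' (corner K (E o o)).subtype (Submodule.ker_subtype _)

end Pool.Agent.H49.GSB
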