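import Pool.Agent.H49.GSB.Choose

/-!
# Block decompositions of right ideals
-/

open TensorProduct

namespace Pool.Agent.H49.GSB

section

variable {Q S U P : Type*} [Fintype Q] [Fintype S] [Fintype U] [Fintype P] [DecidableEq Q]
  [DecidableEq S] [DecidableEq U] [DecidableEq P] {K R : Type*} [Field K] [Ring R] [Algebra K R]

/-- The map `(x_a) ↦ ∑ ζ_a x_a` on a power of `I`. -/
def blk {ι : Type*} [Fintype ι] (I : Submodule K R) (ζ : ι → R) : (ι → I) →ₗ[K] R where
  toFun f := ∑ a, ζ a * f a
  map_add' f g := by
    simp only [Pi.add_apply, Submodule.coe_add, mul_add, Finset.sum_add_distrib]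
  map_smul' c f := by
    simp only [Pi.smul_apply, Submodule.coe_smul, mul_smul_comm, RingHom.id_apply,
      Finset.smul_sum]

theorem blk_apply {ι : Type*} [Fintype ι] (I : Submodule K R) (ζ : ι → R) (f : ι → I) :
    blk I ζ f = ∑ a, ζ a * f a := rfl

theorem blk_single {ι : Type*} [Fintype ι] [DecidableEq ι] (I : Submodule K R) (ζ : ι → R) (a : ι)
    (x : I) : blk I ζ (Pi.single a x) = ζ a * x := by
  rw [blk_apply, Finset.sum_eq_single a]
  · rw [Pi.single_eq_same]
  · intro b _ hb
    rw [Pi.single_eq_of_ne hb]; simp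
  · intro h; exact absurd (Finset.mem_univ _) h

theorem blk_mul {ι : Type*} [Fintype ι] {I : Submodule K R} (hI : ∀ x ∈ I, ∀ y, x * y ∈ I)
    (ζ : ι → R) {x : R} (hx : x ∈ LinearMap.range (blk I ζ)) (y : R) :
    x * y ∈ LinearMap.range (blk I ζ) := by
  obtain ⟨f, rfl⟩ := hx
  refine ⟨fun a => ⟨f a * y, hI _ (f a).2 y⟩, ?_⟩
  rw [blk_apply, blk_apply, Finset.sum_mul]
  exact Finset.sum_congr rfl fun a _ => (mul_assoc _ _ _).symm

variable {I : Submodule K R} (ζ : (Q ⊕ S) ⊕ U → R) (c : Option P → Q → R)

/-- The family of the generators. -/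
def gen (I : Submodule K R) (ζ : (Q ⊕ S) ⊕ U → R) (c : Option P → Q → R) :
    Gens Q S U P I R → Option Q → R
  | .one a x => Pi.single none (ζ a * x)
  | .two i y => fun j => j.elim 0 fun j => c i j * y
  | .four j a x => Pi.single (some j) (ζ (Sum.inl a) * x)

theorem blk_surjective (h : Submodule.span K (Set.range (gen I ζ c)) = ⊤) :
    Function.Surjective (blk I ζ) := by
  intro y
  have h1 : (Pi.single none y : Option Q → R) ∈ Submodule.span K (Set.range (gen I ζ c)) := by
    rw [h]; trivial
  have h2 : Submodule.span K (Set.range (gen I ζ c)) ≤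
      (LinearMap.range (blk I ζ)).comap (LinearMap.proj none) := by
    rw [Submodule.span_le]
    rintro _ ⟨d, rfl⟩
    rw [SetLike.mem_coe, Submodule.mem_comap, LinearMap.proj_apply]
    rcases d with ⟨a, x⟩ | ⟨i, y⟩ | ⟨j, a, x⟩
    · exact ⟨Pi.single a x, by rw [blk_single]; simp [gen]⟩
    · exact Submodule.zero_mem _
    · rw [gen, Pi.single_eq_of_ne (by simp)]
      exact Submodule.zero_mem _
  have h3 := h2 h1
  rw [Submodule.mem_comap, LinearMap.proj_apply, Pi.single_eq_same] at h3
  exact h3

theorem con_surjective (h : Submodule.span K (Set.range (gen I ζ c)) = ⊤) (y : Q → R) :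
    ∃ v : Option P → R, ∀ j, y j - ∑ i, c i j * v i ∈
      LinearMap.range (blk I fun a : Q ⊕ S => ζ (Sum.inl a)) := by
  let T : Submodule K (Option Q → R) :=
    { carrier := {f | ∃ v : Option P → R, ∀ j, f (some j) - ∑ i, c i j * v i ∈
        LinearMap.range (blk I fun a : Q ⊕ S => ζ (Sum.inl a))}
      add_mem' := by
        rintro f f' ⟨v, hv⟩ ⟨v', hv'⟩
        refine ⟨v + v', fun j => ?_⟩
        have h1 := Submodule.add_mem _ (hv j) (hv' j)
        have h2 : (f + f') (some j) - ∑ i, c i j * (v + v') i =
            f (some j) - ∑ i, c i j * v i + (f' (some j) - ∑ i, c i j * v' i) := by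
          simp only [Pi.add_apply, mul_add, Finset.sum_add_distrib]
          abel
        rw [h2]; exact h1
      zero_mem' := ⟨0, fun j => by simp⟩
      smul_mem' := by
        rintro a f ⟨v, hv⟩
        refine ⟨a • v, fun j => ?_⟩
        have h2 : (a • f) (some j) - ∑ i, c i j * (a • v) i =
            a • (f (some j) - ∑ i, c i j * v i) := by
          simp only [Pi.smul_apply, mul_smul_comm, smul_sub, Finset.smul_sum]
        rw [h2]; exact Submodule.smul_mem _ _ (hv j) }
  have h1 : (fun j => j.elim 0 y : Option Q → R) ∈ Submodule.span K (Set.range (gen I ζ c)) := by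
    rw [h]; trivial
  have h2 : Submodule.span K (Set.range (gen I ζ c)) ≤ T := by
    rw [Submodule.span_le]
    rintro _ ⟨d, rfl⟩
    rcases d with ⟨a, x⟩ | ⟨i, y⟩ | ⟨j, a, x⟩
    · refine ⟨0, fun j => ?_⟩
      rw [gen, Pi.single_eq_of_ne (by simp)]
      simp
    · refine ⟨Pi.single i y, fun j => ?_⟩
      rw [Finset.sum_eq_single i]
      · rw [Pi.single_eq_same]
        simp [gen]
      · intro i' _ hi
        rw [Pi.single_eq_of_ne hi, mul_zero]
      · intro h; exact absurd (Finset.mem_univ _) h
    · refine ⟨0, fun j' => ?_⟩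
      have h3 : ∑ i, c i j' * (0 : Option P → R) i = 0 := by simp
      rw [h3, sub_zero]
      by_cases hj : j' = j
      · subst hj
        refine ⟨Pi.single a x, ?_⟩
        rw [blk_single, gen, Pi.single_eq_same]
      · rw [gen, Pi.single_eq_of_ne (by simpa using hj)]
        exact Submodule.zero_mem _
  obtain ⟨v, hv⟩ := h2 h1
  exact ⟨v, hv⟩

variable [FiniteDimensional K R]

theorem blk_injective (h : Submodule.span K (Set.range (gen I ζ c)) = ⊤)
    (hdim : (Fintype.card Q + Fintype.card S + Fintype.card U) * Module.finrank K I =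
      Module.finrank K R) : Function.Injective (blk I ζ) := by
  rw [LinearMap.injective_iff_surjective_of_finrank_eq_finrank]
  · exact blk_surjective ζ c h
  · rw [Module.finrank_pi_fintype]
    simp only [Finset.sum_const, Finset.card_univ, smul_eq_mul, Fintype.card_sum]
    exact hdim

theorem blk_elim {ι κ : Type*} [Fintype ι] [Fintype κ] (ζ : ι ⊕ κ → R) (f : ι → I) (f' : κ → I) :
    blk I ζ (Sum.elim f f') =
      blk I (fun a => ζ (Sum.inl a)) f + blk I (fun a => ζ (Sum.inr a)) f' := by
  rw [blk_apply, Fintype.sum_sum_type]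
  rfl

theorem blk_injective_left (h : Function.Injective (blk I ζ)) :
    Function.Injective (blk I fun a : Q ⊕ S => ζ (Sum.inl a)) := by
  intro f f' hf
  have h1 : blk I ζ (Sum.elim f 0) = blk I ζ (Sum.elim f' 0) := by
    rw [blk_elim, blk_elim, hf]
  have h2 := h h1
  funext a
  exact congrFun h2 (Sum.inl a)

theorem blk_injective_right (h : Function.Injective (blk I ζ)) :
    Function.Injective (blk I fun a : U => ζ (Sum.inr a)) := by
  intro f f' hf
  have h1 : blk I ζ (Sum.elim 0 f) = blk I ζ (Sum.elim 0 f') := by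
    rw [blk_elim, blk_elim, hf]
  have h2 := h h1
  funext a
  exact congrFun h2 (Sum.inr a)

theorem blk_disjoint (h : Function.Injective (blk I ζ)) {x : R}
    (hx : x ∈ LinearMap.range (blk I fun a : Q ⊕ S => ζ (Sum.inl a)))
    (hx' : x ∈ LinearMap.range (blk I fun a : U => ζ (Sum.inr a))) : x = 0 := by
  obtain ⟨f, rfl⟩ := hx
  obtain ⟨f', hf'⟩ := hx'
  have h1 : blk I ζ (Sum.elim f (-f')) = blk I ζ 0 := by
    rw [map_zero, blk_elim, map_neg, hf', add_neg_cancel]
  have h2 := h h1
  have h3 : f = 0 := by
    funext a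
    exact congrFun h2 (Sum.inl a)
  rw [h3, map_zero]

/-- The dimension of the preimage. -/
theorem preimage_finrank (h : Submodule.span K (Set.range (gen I ζ c)) = ⊤)
    (hcard : (Fintype.card P + 1) * (Fintype.card Q + Fintype.card S + Fintype.card U) =
      1 + Fintype.card Q * Fintype.card U)
    (hdim : (Fintype.card Q + Fintype.card S + Fintype.card U) * Module.finrank K I =
      Module.finrank K R) {V : Submodule K (Option P → R)}
    (hV : ∀ v, v ∈ V ↔ ∀ j, ∑ i, c i j * v i ∈
      LinearMap.range (blk I fun a : Q ⊕ S => ζ (Sum.inl a))) :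
    Module.finrank K V = Module.finrank K I := by
  set W := LinearMap.range (blk I fun a : Q ⊕ S => ζ (Sum.inl a)) with hW
  let Θ : (Option P → R) →ₗ[K] (Q → R ⧸ W) :=
    { toFun := fun v j => W.mkQ (∑ i, c i j * v i)
      map_add' := fun v v' => by
        funext j
        simp only [Pi.add_apply, mul_add, Finset.sum_add_distrib, map_add]
      map_smul' := fun a v => by
        funext j
        simp only [Pi.smul_apply, mul_smul_comm, ← Finset.smul_sum, map_smul, RingHom.id_apply] }
  have hΘ : ∀ v j, Θ v j = W.mkQ (∑ i, c i j * v i) := fun v j => rfl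
  have hker : LinearMap.ker Θ = V := by
    ext v
    rw [LinearMap.mem_ker, hV]
    constructor
    · intro h1 j
      have h2 := congrFun h1 j
      rw [hΘ] at h2
      exact (Submodule.Quotient.mk_eq_zero W).1 h2
    · intro h1
      funext j
      rw [hΘ]
      exact (Submodule.Quotient.mk_eq_zero W).2 (h1 j)
  have hsurj : Function.Surjective Θ := by
    intro y
    choose z hz using fun j => W.mkQ_surjective (y j)
    obtain ⟨v, hv⟩ := con_surjective ζ c h z
    refine ⟨v, funext fun j => ?_⟩
    rw [hΘ, ← hz j]
    have h1 := (Submodule.Quotient.mk_eq_zero W).2 (hv j)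
    rw [Submodule.Quotient.mk_sub, sub_eq_zero] at h1
    exact h1.symm
  have hWdim : Module.finrank K W =
      (Fintype.card Q + Fintype.card S) * Module.finrank K I := by
    rw [hW, LinearMap.finrank_range_of_inj
      (blk_injective_left ζ (blk_injective ζ c h hdim)), Module.finrank_pi_fintype]
    simp only [Finset.sum_const, Finset.card_univ, smul_eq_mul, Fintype.card_sum]
  have hquot : Module.finrank K (R ⧸ W) = Fintype.card U * Module.finrank K I := by
    have h1 := Submodule.finrank_quotient_add_finrank W
    rw [hWdim, ← hdim] at h1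
    have h2 : (Fintype.card Q + Fintype.card S + Fintype.card U) * Module.finrank K I =
      Fintype.card U * Module.finrank K I +
        (Fintype.card Q + Fintype.card S) * Module.finrank K I := by ring
    omega
  have h1 := LinearMap.finrank_range_add_finrank_ker Θ
  rw [LinearMap.range_eq_top.2 hsurj, finrank_top, hker, Module.finrank_pi_fintype,
    Module.finrank_pi_fintype] at h1
  simp only [Finset.sum_const, Finset.card_univ, smul_eq_mul, Fintype.card_option] at h1
  rw [hquot, ← hdim] at h1
  have h2 : (Fintype.card P + 1) *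
      ((Fintype.card Q + Fintype.card S + Fintype.card U) * Module.finrank K I) =
      Module.finrank K I + Fintype.card Q * (Fintype.card U * Module.finrank K I) := by
    rw [← mul_assoc, hcard]; ring
  rw [h2] at h1
  omega

end

end Pool.Agent.H49.GSB
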