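import Pool.Agent.H49.GSB.Blocks

/-!
# The generic point of `SB_m(A)` over the function field of `SB_g(A)`
-/

open TensorProduct

namespace Pool.Agent.H49.GSB

universe u

section lamK

variable {k : Type u} [Field k] {A : Type u} [Ring A] [Algebra k A]
  {K : Type u} [Field K] [Algebra k K] {L : Type u} [Field L] [Algebra k L] [Algebra K L]
  [IsScalarTower k K L]

/-- `f ⊗ id` for a `K`-linear functional on `L`. -/
noncomputable def lamK (f : L →ₗ[K] K) : L ⊗[k] A →ₗ[k] K ⊗[k] A :=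
  LinearMap.rTensor A (f.restrictScalars k)

theorem lamK_smul_bc (f : L →ₗ[K] K) (c : L) (x : K ⊗[k] A) :
    lamK f (c • bc k A K L x) = f c • x := by
  induction x using TensorProduct.induction_on with
  | zero => simp
  | tmul d a =>
    rw [bc_tmul, TensorProduct.smul_tmul', lamK, LinearMap.rTensor_tmul,
      TensorProduct.smul_tmul', smul_eq_mul, smul_eq_mul, LinearMap.coe_restrictScalars]
    have h := f.map_smul d c
    rw [Algebra.smul_def, smul_eq_mul] at h
    rw [mul_comm c, h, mul_comm]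
  | add x y hx hy => rw [map_add, smul_add, map_add, hx, hy, smul_add]

/-- If `F` contains `K` then `l ⊗ id` is multiplication by `l c` on the multiples by `c` of the
elements of `A_K`. -/
theorem lam_smul_bc {F : IntermediateField k L} (hF : ∀ c : K, algebraMap K L c ∈ F)
    (l : L →ₗ[F] L) (c : L) (x : K ⊗[k] A) :
    lam (l.restrictScalars k) (c • bc k A K L x) = l c • bc k A K L x := by
  induction x using TensorProduct.induction_on with
  | zero => simp
  | tmul d a =>
    rw [bc_tmul, TensorProduct.smul_tmul', lam_tmul, TensorProduct.smul_tmul',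
      LinearMap.coe_restrictScalars, smul_eq_mul, smul_eq_mul]
    have h := l.map_smul (⟨_, hF d⟩ : F) c
    rw [Algebra.smul_def, Algebra.smul_def] at h
    rw [mul_comm c, mul_comm (l c)]
    congr 1
  | add x y hx hy => rw [map_add, smul_add, map_add, hx, hy, smul_add]

theorem lam_one_mul (l : L →ₗ[k] L) (a : A) (x : L ⊗[k] A) :
    lam l ((1 ⊗ₜ a) * x) = (1 ⊗ₜ a) * lam l x := by
  induction x using TensorProduct.induction_on with
  | zero => simp
  | tmul c b => simp
  | add x y hx hy => rw [mul_add, map_add, hx, hy, map_add, mul_add]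

theorem bc_one (a : A) : bc k A K L (1 ⊗ₜ a) = 1 ⊗ₜ a := by simp

end lamK

section main

variable {Q S U P G : Type} [Fintype Q] [Fintype S] [Fintype U] [Fintype P] [Fintype G]
  [DecidableEq Q] [DecidableEq S] [DecidableEq U] [DecidableEq P]
  {k : Type u} [Field k] {A : Type u} [Ring A] [Algebra k A]
  {K : Type u} [Field K] [Algebra k K] {L : Type u} [Field L] [Algebra k L] [Algebra K L]
  [IsScalarTower k K L]

/-- Indices of the parameters. -/
abbrev Par (Q S U P G : Type) : Type := (P × ((Q ⊕ S) ⊕ U) × G) ⊕ (S × U × G)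

/-- The coefficients of the parameters in the generic constants. -/
def om (ξ : ((Q ⊕ S) ⊕ U) ⊕ (Q × P) → A) (α : G → K ⊗[k] A) :
    (Q ⊕ S) ⊕ U → Par Q S U P G → K ⊗[k] A
  | .inl (.inl j), .inl (i, a, β) => (1 ⊗ₜ ξ (.inr (j, i))) * ((1 ⊗ₜ ξ (.inl a)) * α β)
  | .inl (.inr l), .inr (l', b, β) => if l = l' then (1 ⊗ₜ ξ (.inl (.inr b))) * α β else 0
  | _, _ => 0

/-- The generic constants. -/
noncomputable def xi (ξ : ((Q ⊕ S) ⊕ U) ⊕ (Q × P) → A) (α : G → K ⊗[k] A)
    (X : Par Q S U P G → L) (a : (Q ⊕ S) ⊕ U) : L ⊗[k] A :=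
  1 ⊗ₜ ξ (.inl a) + ∑ z, X z • bc k A K L (om ξ α a z)

/-- The generic point: a right ideal of `A_L`. -/
noncomputable def genPt (I : Submodule K (K ⊗[k] A)) (ξ : ((Q ⊕ S) ⊕ U) ⊕ (Q × P) → A)
    (α : G → K ⊗[k] A) (X : Par Q S U P G → L) : Submodule L (L ⊗[k] A) :=
  LinearMap.range (blk (ext L I) fun a : Q ⊕ S => xi ξ α X (.inl a))

variable {I : Submodule K (K ⊗[k] A)} {ξ : ((Q ⊕ S) ⊕ U) ⊕ (Q × P) → A}
  {α : G → K ⊗[k] A} {X : Par Q S U P G → L}

theorem con_tmul (ξ : ((Q ⊕ S) ⊕ U) ⊕ (Q × P) → A) (i : Option P) (j : Q) :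
    con (fun z => (1 : K) ⊗ₜ[k] ξ z) i j = 1 ⊗ₜ con ξ i j := by
  cases i <;> rfl

/-- The generic family spans. -/
theorem gen_span [FiniteDimensional k A] (hX : AlgebraicIndependent K X)
    (hspan : Submodule.span K (Set.range fun d : Gens Q S U P I (K ⊗[k] A) =>
        vec (fun x : I => (x : K ⊗[k] A)) (fun z => 1 ⊗ₜ ξ z) d) = ⊤) :
    Submodule.span L (Set.range (gen (ext L I) (xi ξ α X)
      (fun i j => (1 : L) ⊗ₜ[k] con ξ i j))) = ⊤ := by
  have h := generic_span X hX (fun d : Gens Q S U P I (K ⊗[k] A) =>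
    vec (fun x : I => (x : K ⊗[k] A)) (fun z => 1 ⊗ₜ ξ z) d)
    (fun d z => match d with
      | .one a x => Pi.single none (om ξ α a z * x)
      | .two _ _ => 0
      | .four j a x => Pi.single (some j) (om ξ α (.inl a) z * x)) hspan
  rw [eq_top_iff, ← h]
  apply Submodule.span_mono
  rintro _ ⟨d, rfl⟩
  rcases d with ⟨a, x⟩ | ⟨i, y⟩ | ⟨j, a, x⟩
  · refine ⟨.one a ⟨bc k A K L x, bc_mem_ext x.2⟩, ?_⟩
    funext j
    by_cases hj : j = none
    · subst hj
      simp only [gen, vec, Pi.single_eq_same, xi, add_mul, Finset.sum_mul, smul_mul_assoc,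
        map_mul, bc_one]
    · simp [gen, vec, Pi.single_eq_of_ne hj]
  · refine ⟨.two i (bc k A K L y), ?_⟩
    funext j
    rcases j with _ | j
    · simp [gen, vec]
    · simp only [gen, vec, Option.elim_some, con_tmul, map_mul, bc_one, Pi.zero_apply, map_zero,
        smul_zero, Finset.sum_const_zero, add_zero]
  · refine ⟨.four j a ⟨bc k A K L x, bc_mem_ext x.2⟩, ?_⟩
    funext j'
    by_cases hj : j' = some j
    · subst hj
      simp only [gen, vec, Pi.single_eq_same, xi, add_mul, Finset.sum_mul, smul_mul_assoc,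
        map_mul, bc_one]
    · simp [gen, vec, Pi.single_eq_of_ne hj]

/-- The generic maps to the other copies of `V`. -/
noncomputable def eta (ξ : ((Q ⊕ S) ⊕ U) ⊕ (Q × P) → A) (α : G → K ⊗[k] A)
    (X : Par Q S U P G → L) (i : P) : L ⊗[k] A :=
  ∑ a, ∑ β, X (.inl (i, a, β)) • bc k A K L ((1 ⊗ₜ ξ (.inl a)) * α β)

/-- The generic maps to the complement. -/
noncomputable def phi (ξ : ((Q ⊕ S) ⊕ U) ⊕ (Q × P) → A) (α : G → K ⊗[k] A)
    (X : Par Q S U P G → L) (l : S) : L ⊗[k] A :=
  ∑ b, ∑ β, X (.inr (l, b, β)) • bc k A K L ((1 ⊗ₜ ξ (.inl (.inr b))) * α β)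

theorem xi_Q (j : Q) : xi ξ α X (.inl (.inl j)) =
    1 ⊗ₜ ξ (.inl (.inl (.inl j))) + ∑ i, (1 ⊗ₜ ξ (.inr (j, i))) * eta ξ α X i := by
  rw [xi]
  congr 1
  rw [Fintype.sum_sum_type, Fintype.sum_prod_type]
  have h2 : ∑ a : S × U × G, X (.inr a) • bc k A K L (om ξ α (.inl (.inl j)) (.inr a)) = 0 :=
    Finset.sum_eq_zero fun a _ => by simp [om]
  rw [h2, add_zero]
  refine Finset.sum_congr rfl fun i _ => ?_
  rw [Fintype.sum_prod_type, eta, Finset.mul_sum]
  refine Finset.sum_congr rfl fun a _ => ?_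
  rw [Finset.mul_sum]
  refine Finset.sum_congr rfl fun β _ => ?_
  rw [om, map_mul, bc_one, mul_smul_comm]

theorem xi_S (l : S) : xi ξ α X (.inl (.inr l)) =
    1 ⊗ₜ ξ (.inl (.inl (.inr l))) + phi ξ α X l := by
  rw [xi]
  congr 1
  rw [Fintype.sum_sum_type]
  have h2 : ∑ a : P × ((Q ⊕ S) ⊕ U) × G,
      X (.inl a) • bc k A K L (om ξ α (.inl (.inr l)) (.inl a)) = 0 :=
    Finset.sum_eq_zero fun a _ => by simp [om]
  rw [h2, zero_add, Fintype.sum_prod_type, Finset.sum_eq_single l]
  · rw [Fintype.sum_prod_type, phi]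
    refine Finset.sum_congr rfl fun b _ => Finset.sum_congr rfl fun β _ => ?_
    rw [om, if_pos rfl]
  · intro l' _ hl
    refine Finset.sum_eq_zero fun b _ => ?_
    rw [om, if_neg (Ne.symm hl), map_zero, smul_zero]
  · intro h; exact absurd (Finset.mem_univ _) h

theorem xi_U (b : U) : xi ξ α X (.inr b) = 1 ⊗ₜ ξ (.inl (.inr b)) := by
  rw [xi, Finset.sum_eq_zero, add_zero]
  intro z _
  simp [om]

/-- A family which is independent over `K` is independent over `L`. -/
theorem indep {T : Type*} {Z : Type*} [Fintype Z]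
    (v : Z → T → K ⊗[k] A)
    (h : ∀ μ : Z → K, (∀ x, ∑ z, μ z • v z x = 0) → ∀ z, μ z = 0)
    (μ : Z → L) (hμ : ∀ x, ∑ z, μ z • bc k A K L (v z x) = 0) (z : Z) : μ z = 0 := by
  by_contra hz
  obtain ⟨f, hf⟩ : ∃ f : L →ₗ[K] K, f (μ z) ≠ 0 := by
    by_contra! h1
    exact hz ((Module.forall_dual_apply_eq_zero_iff K (μ z)).1 h1)
  apply hf
  refine h (fun z => f (μ z)) (fun x => ?_) z
  have h2 := congrArg (lamK f) (hμ x)
  rw [map_sum, map_zero] at h2
  rw [← h2]
  exact Finset.sum_congr rfl fun z _ => (lamK_smul_bc f _ _).symm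

theorem genPt_right (hI : ∀ x ∈ I, ∀ y : K ⊗[k] A, x * y ∈ I) {x : L ⊗[k] A}
    (hx : x ∈ genPt I ξ α X) (y : L ⊗[k] A) : x * y ∈ genPt I ξ α X :=
  blk_mul (fun _ hx y => ext_right hI hx y) _ hx y

section facts

variable [FiniteDimensional k A] (hX : AlgebraicIndependent K X)
  (hspan : Submodule.span K (Set.range fun d : Gens Q S U P I (K ⊗[k] A) =>
        vec (fun x : I => (x : K ⊗[k] A)) (fun z => 1 ⊗ₜ ξ z) d) = ⊤)
  (hdim : (Fintype.card Q + Fintype.card S + Fintype.card U) * Module.finrank K I =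
      Module.finrank K (K ⊗[k] A))

include hdim in
theorem hdimL : (Fintype.card Q + Fintype.card S + Fintype.card U) *
    Module.finrank L (ext L I) = Module.finrank L (L ⊗[k] A) := by
  rw [ext_finrank, hdim, Module.finrank_baseChange, Module.finrank_baseChange]

include hX hspan hdim in
theorem xi_injective : Function.Injective (blk (ext L I) (xi ξ α X)) :=
  blk_injective _ _ (gen_span hX hspan) (hdimL hdim)

include hspan hdim in
theorem xi_injective₀ :
    Function.Injective (blk I fun a => (1 : K) ⊗ₜ[k] ξ (.inl a)) := by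
  have h : Submodule.span K (Set.range (gen I (fun a => (1 : K) ⊗ₜ[k] ξ (.inl a))
      (fun i j => (1 : K) ⊗ₜ[k] con ξ i j))) = ⊤ := by
    rw [eq_top_iff, ← hspan]
    apply Submodule.span_mono
    rintro _ ⟨d, rfl⟩
    refine ⟨d, ?_⟩
    rcases d with ⟨a, x⟩ | ⟨i, y⟩ | ⟨j, a, x⟩
    · rfl
    · funext j
      rcases j with _ | j
      · rfl
      · simp only [gen, vec, Option.elim_some, con_tmul]
    · rfl
  exact blk_injective _ _ h hdim

include hX hspan hdim in
theorem genPt_finrank : Module.finrank L (genPt I ξ α X) =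
    (Fintype.card Q + Fintype.card S) * Module.finrank K I := by
  rw [genPt, LinearMap.finrank_range_of_inj
    (blk_injective_left _ (xi_injective hX hspan hdim)), Module.finrank_pi_fintype]
  simp only [Finset.sum_const, Finset.card_univ, smul_eq_mul, Fintype.card_sum, ext_finrank]

end facts

end main

end Pool.Agent.H49.GSB
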