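import Pool.Agent.H49.GSB.MatTen
import Pool.Agent.H49.GSB.Main

/-!
# The generic point of `SB_m(M_r(D))` over the function field of `SB_c(D)`, `m = c mod deg D`
-/

open TensorProduct MulOpposite

namespace Pool.Agent.H49.GSB

universe u

/-- Right ideals are generated by idempotents. -/
theorem exists_idem {K R : Type*} [Field K] [Ring R] [Algebra K R] [FiniteDimensional K R]
    [IsSimpleRing R] (I : Submodule K R) (hI : ∀ x ∈ I, ∀ y, x * y ∈ I) :
    ∃ e : R, e ∈ I ∧ ∀ x, x ∈ I ↔ e * x = x := by
  let J : Submodule Rᵐᵒᵖ R :=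
    { carrier := I
      add_mem' := I.add_mem
      zero_mem' := I.zero_mem
      smul_mem' := fun c x hx => hI x hx c.unop }
  have hJI : ∀ x, x ∈ J ↔ x ∈ I := fun x => Iff.rfl
  have : IsArtinianRing Rᵐᵒᵖ := IsArtinianRing.of_finite K Rᵐᵒᵖ
  obtain ⟨J', hJ'⟩ := exists_isCompl J
  have h1 : (1 : R) ∈ J ⊔ J' := by rw [hJ'.sup_eq_top]; trivial
  obtain ⟨e, he, f, hf, hef⟩ := Submodule.mem_sup.1 h1
  refine ⟨e, he, fun x => ⟨fun hx => ?_, fun hx => ?_⟩⟩
  · have h2 : e * x + f * x = x := by rw [← add_mul, hef, one_mul]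
    have h3 : f * x ∈ J' := J'.smul_mem (op x) hf
    have h4 : f * x ∈ J := by
      have : f * x = x - e * x := eq_sub_of_add_eq' h2
      rw [this]
      exact J.sub_mem hx (J.smul_mem (op x) he)
    have h5 : f * x = 0 := Submodule.disjoint_def.1 hJ'.disjoint _ h4 h3
    rw [h5, add_zero] at h2
    exact h2
  · rw [← hx]
    exact hI e he x

section

set_option linter.unusedSectionVars false

variable {α β : Type} [Fintype α] [DecidableEq α] [Fintype β] [DecidableEq β]
  {k : Type u} [Field k] {A : Type u} [Ring A] [Algebra k A]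
  {K : Type u} [Field K] [Algebra k K] {L : Type u} [Field L] [Algebra k L] [Algebra K L]
  [IsScalarTower k K L]

/-- The positions of the parameters. -/
abbrev Pos (α β : Type) : Type := (α ⊕ β) ⊕ (β × α)

variable {n : Pos α β → ℕ} {v : (t : Pos α β) → Fin (n t) → K ⊗[k] A}
  {X : (Σ t, Fin (n t)) → L} {I : Submodule K (K ⊗[k] A)}

/-- The generic entry. -/
noncomputable def gent (v : (t : Pos α β) → Fin (n t) → K ⊗[k] A) (X : (Σ t, Fin (n t)) → L)
    (t : Pos α β) : L ⊗[k] A :=
  ∑ c, X ⟨t, c⟩ • bc k A K L (v t c)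

/-- The parametrisation of the generic point. -/
noncomputable def par (I : Submodule K (K ⊗[k] A)) (v : (t : Pos α β) → Fin (n t) → K ⊗[k] A)
    (X : (Σ t, Fin (n t)) → L) :
    ((α → L ⊗[k] A) × ext L I) →ₗ[L] ((α ⊕ Unit) ⊕ β → L ⊗[k] A) where
  toFun p := Sum.elim (Sum.elim p.1 fun _ =>
      (p.2 : L ⊗[k] A) + ∑ i, gent v X (.inl (.inl i)) * p.1 i)
    fun j => gent v X (.inl (.inr j)) * p.2 + ∑ i, gent v X (.inr (j, i)) * p.1 i
  map_add' p q := by
    funext t
    rcases t with (i | _) | j
    · rfl
    · simp only [Sum.elim_inl, Sum.elim_inr, Prod.fst_add, Prod.snd_add, Pi.add_apply, mul_add,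
        Finset.sum_add_distrib, Submodule.coe_add]
      abel
    · simp only [Sum.elim_inr, Prod.fst_add, Prod.snd_add, Pi.add_apply, mul_add,
        Finset.sum_add_distrib, Submodule.coe_add]
      abel
  map_smul' c p := by
    funext t
    rcases t with (i | _) | j
    · rfl
    · simp only [Sum.elim_inl, Sum.elim_inr, Prod.smul_fst, Prod.smul_snd, Pi.smul_apply,
        mul_smul_comm, Submodule.coe_smul, RingHom.id_apply, smul_add, Finset.smul_sum]
    · simp only [Sum.elim_inr, Prod.smul_fst, Prod.smul_snd, Pi.smul_apply,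
        mul_smul_comm, Submodule.coe_smul, RingHom.id_apply, smul_add, Finset.smul_sum]

theorem par_left (p : (α → L ⊗[k] A) × ext L I) (i : α) :
    par I v X p (.inl (.inl i)) = p.1 i := rfl

theorem par_mid (p : (α → L ⊗[k] A) × ext L I) (u : Unit) :
    par I v X p (.inl (.inr u)) =
      (p.2 : L ⊗[k] A) + ∑ i, gent v X (.inl (.inl i)) * p.1 i := rfl

theorem par_right (p : (α → L ⊗[k] A) × ext L I) (j : β) :
    par I v X p (.inr j) =
      gent v X (.inl (.inr j)) * p.2 + ∑ i, gent v X (.inr (j, i)) * p.1 i := rfl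

theorem par_injective : Function.Injective (par I v X) := by
  intro p q h
  have h1 : p.1 = q.1 := by
    funext i
    rw [← par_left (v := v) (X := X), ← par_left (v := v) (X := X), h]
  have h2 := congrFun h (.inl (.inr ()))
  rw [par_mid, par_mid, h1] at h2
  exact Prod.ext h1 (Subtype.ext (add_right_cancel h2))

theorem par_mul (hI : ∀ x ∈ I, ∀ y : K ⊗[k] A, x * y ∈ I) {w : (α ⊕ Unit) ⊕ β → L ⊗[k] A}
    (hw : w ∈ LinearMap.range (par I v X)) (y : L ⊗[k] A) :
    (fun i => w i * y) ∈ LinearMap.range (par I v X) := by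
  obtain ⟨p, rfl⟩ := hw
  refine ⟨(fun i => p.1 i * y, ⟨p.2 * y, ext_right hI p.2.2 y⟩), ?_⟩
  funext t
  rcases t with (i | _) | j
  · rfl
  · rw [par_mid, par_mid, add_mul, Finset.sum_mul]
    simp only [mul_assoc]
  · rw [par_right, par_right, add_mul, Finset.sum_mul]
    simp only [mul_assoc]

theorem par_finrank [FiniteDimensional k A] :
    Module.finrank L (LinearMap.range (par I v X)) =
      Fintype.card α * Module.finrank k A + Module.finrank K I := by
  rw [LinearMap.finrank_range_of_inj par_injective, Module.finrank_prod,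
    Module.finrank_pi_fintype, ext_finrank]
  simp

/-- linear maps over a field which contains `K` commute with multiplication by elements of `A_K` -/
theorem lam_bc_mul {F : IntermediateField k L} (hF : ∀ c : K, algebraMap K L c ∈ F)
    (l : L →ₗ[F] L) (x : K ⊗[k] A) (y : L ⊗[k] A) :
    lam (l.restrictScalars k) (bc k A K L x * y) = bc k A K L x * lam (l.restrictScalars k) y := by
  induction y using TensorProduct.induction_on with
  | zero => simp
  | tmul c a =>
    have h1 : (c ⊗ₜ[k] a : L ⊗[k] A) = c • bc k A K L (1 ⊗ₜ a) := by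
      simp [TensorProduct.smul_tmul']
    rw [h1, mul_smul_comm, ← map_mul, lam_smul_bc hF, lam_smul_bc hF, map_mul, mul_smul_comm]
  | add y z hy hz => rw [mul_add, map_add, hy, hz, map_add, mul_add]

theorem lam_mul_bc {F : IntermediateField k L} (hF : ∀ c : K, algebraMap K L c ∈ F)
    (l : L →ₗ[F] L) (x : K ⊗[k] A) (y : L ⊗[k] A) :
    lam (l.restrictScalars k) (y * bc k A K L x) = lam (l.restrictScalars k) y * bc k A K L x := by
  induction y using TensorProduct.induction_on with
  | zero => simp
  | tmul c a =>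
    have h1 : (c ⊗ₜ[k] a : L ⊗[k] A) = c • bc k A K L (1 ⊗ₜ a) := by
      simp [TensorProduct.smul_tmul']
    rw [h1, smul_mul_assoc, ← map_mul, lam_smul_bc hF, lam_smul_bc hF, map_mul, smul_mul_assoc]
  | add y z hy hz => rw [add_mul, map_add, hy, hz, map_add, add_mul]

/-- The coordinates of an element which is `F`-rational belong to `F`. -/
theorem coord_mem {N : ℕ} {v : Fin N → K ⊗[k] A} (hv : LinearIndependent K v) {Y : Fin N → L}
    {F : IntermediateField k L} (hF : ∀ c : K, algebraMap K L c ∈ F)
    (h : ∀ l : L →ₗ[F] L, lam (l.restrictScalars k) (∑ c, Y c • bc k A K L (v c)) =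
      l 1 • ∑ c, Y c • bc k A K L (v c)) (c : Fin N) : Y c ∈ F := by
  apply mem_of_forall
  intro l
  have h1 := h l
  rw [map_sum, Finset.smul_sum] at h1
  simp only [lam_smul_bc hF] at h1
  have h2 : ∀ u : Unit, ∑ z, (l (Y z) - l 1 * Y z) • bc k A K L (v z) = 0 := by
    intro _
    simp only [sub_smul, Finset.sum_sub_distrib, mul_smul]
    rw [h1, sub_self]
  have h3 := indep (T := Unit) (L := L) (fun z _ => v z)
    (fun μ hμ => Fintype.linearIndependent_iff.1 hv μ (hμ ())) _ h2 c
  exact sub_eq_zero.1 h3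

/-- The generic point is not defined over a proper subfield. -/
theorem par_min [FiniteDimensional k A] {e : K ⊗[k] A} (heI : e ∈ I)
    (he : ∀ x, x ∈ I ↔ e * x = x)
    (hmin : ∀ F : IntermediateField k K, DefinedOver F I → F = ⊤)
    (hgen : ∀ F : IntermediateField k L, (∀ c : K, algebraMap K L c ∈ F) → (∀ z, X z ∈ F) → F = ⊤)
    (hv : ∀ t, LinearIndependent K (v t))
    (hv1 : ∀ i c, e * v (.inl (.inl i)) c = 0)
    (hv2 : ∀ j c, v (.inl (.inr j)) c * e = v (.inl (.inr j)) c)
    (F : IntermediateField k L)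
    (hF : ∀ (l : L →ₗ[F] L) (w : (α ⊕ Unit) ⊕ β → L ⊗[k] A), w ∈ LinearMap.range (par I v X) →
      (fun i => lam (l.restrictScalars k) (w i)) ∈ LinearMap.range (par I v X)) : F = ⊤ := by
  have hee : e * e = e := (he e).1 heI
  have hbe : bc k A K L e * bc k A K L e = bc k A K L e := by rw [← map_mul, hee]
  -- elements of the extension
  have hext : ∀ y ∈ ext L I, bc k A K L e * y = y := by
    intro y hy
    induction hy using Submodule.span_induction with
    | mem y hy =>
      obtain ⟨y, hy, rfl⟩ := hy
      rw [← map_mul, (he y).1 hy]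
    | zero => rw [mul_zero]
    | add x y _ _ hx hy => rw [mul_add, hx, hy]
    | smul c x _ hx => rw [mul_smul_comm, hx]
  -- elements with vanishing first components
  have key : ∀ (l : L →ₗ[F] L) (y : ext L I), ∃ y' : ext L I,
      lam (l.restrictScalars k) (y : L ⊗[k] A) = y' ∧ ∀ j,
        lam (l.restrictScalars k) (gent v X (.inl (.inr j)) * (y : L ⊗[k] A)) =
          gent v X (.inl (.inr j)) * (y' : L ⊗[k] A) := by
    intro l y
    obtain ⟨p, hp⟩ := hF l (par I v X (0, y)) ⟨_, rfl⟩
    have h1 : p.1 = 0 := by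
      funext i
      have h2 := congrFun hp (.inl (.inl i))
      rw [par_left] at h2
      rw [h2, par_left]
      simp
    refine ⟨p.2, ?_, fun j => ?_⟩
    · have h2 := congrFun hp (.inl (.inr ()))
      simp only [par_mid, h1, Pi.zero_apply, mul_zero, Finset.sum_const_zero, add_zero] at h2
      exact h2.symm
    · have h2 := congrFun hp (.inr j)
      simp only [par_right, h1, Pi.zero_apply, mul_zero, Finset.sum_const_zero, add_zero] at h2
      exact h2.symm
  have hst : Stable F (ext L I) := by
    intro l y hy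
    obtain ⟨y', h1, _⟩ := key l ⟨y, hy⟩
    simp only at h1
    rw [h1]
    exact y'.2
  have hKF : ∀ c : K, algebraMap K L c ∈ F := le_of_ext_stable hmin F hst
  have hlame : ∀ l : L →ₗ[F] L, ∀ x : K ⊗[k] A, lam (l.restrictScalars k) (bc k A K L x) =
      l 1 • bc k A K L x := by
    intro l x
    have := lam_smul_bc hKF l 1 x
    rwa [one_smul] at this
  apply hgen F hKF
  rintro ⟨(i | j) | ⟨j, i⟩, c⟩
  · -- the entries of the first kind
    have hne : bc k A K L e * gent v X (.inl (.inl i)) = 0 := by
      rw [gent, Finset.mul_sum]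
      refine Finset.sum_eq_zero fun c _ => ?_
      rw [mul_smul_comm, ← map_mul, hv1, map_zero, smul_zero]
    refine coord_mem (Y := fun c => X ⟨_, c⟩) (hv (.inl (.inl i))) hKF (fun l => ?_) c
    obtain ⟨p, hp⟩ := hF l (par I v X (Pi.single i 1, 0)) ⟨_, rfl⟩
    have h1 : p.1 = l 1 • Pi.single i 1 := by
      funext i'
      have h2 := congrFun hp (.inl (.inl i'))
      rw [par_left] at h2
      rw [h2, par_left, Pi.smul_apply]
      by_cases hi : i' = i
      · subst hi
        simp only [Pi.single_eq_same]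
        have := hlame l 1
        rwa [map_one] at this
      · simp [Pi.single_eq_of_ne hi]
    have hsum : ∀ f : α → L ⊗[k] A, ∑ i', f i' * (Pi.single i 1 : α → L ⊗[k] A) i' = f i := by
      intro f
      rw [Finset.sum_eq_single i]
      · rw [Pi.single_eq_same, mul_one]
      · intro i' _ hi; rw [Pi.single_eq_of_ne hi, mul_zero]
      · intro h; exact absurd (Finset.mem_univ _) h
    have h2 := congrFun hp (.inl (.inr ()))
    simp only [par_mid, h1, Pi.smul_apply, mul_smul_comm, ← Finset.smul_sum, hsum,
      Submodule.coe_zero, zero_add] at h2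
    have h3 : bc k A K L e * lam (l.restrictScalars k) (gent v X (.inl (.inl i))) = 0 := by
      rw [← lam_bc_mul hKF, hne, map_zero]
    have h4 : (p.2 : L ⊗[k] A) = 0 := by
      have h5 := congrArg (fun x => bc k A K L e * x) h2
      simp only [mul_add, mul_smul_comm, hne, smul_zero, add_zero, h3] at h5
      rwa [hext _ p.2.2] at h5
    rw [h4, zero_add] at h2
    exact h2.symm
  · -- the entries of the second kind
    have hne : gent v X (.inl (.inr j)) * bc k A K L e = gent v X (.inl (.inr j)) := by
      rw [gent, Finset.sum_mul]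
      refine Finset.sum_congr rfl fun c _ => ?_
      rw [smul_mul_assoc, ← map_mul, hv2]
    refine coord_mem (Y := fun c => X ⟨_, c⟩) (hv (.inl (.inr j))) hKF (fun l => ?_) c
    obtain ⟨y', h1, h2⟩ := key l ⟨_, bc_mem_ext (L := L) heI⟩
    have h3 := h2 j
    simp only at h1 h3
    rw [← h1, hlame, mul_smul_comm, hne] at h3
    exact h3
  · -- the entries of the third kind
    refine coord_mem (Y := fun c => X ⟨_, c⟩) (hv (.inr (j, i))) hKF (fun l => ?_) c
    have hne : bc k A K L e * gent v X (.inl (.inl i)) = 0 := by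
      rw [gent, Finset.mul_sum]
      refine Finset.sum_eq_zero fun c _ => ?_
      rw [mul_smul_comm, ← map_mul, hv1, map_zero, smul_zero]
    obtain ⟨p, hp⟩ := hF l (par I v X (Pi.single i 1, 0)) ⟨_, rfl⟩
    have h1 : p.1 = l 1 • Pi.single i 1 := by
      funext i'
      have h2 := congrFun hp (.inl (.inl i'))
      rw [par_left] at h2
      rw [h2, par_left, Pi.smul_apply]
      by_cases hi : i' = i
      · subst hi
        simp only [Pi.single_eq_same]
        have := hlame l 1
        rwa [map_one] at this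
      · simp [Pi.single_eq_of_ne hi]
    have hsum : ∀ f : α → L ⊗[k] A, ∑ i', f i' * (Pi.single i 1 : α → L ⊗[k] A) i' = f i := by
      intro f
      rw [Finset.sum_eq_single i]
      · rw [Pi.single_eq_same, mul_one]
      · intro i' _ hi; rw [Pi.single_eq_of_ne hi, mul_zero]
      · intro h; exact absurd (Finset.mem_univ _) h
    have h2 := congrFun hp (.inl (.inr ()))
    simp only [par_mid, h1, Pi.smul_apply, mul_smul_comm, ← Finset.smul_sum, hsum,
      Submodule.coe_zero, zero_add] at h2
    have h3 : bc k A K L e * lam (l.restrictScalars k) (gent v X (.inl (.inl i))) = 0 := by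
      rw [← lam_bc_mul hKF, hne, map_zero]
    have h4 : (p.2 : L ⊗[k] A) = 0 := by
      have h5 := congrArg (fun x => bc k A K L e * x) h2
      simp only [mul_add, mul_smul_comm, hne, smul_zero, add_zero, h3] at h5
      rwa [hext _ p.2.2] at h5
    have h6 := congrFun hp (.inr j)
    simp only [par_right, h1, Pi.smul_apply, mul_smul_comm, ← Finset.smul_sum, hsum, h4,
      Submodule.coe_zero, mul_zero, zero_add] at h6
    exact h6.symm

end

end Pool.Agent.H49.GSB
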