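import Pool.Agent.H49.GSB.Base
import Pool.Agent.H49.GSB.Simple

/-!
# The opposite algebra
-/

open TensorProduct MulOpposite

namespace Pool.Agent.H49.GSB

universe u

section ann

variable {K R : Type*} [Field K] [Ring R] [Algebra K R]

/-- A simple algebra has a non-degenerate linear functional. -/
theorem exists_functional [FiniteDimensional K R] [IsSimpleRing R] :
    ∃ t : R →ₗ[K] K, (∀ x, (∀ y, t (x * y) = 0) → x = 0) ∧ ∀ x, (∀ y, t (y * x) = 0) → x = 0 := by
  have : IsArtinianRing R := IsArtinianRing.of_finite K R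
  obtain ⟨n, _, D, _, _, _, ⟨e⟩⟩ := IsSimpleRing.exists_algEquiv_matrix_divisionRing_finite K R
  obtain ⟨f, hf⟩ : ∃ f : D →ₗ[K] K, f 1 ≠ 0 := by
    by_contra! h1
    exact one_ne_zero ((Module.forall_dual_apply_eq_zero_iff K (1 : D)).1 h1)
  let t : R →ₗ[K] K := f ∘ₗ (Matrix.traceLinearMap (Fin n) K D) ∘ₗ e.toLinearMap
  have ht : ∀ x, t x = f (Matrix.trace (e x)) := fun x => rfl
  refine ⟨t, ?_, ?_⟩
  · intro x hx
    have h1 : e x = 0 := by
      ext i j
      by_contra hij
      have h2 := hx (e.symm (Matrix.single j i (e x i j)⁻¹))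
      rw [ht, map_mul, AlgEquiv.apply_symm_apply, Matrix.trace_mul_single] at h2
      rw [Matrix.zero_apply] at hij
      apply hf
      rw [← h2]
      congr 1
      simp [mul_inv_cancel₀ hij]
    exact (map_eq_zero_iff e e.injective).1 h1
  · intro x hx
    have h1 : e x = 0 := by
      ext i j
      by_contra hij
      have h2 := hx (e.symm (Matrix.single j i (e x i j)⁻¹))
      rw [ht, map_mul, AlgEquiv.apply_symm_apply, Matrix.trace_single_mul] at h2
      rw [Matrix.zero_apply] at hij
      apply hf
      rw [← h2]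
      congr 1
      simp [inv_mul_cancel₀ hij]
    exact (map_eq_zero_iff e e.injective).1 h1

/-- The left annihilator. -/
def annL (I : Submodule K R) : Submodule K R where
  carrier := {z | ∀ x ∈ I, z * x = 0}
  add_mem' := fun {a b} ha hb x hx => by rw [add_mul, ha x hx, hb x hx, add_zero]
  zero_mem' := fun x _ => zero_mul x
  smul_mem' := fun c a ha x hx => by rw [smul_mul_assoc, ha x hx, smul_zero]

/-- The right annihilator. -/
def annR (I : Submodule K R) : Submodule K R where
  carrier := {z | ∀ x ∈ I, x * z = 0}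
  add_mem' := fun {a b} ha hb x hx => by rw [mul_add, ha x hx, hb x hx, add_zero]
  zero_mem' := fun x _ => mul_zero x
  smul_mem' := fun c a ha x hx => by rw [mul_smul_comm, ha x hx, smul_zero]

theorem mem_annL {I : Submodule K R} {z : R} : z ∈ annL I ↔ ∀ x ∈ I, z * x = 0 := Iff.rfl

theorem mem_annR {I : Submodule K R} {z : R} : z ∈ annR I ↔ ∀ x ∈ I, x * z = 0 := Iff.rfl

variable [FiniteDimensional K R] [IsSimpleRing R]

theorem annL_finrank {I : Submodule K R} (hI : ∀ x ∈ I, ∀ y, x * y ∈ I) :
    Module.finrank K (annL I) + Module.finrank K I = Module.finrank K R := by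
  obtain ⟨t, ht1, ht2⟩ := exists_functional (K := K) (R := R)
  let φ : R →ₗ[K] Module.Dual K R := (LinearMap.mul K R).compr₂ t
  have hφ : ∀ z x, φ z x = t (z * x) := fun z x => rfl
  have hinj : Function.Injective φ := by
    rw [← LinearMap.ker_eq_bot, LinearMap.ker_eq_bot']
    intro z hz
    exact ht1 z fun y => by rw [← hφ, hz]; rfl
  have hsurj : Function.Surjective φ :=
    (LinearMap.injective_iff_surjective_of_finrank_eq_finrank
      (Subspace.dual_finrank_eq (K := K) (V := R)).symm).1 hinj
  let e := LinearEquiv.ofBijective φ ⟨hinj, hsurj⟩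
  have h1 : annL I = (I.dualAnnihilator).comap e.toLinearMap := by
    ext z
    rw [mem_annL, Submodule.mem_comap, Submodule.mem_dualAnnihilator]
    constructor
    · intro h x hx
      change t (z * x) = 0
      rw [h x hx, map_zero]
    · intro h x hx
      apply ht1
      intro y
      rw [mul_assoc]
      exact h _ (hI x hx y)
  rw [h1, Submodule.comap_equiv_eq_map_symm, LinearEquiv.finrank_map_eq, add_comm]
  exact Subspace.finrank_add_finrank_dualAnnihilator_eq I

theorem annR_finrank {I : Submodule K R} (hI : ∀ x ∈ I, ∀ y, y * x ∈ I) :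
    Module.finrank K (annR I) + Module.finrank K I = Module.finrank K R := by
  obtain ⟨t, ht1, ht2⟩ := exists_functional (K := K) (R := R)
  let φ : R →ₗ[K] Module.Dual K R := (LinearMap.mul K R).flip.compr₂ t
  have hφ : ∀ z x, φ z x = t (x * z) := fun z x => rfl
  have hinj : Function.Injective φ := by
    rw [← LinearMap.ker_eq_bot, LinearMap.ker_eq_bot']
    intro z hz
    exact ht2 z fun y => by rw [← hφ, hz]; rfl
  have hsurj : Function.Surjective φ :=
    (LinearMap.injective_iff_surjective_of_finrank_eq_finrank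
      (Subspace.dual_finrank_eq (K := K) (V := R)).symm).1 hinj
  let e := LinearEquiv.ofBijective φ ⟨hinj, hsurj⟩
  have h1 : annR I = (I.dualAnnihilator).comap e.toLinearMap := by
    ext z
    rw [mem_annR, Submodule.mem_comap, Submodule.mem_dualAnnihilator]
    constructor
    · intro h x hx
      change t (x * z) = 0
      rw [h x hx, map_zero]
    · intro h x hx
      apply ht2
      intro y
      rw [← mul_assoc]
      exact h _ (hI x hx y)
  rw [h1, Submodule.comap_equiv_eq_map_symm, LinearEquiv.finrank_map_eq, add_comm]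
  exact Subspace.finrank_add_finrank_dualAnnihilator_eq I

theorem annR_annL {I : Submodule K R} (hI : ∀ x ∈ I, ∀ y, x * y ∈ I) : annR (annL I) = I := by
  symm
  apply Submodule.eq_of_le_of_finrank_eq
  · intro x hx z hz
    exact hz x hx
  · have h1 := annL_finrank hI
    have h2 := annR_finrank (I := annL I) (fun x hx y z hz => by rw [mul_assoc, hx z hz, mul_zero])
    omega

end ann

section dual

variable {k : Type u} [Field k] {A : Type u} [Ring A] [Algebra k A]
  {K : Type u} [Field K] [Algebra k K]

/-- The identification of `K ⊗ Aᵒᵖ` with `K ⊗ A`. -/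
noncomputable def unopE (k A K : Type u) [Field k] [Ring A] [Algebra k A] [Field K] [Algebra k K] :
    K ⊗[k] Aᵐᵒᵖ ≃ₗ[K] K ⊗[k] A :=
  TensorProduct.AlgebraTensorModule.congr (LinearEquiv.refl K K) (opLinearEquiv k).symm

@[simp] theorem unopE_tmul (c : K) (a : Aᵐᵒᵖ) : unopE k A K (c ⊗ₜ a) = c ⊗ₜ a.unop := by
  simp [unopE]

theorem unopE_mul (x y : K ⊗[k] Aᵐᵒᵖ) :
    unopE k A K (x * y) = unopE k A K y * unopE k A K x := by
  induction x using TensorProduct.induction_on with
  | zero => simp
  | add x x' hx hx' => rw [add_mul, map_add, hx, hx', map_add, mul_add]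
  | tmul c a =>
    induction y using TensorProduct.induction_on with
    | zero => simp
    | add y y' hy hy' => rw [mul_add, map_add, hy, hy', map_add, add_mul]
    | tmul d b => simp [mul_comm]

theorem unopE_lam (l : K →ₗ[k] K) (x : K ⊗[k] Aᵐᵒᵖ) :
    unopE k A K (lam l x) = lam l (unopE k A K x) := by
  induction x using TensorProduct.induction_on with
  | zero => simp
  | tmul c a => simp
  | add x y hx hy => simp only [map_add, hx, hy]

theorem annL_stable {F : IntermediateField k K} {I : Submodule K (K ⊗[k] A)}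
    (h : DefinedOver F I) : Stable F (annL I) := by
  intro l z hz
  have key : ∀ x ∈ Submodule.span K {x | x ∈ I ∧ IsRational F x},
      lam (l.restrictScalars k) z * x = 0 := by
    intro x hx
    induction hx using Submodule.span_induction with
    | mem x hx =>
      obtain ⟨hxI, y, rfl⟩ := hx
      have h2 := lam_mul_inc F l z y
      have h3 : z * inc F y = 0 := hz _ hxI
      rw [h3, map_zero] at h2
      exact h2.symm
    | zero => rw [mul_zero]
    | add x y _ _ hx hy => rw [mul_add, hx, hy, add_zero]
    | smul c x _ hx => rw [mul_smul_comm, hx, smul_zero]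
  exact fun x hx => key x (h hx)

theorem annR_stable {F : IntermediateField k K} {I : Submodule K (K ⊗[k] A)}
    (h : DefinedOver F I) : Stable F (annR I) := by
  intro l z hz
  have key : ∀ x ∈ Submodule.span K {x | x ∈ I ∧ IsRational F x},
      x * lam (l.restrictScalars k) z = 0 := by
    intro x hx
    induction hx using Submodule.span_induction with
    | mem x hx =>
      obtain ⟨hxI, y, rfl⟩ := hx
      have h2 := lam_inc_mul F l z y
      have h3 : inc F y * z = 0 := hz _ hxI
      rw [h3, map_zero] at h2
      exact h2.symm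
    | zero => rw [zero_mul]
    | add x y _ _ hx hy => rw [add_mul, hx, hy, add_zero]
    | smul c x _ hx => rw [smul_mul_assoc, hx, smul_zero]
  exact fun x hx => key x (h hx)

/-- A point of `SB_m(A)` is a point of `SB_{n - m}` of the opposite algebra. -/
theorem IsFunctionField.op [FiniteDimensional k A] [IsSimpleRing A] [Algebra.IsCentral k A]
    {m n : ℕ} (hmn : m ≤ n) (hA : Module.finrank k A = n ^ 2) (h : IsFunctionField k A m n K) :
    IsFunctionField k Aᵐᵒᵖ (n - m) n K := by
  obtain ⟨⟨I, ⟨hI, hIdim⟩, hmin⟩, htr⟩ := h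
  have : IsSimpleRing (K ⊗[k] A) := isSimple_tensor
  refine ⟨⟨(annL I).comap (unopE k A K).toLinearMap, ⟨?_, ?_⟩, ?_⟩, ?_⟩
  · intro x hx y
    rw [Submodule.mem_comap] at hx ⊢
    change unopE k A K (x * y) ∈ annL I
    rw [unopE_mul]
    intro z hz
    rw [mul_assoc]
    change unopE k A K x ∈ annL I at hx
    rw [hx z hz, mul_zero]
  · rw [Submodule.comap_equiv_eq_map_symm, LinearEquiv.finrank_map_eq]
    have h1 := annL_finrank hI
    rw [Module.finrank_baseChange, hA, hIdim] at h1
    have h2 : (n - m) * n + m * n = n ^ 2 := by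
      rw [← add_mul, Nat.sub_add_cancel hmn, sq]
    omega
  · intro F hF
    apply hmin
    have h1 : Stable F (annL I) := by
      intro l z hz
      have h2 : (unopE k A K).symm z ∈ (annL I).comap (unopE k A K).toLinearMap := by
        rw [Submodule.mem_comap]
        change unopE k A K ((unopE k A K).symm z) ∈ _
        rwa [LinearEquiv.apply_symm_apply]
      have h3 := hF.stable l _ h2
      rw [Submodule.mem_comap] at h3
      change unopE k A K (lam _ ((unopE k A K).symm z)) ∈ _ at h3
      rwa [unopE_lam, LinearEquiv.apply_symm_apply] at h3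
    have h2 := (annR_stable h1.definedOver).definedOver
    rwa [annR_annL hI] at h2
  · rw [htr, Nat.sub_sub_self hmn, mul_comm]

/-- Isomorphic algebras have the same function fields. -/
theorem IsFunctionField.congr {B : Type u} [Ring B] [Algebra k B] (e : A ≃ₐ[k] B) {m n : ℕ}
    (h : IsFunctionField k A m n K) : IsFunctionField k B m n K := by
  obtain ⟨⟨I, ⟨hI, hIdim⟩, hmin⟩, htr⟩ := h
  let f : K ⊗[k] A ≃ₐ[K] K ⊗[k] B := Algebra.TensorProduct.congr AlgEquiv.refl e
  have hf : ∀ c a, f (c ⊗ₜ a) = c ⊗ₜ e a := fun c a => by simp [f]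
  have hflam : ∀ (l : K →ₗ[k] K) x, f (lam l x) = lam l (f x) := by
    intro l x
    induction x using TensorProduct.induction_on with
    | zero => simp
    | tmul c a => simp [hf]
    | add x y hx hy => simp only [map_add, hx, hy]
  refine ⟨⟨I.map f.toLinearMap, ⟨?_, ?_⟩, ?_⟩, htr⟩
  · rintro _ ⟨x, hx, rfl⟩ y
    refine ⟨x * f.symm y, hI x hx _, ?_⟩
    change f (x * f.symm y) = f x * y
    rw [map_mul, AlgEquiv.apply_symm_apply]
  · have := LinearEquiv.finrank_map_eq f.toLinearEquiv I
    rw [← hIdim, ← this]
  · intro F hF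
    apply hmin
    apply Stable.definedOver
    intro l x hx
    obtain ⟨y, hy, hyx⟩ := hF.stable l (f x) ⟨x, hx, rfl⟩
    have h1 : f y = f (lam (l.restrictScalars k) x) := by
      rw [hflam]; exact hyx
    rw [← f.injective h1]
    exact hy

end dual

end Pool.Agent.H49.GSB
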