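import Pool.Agent.H49.GSB.Step
import Pool.Agent.H49.GSB.Dual

/-!
# Reduction to divisors of the degree
-/

open TensorProduct

namespace Pool.Agent.H49.GSB

universe u

/-- The numbers of blocks. -/
theorem exists_numbers {r m : ℕ} (hm : 1 ≤ m) (hmr : m < r) (h : Nat.Coprime m r) :
    (∃ q s p, 1 ≤ q ∧ q + s = m ∧ (p + 1) * r = 1 + q * (r - m)) ∨
      (∃ q s p, 1 ≤ q ∧ q + s = r - m ∧ (p + 1) * r = 1 + q * m) := by
  obtain ⟨q, hqr, hq⟩ := Nat.exists_mul_mod_eq_one_of_coprime h (by omega : 1 < r)
  obtain ⟨t, ht⟩ : ∃ t, m * q = t * r + 1 := by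
    refine ⟨m * q / r, ?_⟩
    conv_lhs => rw [← Nat.div_add_mod (m * q) r, hq]
    ring
  have hq1 : 1 ≤ q := by
    rcases Nat.eq_zero_or_pos q with h0 | h0
    · rw [h0, mul_zero] at ht; omega
    · exact h0
  have htq : t < q := by
    by_contra h1
    push Not at h1
    have h2 : q * r ≤ t * r := Nat.mul_le_mul_right r h1
    have h3 : m * q < r * q := Nat.mul_lt_mul_of_pos_right hmr hq1
    nlinarith
  rcases Nat.le_or_ge q m with h1 | h1
  · left
    refine ⟨q, m - q, q - t - 1, hq1, by omega, ?_⟩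
    obtain ⟨u, rfl⟩ : ∃ u, r = m + u := ⟨r - m, by omega⟩
    obtain ⟨v, rfl⟩ : ∃ v, q = t + 1 + v := ⟨q - t - 1, by omega⟩
    have h2 : m + u - m = u := by omega
    have h3 : t + 1 + v - t - 1 = v := by omega
    rw [h2, h3]
    nlinarith
  · right
    have htm : t < m := by
      by_contra h2
      push Not at h2
      have h3 : m * r ≤ t * r := Nat.mul_le_mul_right r h2
      have h4 : m * q < m * r := Nat.mul_lt_mul_of_pos_left hqr hm
      omega
    refine ⟨r - q, q - m, m - t - 1, by omega, by omega, ?_⟩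
    obtain ⟨u, rfl⟩ : ∃ u, r = q + u := ⟨r - q, by omega⟩
    obtain ⟨v, rfl⟩ : ∃ v, m = t + 1 + v := ⟨m - t - 1, by omega⟩
    have h2 : q + u - q = u := by omega
    have h3 : t + 1 + v - t - 1 = v := by omega
    rw [h2, h3]
    nlinarith

/-- `step` with parameters indexed by `Fin N`. -/
theorem step' {k : Type u} [Field k] [Infinite k] {A : Type u} [Ring A] [Algebra k A]
    [FiniteDimensional k A] [IsSimpleRing A] [Algebra.IsCentral k A]
    {K : Type u} [Field K] [Algebra k K] {L : Type u} [Field L] [Algebra k L] [Algebra K L]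
    [IsScalarTower k K L] {g q s u p m n N : ℕ} (hq : 1 ≤ q)
    (hcard : (p + 1) * (q + s + u) = 1 + q * u) (hm : m = g * (q + s)) (hn : n = g * (q + s + u))
    (hA : Module.finrank k A = n ^ 2) (hK : IsFunctionField k A g n K)
    (hN : m * (n - m) = g * (n - g) + N)
    {X : Fin N → L} (hX : IsTranscendenceBasis K X)
    (hgen : ∀ F : IntermediateField k L, (∀ c : K, algebraMap K L c ∈ F) → (∀ z, X z ∈ F) →
      F = ⊤) :
    IsFunctionField k A m n L := by
  subst hm hn
  have hc : Fintype.card (Par (Fin q) (Fin s) (Fin u) (Fin p) (Fin (g ^ 2))) =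
      Fintype.card (Fin N) := by
    simp only [Par, Fintype.card_sum, Fintype.card_prod, Fintype.card_fin]
    have h3 : g * (q + s + u) - g = g * (q + s + u - 1) := by
      rw [Nat.mul_sub, mul_one]
    have h4 : g * (q + s + u) - g * (q + s) = g * u := by
      rw [← Nat.mul_sub]; congr 1; omega
    rw [h3, h4] at hN
    obtain ⟨r, hr⟩ : ∃ r, q + s + u = r + 1 := ⟨q + s + u - 1, by omega⟩
    have h5 : q + s + u - 1 = r := by omega
    rw [h5] at hN
    rw [hr] at hcard ⊢
    have h6 : p * (r + 1) + r = q * u := by nlinarith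
    have h7 : g * (g * r) + (p * ((r + 1) * g ^ 2) + s * (u * g ^ 2)) = g * (q + s) * (g * u) := by
      calc g * (g * r) + (p * ((r + 1) * g ^ 2) + s * (u * g ^ 2))
          = g ^ 2 * (p * (r + 1) + r) + s * (u * g ^ 2) := by ring
        _ = g * (q + s) * (g * u) := by rw [h6]; ring
    omega
  let e := Fintype.equivOfCardEq hc
  refine step (X := X ∘ e) hq hcard hA hK (hX.comp_equiv e) ?_
  intro F hF hXF
  refine hgen F hF fun z => ?_
  have := hXF (e.symm z)
  rwa [Function.comp, Equiv.apply_symm_apply] at this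

section

variable {k : Type u} [Field k] [Infinite k] {A : Type u} [Ring A] [Algebra k A]
    [FiniteDimensional k A] [IsSimpleRing A] [Algebra.IsCentral k A]
    {K : Type u} [Field K] [Algebra k K] {L : Type u} [Field L] [Algebra k L] [Algebra K L]
    [IsScalarTower k K L] {g m n N : ℕ}

/-- `SB_g(A)` and `SB_g(Aᵒᵖ)` have the same function fields if `g` divides the degree. -/
theorem self_dual (hg : g ∣ n) (hgn : g < n) (hA : Module.finrank k A = n ^ 2)
    (hK : IsFunctionField k A g n K) : IsFunctionField k Aᵐᵒᵖ g n K := by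
  obtain ⟨r, rfl⟩ := hg
  have hr : 2 ≤ r := by
    by_contra h
    have h1 : r ≤ 1 := by omega
    have h2 : g * r ≤ g * 1 := Nat.mul_le_mul_left g h1
    omega
  have h1 : IsFunctionField k A (g * (r - 1)) (g * r) K := by
    refine step' (L := K) (g := g) (q := r - 1) (s := 0) (u := 1) (p := 0) (N := 0)
      (X := fun i => i.elim0) (by omega) (by omega) rfl (by congr 1; omega) hA hK ?_ ?_ ?_
    · have h2 : g * r - g * (r - 1) = g := by
        rw [← Nat.mul_sub]
        have : r - (r - 1) = 1 := by omega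
        rw [this, mul_one]
      have h3 : g * r - g = g * (r - 1) := by rw [Nat.mul_sub, mul_one]
      rw [h2, h3, add_zero, mul_comm]
    · have h0 : AlgebraicIndependent K (fun i : Fin 0 => (i.elim0 : K)) :=
        algebraicIndependent_empty_type
      rw [h0.isTranscendenceBasis_iff_isAlgebraic]
      refine ⟨fun x => ?_⟩
      exact isAlgebraic_algebraMap
        (⟨x, Subalgebra.algebraMap_mem _ x⟩ : Algebra.adjoin K (Set.range fun i : Fin 0 =>
          (i.elim0 : K)))
    · intro F hF _
      rw [eq_top_iff]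
      intro c _
      exact hF c
  have h2 := h1.op (by
    exact Nat.mul_le_mul_left g (by omega)) hA
  have h3 : g * r - g * (r - 1) = g := by
    rw [← Nat.mul_sub]
    have : r - (r - 1) = 1 := by omega
    rw [this, mul_one]
  rwa [h3] at h2

theorem isCentral_op : Algebra.IsCentral k Aᵐᵒᵖ where
  out := by
    intro x hx
    rw [Subalgebra.mem_center_iff] at hx
    have h1 : x.unop ∈ Subalgebra.center k A := by
      rw [Subalgebra.mem_center_iff]
      intro y
      have := congrArg MulOpposite.unop (hx (MulOpposite.op y))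
      simpa using this.symm
    obtain ⟨c, hc⟩ := Algebra.mem_bot.1 (Algebra.IsCentral.out h1)
    refine Algebra.mem_bot.2 ⟨c, ?_⟩
    apply MulOpposite.unop_injective
    rw [← hc]
    rfl

theorem finrank_op : Module.finrank k Aᵐᵒᵖ = Module.finrank k A :=
  (MulOpposite.opLinearEquiv k).symm.finrank_eq

/-- The function field of `SB_m(A)` is purely transcendental over the one of `SB_g(A)` where
`g = gcd(m, n)`. -/
theorem reduce (hm : 1 ≤ m) (hmn : m < n) (hg : g = Nat.gcd m n)
    (hA : Module.finrank k A = n ^ 2) (hK : IsFunctionField k A g n K)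
    (hN : m * (n - m) = g * (n - g) + N)
    {X : Fin N → L} (hX : IsTranscendenceBasis K X)
    (hgen : ∀ F : IntermediateField k L, (∀ c : K, algebraMap K L c ∈ F) → (∀ z, X z ∈ F) →
      F = ⊤) :
    IsFunctionField k A m n L := by
  have hg0 : 0 < g := by rw [hg]; exact Nat.gcd_pos_of_pos_left n hm
  obtain ⟨m', hm'⟩ : g ∣ m := by rw [hg]; exact Nat.gcd_dvd_left m n
  obtain ⟨r, hr⟩ : g ∣ n := by rw [hg]; exact Nat.gcd_dvd_right m n
  have hcop : Nat.Coprime m' r := by
    have h1 : Nat.gcd m n = g * Nat.gcd m' r := by rw [hm', hr, Nat.gcd_mul_left]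
    rw [← hg] at h1
    have h2 : g * 1 = g * Nat.gcd m' r := by rw [mul_one]; exact h1
    exact (Nat.eq_of_mul_eq_mul_left hg0 h2).symm
  have hm1 : 1 ≤ m' := by
    rcases Nat.eq_zero_or_pos m' with h0 | h0
    · rw [h0, mul_zero] at hm'; omega
    · exact h0
  have hmr : m' < r := by
    rw [hm', hr] at hmn
    exact Nat.lt_of_mul_lt_mul_left hmn
  have hgn : g < n := by
    rw [hr]
    calc g = g * 1 := (mul_one g).symm
      _ < g * r := Nat.mul_lt_mul_of_pos_left (by omega) hg0
  rcases exists_numbers hm1 hmr hcop with ⟨q, s, p, hq, hqs, hp⟩ | ⟨q, s, p, hq, hqs, hp⟩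
  · exact step' (g := g) (q := q) (s := s) (u := r - m') (p := p) hq
      (by rw [← hp]; congr 1; omega) (by rw [hm', hqs]) (by rw [hr]; congr 1; omega) hA hK hN hX
      hgen
  · have hcen : Algebra.IsCentral k Aᵐᵒᵖ := isCentral_op
    have hK' := self_dual ⟨r, hr⟩ hgn hA hK
    have h1 : IsFunctionField k Aᵐᵒᵖ (n - m) n L := by
      refine step' (g := g) (q := q) (s := s) (u := m') (p := p) hq
        (by rw [← hp]; congr 1; omega) ?_ (by rw [hr]; congr 1; omega)
        (by rw [finrank_op, hA]) hK' ?_ hX hgen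
      · rw [hqs, hm', hr, Nat.mul_sub]
      · rw [← hN, Nat.sub_sub_self hmn.le, mul_comm]
    have h2 := h1.op (by omega) (by rw [finrank_op, hA])
    rw [Nat.sub_sub_self hmn.le] at h2
    exact h2.congr (AlgEquiv.opOp k A).symm

end

end Pool.Agent.H49.GSB
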