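import Pool.Agent.H49.GSB.Cell
import Pool.Agent.H49.GSB.Reduce

/-!
# From `SB_c(D)` to `SB_m(M_r(D))`
-/

open TensorProduct

namespace Pool.Agent.H49.GSB

universe u

section

variable {α β : Type} [Fintype α] [DecidableEq α] [Fintype β] [DecidableEq β]
  {k : Type u} [Field k] {A : Type u} [Ring A] [Algebra k A]
  {K : Type u} [Field K] [Algebra k K]

set_option linter.unusedSectionVars false

/-- The spaces of the parameters. -/
noncomputable def spc (α β : Type) (e : K ⊗[k] A) : Pos α β → Submodule K (K ⊗[k] A)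
  | .inl (.inl _) => LinearMap.ker (LinearMap.mulLeft K e)
  | .inl (.inr _) => LinearMap.range (LinearMap.mulRight K e)
  | .inr _ => ⊤

variable [FiniteDimensional k A] [IsSimpleRing (K ⊗[k] A)] {I : Submodule K (K ⊗[k] A)}
  {e : K ⊗[k] A}

theorem finrank_ker_mulLeft (heI : e ∈ I) (he : ∀ x, x ∈ I ↔ e * x = x)
    (hI : ∀ x ∈ I, ∀ y, x * y ∈ I) :
    Module.finrank K (LinearMap.ker (LinearMap.mulLeft K e)) + Module.finrank K I =
      Module.finrank K (K ⊗[k] A) := by
  have h1 : LinearMap.range (LinearMap.mulLeft K e) = I := by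
    ext x
    constructor
    · rintro ⟨y, rfl⟩; exact hI e heI y
    · intro hx; exact ⟨x, (he x).1 hx⟩
  have h2 := LinearMap.finrank_range_add_finrank_ker (LinearMap.mulLeft K e)
  rw [h1] at h2
  omega

theorem finrank_range_mulRight (heI : e ∈ I) (he : ∀ x, x ∈ I ↔ e * x = x)
    (hI : ∀ x ∈ I, ∀ y, x * y ∈ I) :
    Module.finrank K (LinearMap.range (LinearMap.mulRight K e)) = Module.finrank K I := by
  have h1 : LinearMap.ker (LinearMap.mulRight K e) = annL I := by
    ext z
    rw [LinearMap.mem_ker, LinearMap.mulRight_apply, mem_annL]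
    constructor
    · intro h x hx
      rw [← (he x).1 hx, ← mul_assoc, h, zero_mul]
    · intro h; exact h e heI
  have h2 := LinearMap.finrank_range_add_finrank_ker (LinearMap.mulRight K e)
  have h3 := annL_finrank hI
  rw [h1] at h2
  omega

end

theorem trdeg_of_basis {k : Type u} [Field k] {K : Type u} [Field K] [Algebra k K] {L : Type u}
    [Field L] [Algebra k L] [Algebra K L] [IsScalarTower k K L] {M N : ℕ}
    (htr : Algebra.trdeg k K = (M : ℕ)) {X : Fin N → L} (hX : IsTranscendenceBasis K X) :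
    Algebra.trdeg k L = (M + N : ℕ) := by
  have h1 : Algebra.trdeg K L = (N : ℕ) := by
    have h := hX.lift_cardinalMk_eq_trdeg
    rw [Cardinal.mk_fintype, Cardinal.lift_natCast, Cardinal.lift_uzero, Fintype.card_fin] at h
    exact h.symm
  have h2 := trdeg_add_eq k K (A := L)
  rw [← h2, htr, h1, Nat.cast_add]

theorem cell {α β : Type} [Fintype α] [DecidableEq α] [Fintype β] [DecidableEq β]
    {k : Type u} [Field k] {A : Type u} [Ring A] [Algebra k A]
    [FiniteDimensional k A] [IsSimpleRing A] [Algebra.IsCentral k A]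
    {K : Type u} [Field K] [Algebra k K] {L : Type u} [Field L] [Algebra k L] [Algebra K L]
    [IsScalarTower k K L] {c d m N : ℕ} (hcd : c ≤ d) (hA : Module.finrank k A = d ^ 2)
    (hm : m = Fintype.card α * d + c)
    (hK : IsFunctionField k A c d K)
    (hN : m * ((Fintype.card α + 1 + Fintype.card β) * d - m) = c * (d - c) + N)
    {X : Fin N → L} (hX : IsTranscendenceBasis K X)
    (hgen : ∀ F : IntermediateField k L, (∀ c : K, algebraMap K L c ∈ F) → (∀ z, X z ∈ F) →
      F = ⊤) :
    IsFunctionField k (Matrix ((α ⊕ Unit) ⊕ β) ((α ⊕ Unit) ⊕ β) A) m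
      ((Fintype.card α + 1 + Fintype.card β) * d) L := by
  obtain ⟨⟨I, ⟨hI, hIdim⟩, hmin⟩, htr⟩ := hK
  have : IsSimpleRing (K ⊗[k] A) := isSimple_tensor
  have hfin : Module.finrank K (K ⊗[k] A) = d ^ 2 := by rw [Module.finrank_baseChange, hA]
  obtain ⟨e, heI, he⟩ := exists_idem I hI
  have hee : e * e = e := (he e).1 heI
  let n : Pos α β → ℕ := fun t => Module.finrank K (spc α β e t)
  let b : (t : Pos α β) → Module.Basis (Fin (n t)) K (spc α β e t) := fun t => Module.finBasis K _
  let v : (t : Pos α β) → Fin (n t) → K ⊗[k] A := fun t z => (b t z : K ⊗[k] A)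
  have hn1 : ∀ i, n (.inl (.inl i)) + c * d = d ^ 2 := fun i => by
    have := finrank_ker_mulLeft heI he hI
    rw [hIdim, hfin] at this
    exact this
  have hn2 : ∀ j, n (.inl (.inr j)) = c * d := fun j => by
    have := finrank_range_mulRight heI he hI
    rw [hIdim] at this
    exact this
  have hn3 : ∀ z, n (.inr z) = d ^ 2 := fun z => by
    have : Module.finrank K (⊤ : Submodule K (K ⊗[k] A)) = d ^ 2 := by rw [finrank_top, hfin]
    exact this
  have hcard : Fintype.card (Σ t, Fin (n t)) = Fintype.card (Fin N) := by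
    rw [Fintype.card_sigma, Fintype.card_fin]
    simp only [Fintype.card_fin]
    rw [Fintype.sum_sum_type, Fintype.sum_sum_type]
    simp only [hn2, hn3, Finset.sum_const, Finset.card_univ, smul_eq_mul, Fintype.card_prod]
    obtain ⟨d', rfl⟩ : ∃ d', d = c + d' := ⟨d - c, by omega⟩
    have h1 : ∀ i, n (.inl (.inl i)) = d' * (c + d') := fun i => by
      have := hn1 i
      nlinarith
    simp only [h1, Finset.sum_const, Finset.card_univ, smul_eq_mul]
    have h2 : (Fintype.card α + 1 + Fintype.card β) * (c + d') - m =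
        Fintype.card β * (c + d') + d' := by
      rw [hm]
      have : (Fintype.card α + 1 + Fintype.card β) * (c + d') =
        Fintype.card β * (c + d') + d' + (Fintype.card α * (c + d') + c) := by ring
      rw [this, Nat.add_sub_cancel]
    have h3 : c + d' - c = d' := by omega
    rw [h2, h3, hm] at hN
    nlinarith
  let E := Fintype.equivOfCardEq hcard
  have hv1 : ∀ i z, e * v (.inl (.inl i)) z = 0 := fun i z => (b (.inl (.inl i)) z).2
  have hv2 : ∀ j z, v (.inl (.inr j)) z * e = v (.inl (.inr j)) z := fun j z => by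
    obtain ⟨y, hy⟩ := (b (.inl (.inr j)) z).2
    change (b (.inl (.inr j)) z : K ⊗[k] A) * e = b (.inl (.inr j)) z
    rw [← hy, LinearMap.mulRight_apply, mul_assoc, hee]
  have hv : ∀ t, LinearIndependent K (v t) := fun t =>
    (b t).linearIndependent.map' (spc α β e t).subtype (Submodule.ker_subtype _)
  have : Nonempty ((α ⊕ Unit) ⊕ β) := ⟨.inl (.inr ())⟩
  refine ⟨⟨colI (LinearMap.range (par I v (X ∘ E))), ⟨?_, ?_⟩, ?_⟩, ?_⟩
  · intro x hx y
    exact colI_right (fun w hw y => par_mul hI hw y) hx y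
  · rw [colI_finrank, par_finrank, hA, hIdim, hm]
    simp only [Fintype.card_sum, Fintype.card_unit]
    ring
  · intro F hF
    have hst := hF.stable
    refine par_min heI he hmin (X := X ∘ E) ?_ hv hv1 hv2 F fun l w hw => colI_stable hst l hw
    intro F hF hXF
    refine hgen F hF fun z => ?_
    have := hXF (E.symm z)
    rwa [Function.comp, Equiv.apply_symm_apply] at this
  · rw [trdeg_of_basis htr hX, hN]

/-- The function field of `SB_m(M_r(D))` is purely transcendental over the one of `SB_g(D)`, where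
`g = gcd(m, deg D)`. -/
theorem reduceMat {k : Type u} [Field k] [Infinite k] {A : Type u} [Ring A] [Algebra k A]
    [FiniteDimensional k A] [IsSimpleRing A] [Algebra.IsCentral k A]
    {K : Type u} [Field K] [Algebra k K] {L : Type u} [Field L] [Algebra k L] [Algebra K L]
    [IsScalarTower k K L] {K₁ : Type u} [Field K₁] [Algebra k K₁] [Algebra K K₁] [Algebra K₁ L]
    [IsScalarTower k K K₁] [IsScalarTower k K₁ L] {g c d m a b N₁ N : ℕ}
    (hc : 1 ≤ c) (hcd : c < d) (hA : Module.finrank k A = d ^ 2)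
    (hm : m = a * d + c) (hg : g = Nat.gcd c d)
    (hK : IsFunctionField k A g d K)
    (hN₁ : c * (d - c) = g * (d - g) + N₁)
    {Y : Fin N₁ → K₁} (hY : IsTranscendenceBasis K Y)
    (hgen₁ : ∀ F : IntermediateField k K₁, (∀ c : K, algebraMap K K₁ c ∈ F) → (∀ z, Y z ∈ F) →
      F = ⊤)
    (hN : m * ((a + 1 + b) * d - m) = c * (d - c) + N)
    {X : Fin N → L} (hX : IsTranscendenceBasis K₁ X)
    (hgen : ∀ F : IntermediateField k L, (∀ c : K₁, algebraMap K₁ L c ∈ F) → (∀ z, X z ∈ F) →
      F = ⊤) :
    IsFunctionField k (Matrix ((Fin a ⊕ Unit) ⊕ Fin b) ((Fin a ⊕ Unit) ⊕ Fin b) A) m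
      ((a + 1 + b) * d) L := by
  have h1 : IsFunctionField k A c d K₁ := reduce hc hcd hg hA hK hN₁ hY hgen₁
  have h2 := cell (α := Fin a) (β := Fin b) (m := m) hcd.le hA
    (by rw [Fintype.card_fin]; exact hm) h1
    (by rw [Fintype.card_fin, Fintype.card_fin]; exact hN) hX hgen
  rw [Fintype.card_fin, Fintype.card_fin] at h2
  exact h2

end Pool.Agent.H49.GSB
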