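import Pool.Agent.H49.GSB.Gen
import Pool.Agent.H49.GSB.Units
import Pool.Agent.H49.GSB.Simple

/-!
# The choice of the constants

`Q ⊕ S` indexes the blocks of the subspace `W`, `U` the blocks of the quotient, `Option P` the copies
of `V`.
-/

open TensorProduct

namespace Pool.Agent.H49.GSB

universe u

/-- Indices of the generators. -/
inductive Gens (Q S U P I R : Type*)
  | one (a : (Q ⊕ S) ⊕ U) (x : I) : Gens Q S U P I R
  | two (i : Option P) (y : R) : Gens Q S U P I R
  | four (j : Q) (a : Q ⊕ S) (x : I) : Gens Q S U P I R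

section vec

variable {Q S U P : Type*} [DecidableEq Q] {R : Type*} [Ring R]

/-- The constants which define the map from `V ^ (1 + P)` to `V ^ Q`. -/
def con {X : Type*} (ξ : ((Q ⊕ S) ⊕ U) ⊕ (Q × P) → X) : Option P → Q → X
  | none, j => ξ (Sum.inl (Sum.inl (Sum.inl j)))
  | some i, j => ξ (Sum.inr (j, i))

/-- The generators. -/
def vec {I : Type*} (v : I → R) (ξ : ((Q ⊕ S) ⊕ U) ⊕ (Q × P) → R) :
    Gens Q S U P I R → Option Q → R
  | .one a x => Pi.single none (ξ (Sum.inl a) * v x)
  | .two i y => fun j => j.elim 0 fun j => con ξ i j * y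
  | .four j a x => Pi.single (some j) (ξ (Sum.inl (Sum.inl a)) * v x)

theorem con_add (ξ ξ' : ((Q ⊕ S) ⊕ U) ⊕ (Q × P) → R) (i : Option P) (j : Q) :
    con (ξ + ξ') i j = con ξ i j + con ξ' i j := by
  cases i <;> rfl

theorem con_smul {K : Type*} [SMul K R] (c : K) (ξ : ((Q ⊕ S) ⊕ U) ⊕ (Q × P) → R) (i : Option P)
    (j : Q) : con (c • ξ) i j = c • con ξ i j := by
  cases i <;> rfl

/-- The generators depend linearly on the constants. -/
def vecL (K : Type*) [Field K] [Algebra K R] {I : Type*} (v : I → R) (d : Gens Q S U P I R) :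
    (((Q ⊕ S) ⊕ U) ⊕ (Q × P) → R) →ₗ[K] (Option Q → R) where
  toFun ξ := vec v ξ d
  map_add' ξ ξ' := by
    cases d with
    | one a x => simp only [vec, Pi.add_apply, add_mul, Pi.single_add]
    | two i y =>
      funext j
      cases j with
      | none => simp [vec]
      | some j => simp only [vec, Pi.add_apply, Option.elim_some, con_add, add_mul]
    | four j a x => simp only [vec, Pi.add_apply, add_mul, Pi.single_add]
  map_smul' c ξ := by
    cases d with
    | one a x => simp only [vec, Pi.smul_apply, smul_mul_assoc, Pi.single_smul, RingHom.id_apply]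
    | two i y =>
      funext j
      cases j with
      | none => simp [vec]
      | some j =>
        simp only [vec, Pi.smul_apply, Option.elim_some, con_smul, smul_mul_assoc, RingHom.id_apply]
    | four j a x =>
      simp only [vec, Pi.smul_apply, smul_mul_assoc, Pi.single_smul, RingHom.id_apply]

end vec

section special

variable {Q S U P : Type*} [Fintype Q] [Fintype S] [Fintype U] [Fintype P] [DecidableEq Q]
  [DecidableEq S] [DecidableEq U] [DecidableEq P] {K R : Type*} [Field K] [Ring R] [Algebra K R]

/-- The special constants. -/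
def special (E : (Q ⊕ S) ⊕ U → (Q ⊕ S) ⊕ U → R) (o : Q)
    (β : {c : Option P × ((Q ⊕ S) ⊕ U) // c ≠ (none, Sum.inl (Sum.inl o))} ≃ Q × U) :
    ((Q ⊕ S) ⊕ U) ⊕ (Q × P) → R
  | .inl (.inl (.inl j)) => E (.inl (.inl j)) (.inl (.inl o)) +
      ∑ c, if c.1.1 = none ∧ (β c).1 = j then E (.inr (β c).2) c.1.2 else 0
  | .inl (.inl (.inr l)) => E (.inl (.inr l)) (.inl (.inl o))
  | .inl (.inr b) => E (.inr b) (.inl (.inl o))
  | .inr (j, i) => ∑ c, if c.1.1 = some i ∧ (β c).1 = j then E (.inr (β c).2) c.1.2 else 0

theorem special_span {E : (Q ⊕ S) ⊕ U → (Q ⊕ S) ⊕ U → R} (hE : IsUnits E) (o : Q)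
    (β : {c : Option P × ((Q ⊕ S) ⊕ U) // c ≠ (none, Sum.inl (Sum.inl o))} ≃ Q × U)
    {I : Submodule K R} (hI : ∀ x, x ∈ I ↔ E (.inl (.inl o)) (.inl (.inl o)) * x = x) :
    Submodule.span K (Set.range fun d : Gens Q S U P I R =>
      vecL K (fun x : I => (x : R)) d (special E o β)) = ⊤ := by
  set V := Submodule.span K (Set.range fun d : Gens Q S U P I R =>
      vecL K (fun x : I => (x : R)) d (special E o β)) with hV
  have hmem : ∀ d : Gens Q S U P I R,
      vec (fun x : I => (x : R)) (special E o β) d ∈ V := fun d => Submodule.subset_span ⟨d, rfl⟩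
  -- the constants on the ideal
  have hIa : ∀ a (y : R), E (.inl (.inl o)) a * y ∈ I := by
    intro a y
    rw [hI, ← mul_assoc, hE.mul_same]
  have hsp : ∀ a (b : (Q ⊕ S) ⊕ U) (y : R),
      special E o β (Sum.inl a) * (E (.inl (.inl o)) b * y) = E a b * y := by
    intro a b y
    rw [← mul_assoc]
    congr 1
    rcases a with (j | l) | b'
    · simp only [special]
      rw [add_mul, hE.mul_same, Finset.sum_mul, Finset.sum_eq_zero, add_zero]
      intro c _
      split_ifs with h
      · apply hE.mul_ne
        intro h2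
        exact c.2 (Prod.ext h.1 h2)
      · rw [zero_mul]
    · exact hE.mul_same _ _ _
    · exact hE.mul_same _ _ _
  have hsum : ∀ y : R, y = ∑ a, E a a * y := by
    intro y
    rw [← Finset.sum_mul, hE.sum, one_mul]
  -- the first coordinate
  have h1 : ∀ y : R, (Pi.single none y : Option Q → R) ∈ V := by
    intro y
    have h : (Pi.single none y : Option Q → R) = ∑ a, Pi.single none (E a a * y) := by
      conv_lhs => rw [hsum y]
      funext j
      rw [Finset.sum_apply]
      by_cases hj : j = none
      · subst hj; simp only [Pi.single_eq_same]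
      · simp only [Pi.single_eq_of_ne hj, Finset.sum_const_zero]
    rw [h]
    refine Submodule.sum_mem _ fun a _ => ?_
    have h2 := hmem (.one a ⟨_, hIa a y⟩)
    simp only [vec] at h2
    rwa [hsp] at h2
  have h4 : ∀ (j : Q) (a : Q ⊕ S) (y : R),
      (Pi.single (some j) (E (.inl a) (.inl a) * y) : Option Q → R) ∈ V := by
    intro j a y
    have h2 := hmem (.four j a ⟨_, hIa (.inl a) y⟩)
    simp only [vec] at h2
    rwa [hsp] at h2
  have h3 : ∀ (j : Q) (b : U) (y : R),
      (Pi.single (some j) (E (.inr b) (.inr b) * y) : Option Q → R) ∈ V := by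
    intro j b y
    obtain ⟨c, hc⟩ := β.surjective (j, b)
    have h2 := hmem (.two c.1.1 (E c.1.2 (.inr b) * y))
    have h5 : vec (fun x : I => (x : R)) (special E o β) (.two c.1.1 (E c.1.2 (.inr b) * y)) =
        Pi.single (some j) (E (.inr b) (.inr b) * y) := by
      funext j'
      rcases j' with _ | j'
      · rw [Pi.single_eq_of_ne (by simp)]
        rfl
      · simp only [vec, Option.elim_some]
        have h6 : con (special E o β) c.1.1 j' * (E c.1.2 (.inr b) * y) =
            (∑ c' : {c : Option P × ((Q ⊕ S) ⊕ U) // c ≠ (none, Sum.inl (Sum.inl o))},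
              if c'.1.1 = c.1.1 ∧ (β c').1 = j' then E (.inr (β c').2) c'.1.2 else 0) *
              (E c.1.2 (.inr b) * y) := by
          obtain ⟨⟨i, a⟩, hne⟩ := c
          rcases i with _ | i
          · simp only [con, special]
            rw [add_mul, ← mul_assoc, hE.mul_ne, zero_mul, zero_add]
            intro h
            exact hne (Prod.ext rfl h.symm)
          · simp only [con, special]
        rw [h6, Finset.sum_mul, Finset.sum_eq_single c]
        · by_cases hj : j' = j
          · rw [if_pos ⟨rfl, by rw [hc, hj]⟩, hc, hj, Pi.single_eq_same, ← mul_assoc, hE.mul_same]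
          · rw [if_neg, zero_mul, Pi.single_eq_of_ne (fun h => hj (Option.some.inj h))]
            rintro ⟨_, h⟩
            rw [hc] at h
            exact hj h.symm
        · intro c' _ hcc
          split_ifs with h
          · rw [← mul_assoc, hE.mul_ne, zero_mul]
            intro h7
            exact hcc (Subtype.ext (Prod.ext h.1 h7))
          · rw [zero_mul]
        · intro h; exact absurd (Finset.mem_univ _) h
    rwa [h5] at h2
  -- all coordinates
  have h6 : ∀ (j : Option Q) (y : R), (Pi.single j y : Option Q → R) ∈ V := by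
    intro j y
    rcases j with _ | j
    · exact h1 y
    · have h : (Pi.single (some j) y : Option Q → R) = ∑ a, Pi.single (some j) (E a a * y) := by
        conv_lhs => rw [hsum y]
        funext j'
        rw [Finset.sum_apply]
        by_cases hj : j' = some j
        · subst hj; simp only [Pi.single_eq_same]
        · simp only [Pi.single_eq_of_ne hj, Finset.sum_const_zero]
      rw [h]
      refine Submodule.sum_mem _ fun a _ => ?_
      rcases a with a | b
      · exact h4 j a y
      · exact h3 j b y
  rw [eq_top_iff]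
  intro f _
  have h7 : f = ∑ j, Pi.single j (f j) := (Finset.univ_sum_single f).symm
  rw [h7]
  exact Submodule.sum_mem _ fun j _ => h6 j _

end special

/-- The constants exist over `k`. -/
theorem exists_constants {Q S U P : Type} [Fintype Q] [Fintype S] [Fintype U] [Fintype P]
    [DecidableEq Q] [DecidableEq S] [DecidableEq U] [DecidableEq P]
    {k : Type u} [Field k] [Infinite k] {A : Type u} [Ring A] [Algebra k A] [FiniteDimensional k A]
    [IsSimpleRing A] [Algebra.IsCentral k A] {K : Type u} [Field K] [Algebra k K]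
    (I : Submodule K (K ⊗[k] A)) (hI : ∀ x ∈ I, ∀ y : K ⊗[k] A, x * y ∈ I) (o : Q)
    (hcard : (Fintype.card P + 1) * (Fintype.card Q + Fintype.card S + Fintype.card U) =
      1 + Fintype.card Q * Fintype.card U)
    (hdim : (Fintype.card Q + Fintype.card S + Fintype.card U) * Module.finrank K I =
      Module.finrank K (K ⊗[k] A)) :
    ∃ (E : (Q ⊕ S) ⊕ U → (Q ⊕ S) ⊕ U → K ⊗[k] A) (ξ : ((Q ⊕ S) ⊕ U) ⊕ (Q × P) → A),
      IsUnits E ∧ (∀ x, x ∈ I ↔ E (.inl (.inl o)) (.inl (.inl o)) * x = x) ∧
      Submodule.span K (Set.range fun d : Gens Q S U P I (K ⊗[k] A) =>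
        vec (fun x : I => (x : K ⊗[k] A)) (fun z => 1 ⊗ₜ ξ z) d) = ⊤ := by
  have : IsSimpleRing (K ⊗[k] A) := isSimple_tensor
  obtain ⟨E, hE, hEI⟩ := exists_units I hI (Sum.inl (Sum.inl o) : (Q ⊕ S) ⊕ U) (by
    rw [Fintype.card_sum, Fintype.card_sum]; exact hdim)
  have hcard' : Fintype.card {c : Option P × ((Q ⊕ S) ⊕ U) // c ≠ (none, Sum.inl (Sum.inl o))} =
      Fintype.card (Q × U) := by
    rw [Fintype.card_subtype_compl, Fintype.card_subtype_eq, Fintype.card_prod, Fintype.card_prod,
      Fintype.card_option, Fintype.card_sum, Fintype.card_sum, hcard]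
    omega
  obtain ⟨ξ, hξ⟩ := exists_rational
    (fun d : Gens Q S U P I (K ⊗[k] A) => vecL K (fun x : I => (x : K ⊗[k] A)) d)
    (special E o (Fintype.equivOfCardEq hcard')) (special_span hE o _ hEI)
  exact ⟨E, ξ, hE, hEI, hξ⟩

end Pool.Agent.H49.GSB
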