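import Mathlib

/-!
# Function fields of generalized Brauer-Severi varieties

For a central simple algebra `A` of degree `n` over a field `k` the generalized Brauer-Severi
variety `SB_m(A)` represents the functor of right ideals of dimension `m * n`. It is a geometrically
integral projective variety of dimension `m * (n - m)`, so that a `K`-point is the generic point and
`K` is its residue field if and only if the point is not defined over a proper subextension of
`K / k` and `K` has transcendence degree `m * (n - m)` over `k`.
-/

open TensorProduct

namespace Pool.Agent.H49.GSB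

universe u

section Defs

variable {k : Type u} [Field k] {A : Type u} [Ring A] [Algebra k A]
  {K : Type u} [Field K] [Algebra k K]

/-- The element `x` of `A_K` comes from `A_F`. -/
def IsRational (F : IntermediateField k K) (x : K ⊗[k] A) : Prop :=
  ∃ y : F ⊗[k] A, Algebra.TensorProduct.map F.val (AlgHom.id k A) y = x

/-- The subspace `I` of `A_K` is defined over `F`: it is spanned by its elements in `A_F`. -/
def DefinedOver (F : IntermediateField k K) (I : Submodule K (K ⊗[k] A)) : Prop :=
  I ≤ Submodule.span K {x | x ∈ I ∧ IsRational F x}

/-- The `K`-points of `SB_m(A)`: the right ideals of dimension `m * n` of `A_K`. -/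
def IsPoint (m n : ℕ) (I : Submodule K (K ⊗[k] A)) : Prop :=
  (∀ x ∈ I, ∀ y : K ⊗[k] A, x * y ∈ I) ∧ Module.finrank K I = m * n

end Defs

/-- `K` is (isomorphic over `k` to) the function field of `SB_m(A)`. -/
def IsFunctionField (k : Type u) [Field k] (A : Type u) [Ring A] [Algebra k A] (m n : ℕ)
    (K : Type u) [Field K] [Algebra k K] : Prop :=
  (∃ I : Submodule K (K ⊗[k] A), IsPoint m n I ∧
    ∀ F : IntermediateField k K, DefinedOver F I → F = ⊤) ∧
  Algebra.trdeg k K = (m * (n - m) : ℕ)

/-- `SB_m(A)` and `SB_m(B)` are birational over `k`: they have a common function field. -/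
def Birational (k : Type u) [Field k] (A B : Type u) [Ring A] [Algebra k A] [Ring B] [Algebra k B]
    (m n : ℕ) : Prop :=
  ∃ (K : Type u) (_ : Field K) (_ : Algebra k K),
    IsFunctionField k A m n K ∧ IsFunctionField k B m n K

end Pool.Agent.H49.GSB
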