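import Pool.Agent.H49.GSB.Lam

/-!
# Echelon bases
-/

open TensorProduct

namespace Pool.Agent.H49.GSB

universe u

/-- Every subspace has an echelon basis. -/
theorem echelon {ι K M : Type*} [Fintype ι] [DecidableEq ι] [Field K] [AddCommGroup M] [Module K M]
    (b : Module.Basis ι K M) (U : Submodule K M) :
    ∃ (S : Finset ι) (y : ι → M), (∀ s ∈ S, y s ∈ U) ∧
      (∀ s ∈ S, ∀ t ∈ S, b.repr (y s) t = if s = t then 1 else 0) ∧
      ∀ x ∈ U, x = ∑ s ∈ S, b.repr x s • y s := by
  classical
  obtain ⟨κ, a, ha, hspan, hli⟩ := exists_linearIndependent' K (U.mkQ ∘ b)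
  have hκ : Finite κ := Finite.of_injective a ha
  cases nonempty_fintype κ
  have htop : Submodule.span K (Set.range (U.mkQ ∘ b)) = ⊤ := by
    rw [Set.range_comp, Submodule.span_image, b.span_eq, Submodule.map_top, Submodule.range_mkQ]
  rw [htop] at hspan
  let S : Finset ι := Finset.univ.filter fun i => i ∉ Set.range a
  -- every class is represented by a combination of the `b (a j)`
  have hrep : ∀ x : M, ∃ z ∈ Submodule.span K (Set.range (b ∘ a)), x - z ∈ U := by
    intro x
    have h1 : U.mkQ x ∈ Submodule.span K (Set.range ((U.mkQ ∘ b) ∘ a)) := by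
      rw [hspan]; trivial
    rw [Function.comp_assoc, Set.range_comp, Submodule.span_image] at h1
    obtain ⟨z, hz, hzx⟩ := h1
    refine ⟨z, hz, ?_⟩
    rw [← Submodule.ker_mkQ U, LinearMap.mem_ker, map_sub, hzx, sub_self]
  choose z hz hzU using hrep
  have hz0 : ∀ x ∈ Submodule.span K (Set.range (b ∘ a)), ∀ s ∈ S, b.repr x s = 0 := by
    intro x hx s hs
    induction hx using Submodule.span_induction with
    | mem x hx =>
      obtain ⟨j, rfl⟩ := hx
      rw [Function.comp, b.repr_self, Finsupp.single_apply, if_neg]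
      rintro rfl
      exact (Finset.mem_filter.1 hs).2 ⟨j, rfl⟩
    | zero => simp
    | add x y _ _ hx hy => rw [map_add, Finsupp.add_apply, hx, hy, add_zero]
    | smul c x _ hx => rw [map_smul, Finsupp.smul_apply, hx, smul_zero]
  have hU0 : ∀ x ∈ U, x ∈ Submodule.span K (Set.range (b ∘ a)) → x = 0 := by
    intro x hxU hx
    obtain ⟨c, hc⟩ := (Submodule.mem_span_range_iff_exists_fun K).1 hx
    have h1 : ∑ i, c i • ((U.mkQ ∘ b) ∘ a) i = 0 := by
      have h2 : U.mkQ x = 0 := (Submodule.Quotient.mk_eq_zero U).2 hxU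
      rw [← hc, map_sum] at h2
      rw [← h2]
      exact Finset.sum_congr rfl fun i _ => by rw [map_smul]; rfl
    have h3 := Fintype.linearIndependent_iff.1 hli c h1
    rw [← hc]
    exact Finset.sum_eq_zero fun i _ => by rw [h3 i, zero_smul]
  refine ⟨S, fun s => b s - z (b s), fun s _ => hzU _, ?_, ?_⟩
  · intro s hs t ht
    rw [map_sub, Finsupp.sub_apply, hz0 _ (hz _) t ht, sub_zero, b.repr_self, Finsupp.single_apply]
  · intro x hx
    rw [← sub_eq_zero]
    apply hU0
    · exact U.sub_mem hx (Submodule.sum_mem _ fun s _ => U.smul_mem _ (hzU _))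
    · have h1 : x - ∑ s ∈ S, b.repr x s • (b s - z (b s)) =
          ∑ s ∈ Finset.univ.filter (fun i => ¬ (i ∉ Set.range a)), b.repr x s • b s +
            ∑ s ∈ S, b.repr x s • z (b s) := by
        have h2 : x = ∑ s ∈ S, b.repr x s • b s +
            ∑ s ∈ Finset.univ.filter (fun i => ¬ (i ∉ Set.range a)), b.repr x s • b s := by
          rw [Finset.sum_filter_add_sum_filter_not]
          exact (b.sum_repr x).symm
        simp only [smul_sub, Finset.sum_sub_distrib]
        nth_rewrite 1 [h2]
        abel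
      rw [h1]
      refine Submodule.add_mem _ (Submodule.sum_mem _ fun s hs => Submodule.smul_mem _ _ ?_)
        (Submodule.sum_mem _ fun s _ => Submodule.smul_mem _ _ (hz _))
      obtain ⟨j, hj⟩ := not_not.1 (Finset.mem_filter.1 hs).2
      exact Submodule.subset_span ⟨j, by rw [← hj]; rfl⟩

theorem echelon_span {ι K M : Type*} [Fintype ι] [DecidableEq ι] [Field K] [AddCommGroup M]
    [Module K M] {b : Module.Basis ι K M} {U : Submodule K M} {S : Finset ι} {y : ι → M}
    (h1 : ∀ s ∈ S, y s ∈ U) (h3 : ∀ x ∈ U, x = ∑ s ∈ S, b.repr x s • y s) :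
    U = Submodule.span K (y '' S) := by
  apply le_antisymm
  · intro x hx
    rw [h3 x hx]
    exact Submodule.sum_mem _ fun s hs => Submodule.smul_mem _ _
      (Submodule.subset_span ⟨s, hs, rfl⟩)
  · rw [Submodule.span_le]
    rintro _ ⟨s, hs, rfl⟩
    exact h1 s hs

theorem echelon_finrank {ι K M : Type*} [Fintype ι] [DecidableEq ι] [Field K] [AddCommGroup M]
    [Module K M] {b : Module.Basis ι K M} {U : Submodule K M} {S : Finset ι} {y : ι → M}
    (h1 : ∀ s ∈ S, y s ∈ U)
    (h2 : ∀ s ∈ S, ∀ t ∈ S, b.repr (y s) t = if s = t then 1 else 0)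
    (h3 : ∀ x ∈ U, x = ∑ s ∈ S, b.repr x s • y s) :
    Module.finrank K U = S.card := by
  have hli : LinearIndependent K (fun s : S => y s) := by
    rw [Fintype.linearIndependent_iff]
    intro c hc t
    have h4 := congrArg (fun x => b.repr x t) hc
    simp only [map_sum, map_smul, map_zero, Finsupp.coe_zero, Pi.zero_apply,
      Finsupp.coe_finsetSum, Finset.sum_apply, Finsupp.smul_apply, smul_eq_mul] at h4
    rw [Finset.sum_eq_single t] at h4
    · rw [h2 t t.2 t t.2, if_pos rfl, mul_one] at h4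
      exact h4
    · intro s _ hs
      rw [h2 s s.2 t t.2, if_neg (fun h => hs (Subtype.ext h)), mul_zero]
    · intro h; exact absurd (Finset.mem_univ _) h
  have h5 : U = Submodule.span K (Set.range fun s : S => y s) := by
    rw [echelon_span h1 h3]
    congr 1
    ext x
    constructor
    · rintro ⟨s, hs, rfl⟩; exact ⟨⟨s, hs⟩, rfl⟩
    · rintro ⟨s, rfl⟩; exact ⟨s, s.2, rfl⟩
  rw [h5, finrank_span_eq_card hli, Fintype.card_coe]

end Pool.Agent.H49.GSB
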