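import Pool.Agent.H49.GSB.Base

/-!
# Spanning families which depend on parameters
-/

open TensorProduct

namespace Pool.Agent.H49.GSB

universe u

section poly

variable {K : Type u} [Field K] {J τ D : Type*} [Fintype J] [DecidableEq J] [Fintype τ]

/-- A family of vectors depending on parameters. -/
def fam (Ω : Type u) [Field Ω] [Algebra K Ω] (w₀ : D → J → K) (w : D → τ → J → K) (t : τ → Ω) (d : D) :
    J → Ω := fun j => algebraMap K Ω (w₀ d j) + ∑ z, t z * algebraMap K Ω (w d z j)

theorem exists_poly (w₀ : D → J → K) (w : D → τ → J → K) (t₀ : τ → K)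
    (h : Submodule.span K (Set.range (fam K w₀ w t₀)) = ⊤) :
    ∃ P : MvPolynomial τ K, MvPolynomial.aeval t₀ P ≠ 0 ∧
      ∀ (Ω : Type u) [Field Ω] [Algebra K Ω] (t : τ → Ω), MvPolynomial.aeval t P ≠ 0 →
        Submodule.span Ω (Set.range (fam Ω w₀ w t)) = ⊤ := by
  obtain ⟨κ, a, ha, hspan, hli⟩ := exists_linearIndependent' K (fam K w₀ w t₀)
  rw [h] at hspan
  let B := Module.Basis.mk hli hspan.ge
  have hfin : Finite κ := Module.Finite.finite_basis B
  cases nonempty_fintype κ
  have hcard : Fintype.card J = Fintype.card κ := by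
    rw [← Module.finrank_eq_card_basis B, Module.finrank_fintype_fun_eq_card]
  let e : J ≃ κ := Fintype.equivOfCardEq hcard
  let c : J → D := fun j => a (e j)
  let M : Matrix J J (MvPolynomial τ K) := Matrix.of fun i j =>
    MvPolynomial.C (w₀ (c i) j) + ∑ z, MvPolynomial.X z * MvPolynomial.C (w (c i) z j)
  have hM : ∀ (Ω : Type u) [Field Ω] [Algebra K Ω] (t : τ → Ω),
      MvPolynomial.aeval t M.det = (Matrix.of fun i j => fam Ω w₀ w t (c i) j).det := by
    intro Ω _ _ t
    rw [AlgHom.map_det]
    congr 1
    ext i j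
    simp [M, fam, Matrix.of_apply]
  refine ⟨M.det, ?_, ?_⟩
  · have h1 := hM K t₀
    rw [h1]
    have h2 : LinearIndependent K (Matrix.of fun i j => fam K w₀ w t₀ (c i) j).row :=
      hli.comp e e.injective
    rw [Matrix.linearIndependent_rows_iff_isUnit, Matrix.isUnit_iff_isUnit_det] at h2
    exact h2.ne_zero
  · intro Ω _ _ t ht
    rw [hM] at ht
    have h1 := Matrix.linearIndependent_rows_of_det_ne_zero ht
    have h2 : Submodule.span Ω (Set.range (fun i => fam Ω w₀ w t (c i))) = ⊤ :=
      h1.span_eq_top_of_card_eq_finrank' (by rw [Module.finrank_fintype_fun_eq_card])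
    rw [eq_top_iff, ← h2]
    apply Submodule.span_mono
    rintro _ ⟨i, rfl⟩
    exact ⟨c i, rfl⟩

end poly

section tensor

variable {k : Type u} [Field k] {A : Type u} [Ring A] [Algebra k A]
  {K : Type u} [Field K] [Algebra k K]

/-- Coordinates of families. -/
noncomputable def crd {ι κ : Type*} [Fintype ι] (K : Type u) [Field K] [Algebra k K]
    (b : Module.Basis ι k A) : (κ → K ⊗[k] A) ≃ₗ[K] (κ × ι → K) :=
  (LinearEquiv.piCongrRight fun _ => (bas K b).equivFun).trans (LinearEquiv.curry K K κ ι).symm

theorem crd_apply {ι κ : Type*} [Fintype ι] (b : Module.Basis ι k A) (x : κ → K ⊗[k] A)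
    (j : κ × ι) : crd K b x j = (bas K b).repr (x j.1) j.2 := rfl

theorem span_crd {ι κ D : Type*} [Fintype ι] (b : Module.Basis ι k A) (v : D → κ → K ⊗[k] A) :
    Submodule.span K (Set.range v) = ⊤ ↔
      Submodule.span K (Set.range fun d => crd K b (v d)) = ⊤ := by
  have h : Submodule.span K (Set.range fun d => crd K b (v d)) =
      (Submodule.span K (Set.range v)).map (crd K b).toLinearMap := by
    rw [Submodule.map_span, ← Set.range_comp]
    rfl
  rw [h]
  constructor
  · intro h1
    rw [h1, Submodule.map_top, LinearEquiv.range]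
  · intro h1
    rw [eq_top_iff]
    intro x _
    have h2 : crd K b x ∈ (Submodule.span K (Set.range v)).map (crd K b).toLinearMap := by
      rw [h1]; trivial
    obtain ⟨y, hy, hxy⟩ := h2
    have h3 : y = x := (crd K b).injective hxy
    rwa [h3] at hy

theorem crd_expand {ι κ : Type*} [Fintype ι] [DecidableEq ι] [Fintype κ] [DecidableEq κ]
    (b : Module.Basis ι k A) (x : κ → K ⊗[k] A) :
    x = ∑ j : κ × ι, crd K b x j • (Pi.single j.1 (bas K b j.2) : κ → K ⊗[k] A) := by
  apply (crd K b).injective
  rw [map_sum]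
  funext j
  rw [Finset.sum_apply, Finset.sum_eq_single j]
  · rw [map_smul, Pi.smul_apply, crd_apply (x := Pi.single _ _), Pi.single_eq_same,
      Module.Basis.repr_self, Finsupp.single_eq_same, smul_eq_mul, mul_one]
  · intro i _ hij
    rw [map_smul, Pi.smul_apply, crd_apply (x := Pi.single _ _)]
    by_cases h : i.1 = j.1
    · have h2 : i.2 ≠ j.2 := fun h' => hij (Prod.ext h h')
      rw [← h, Pi.single_eq_same, Module.Basis.repr_self, Finsupp.single_eq_of_ne (Ne.symm h2),
        smul_zero]
    · rw [Pi.single_eq_of_ne (Ne.symm h)]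
      simp
  · intro h; exact absurd (Finset.mem_univ _) h

variable [FiniteDimensional k A]

/-- A family which spans for one value of the parameters spans for a rational value of the
parameters. -/
theorem exists_rational [Infinite k] {Z κ D : Type*} [Fintype Z] [Fintype κ]
    (Ψ : D → (Z → K ⊗[k] A) →ₗ[K] (κ → K ⊗[k] A)) (ξ₀ : Z → K ⊗[k] A)
    (h : Submodule.span K (Set.range fun d => Ψ d ξ₀) = ⊤) :
    ∃ ξ : Z → A, Submodule.span K (Set.range fun d => Ψ d (fun z => 1 ⊗ₜ ξ z)) = ⊤ := by
  classical
  let b := Module.finBasis k A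
  let w : D → Z × _ → κ × _ → K := fun d z => crd K b (Ψ d (Pi.single z.1 (bas K b z.2)))
  have hfam : ∀ (x : Z → K ⊗[k] A) (d : D),
      fam K (fun _ _ => 0) w (crd K b x) d = crd K b (Ψ d x) := by
    intro x d
    conv_rhs => rw [crd_expand b x, map_sum, map_sum]
    funext j
    rw [Finset.sum_apply]
    simp only [fam, map_zero, zero_add, Algebra.algebraMap_self, RingHom.id_apply, map_smul,
      Pi.smul_apply, smul_eq_mul, w]
  have hfam' : ∀ x : Z → K ⊗[k] A, fam K (fun (_ : D) (_ : κ × _) => (0 : K)) w (crd K b x) =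
      fun d => crd K b (Ψ d x) := fun x => funext (hfam x)
  obtain ⟨P, hP, hP'⟩ := exists_poly (fun (_ : D) (_ : κ × _) => (0 : K)) w (crd K b ξ₀) (by
    rw [hfam']
    exact (span_crd b _).1 h)
  -- a rational point where the polynomial does not vanish
  obtain ⟨t, ht⟩ : ∃ t : Z × _ → k, MvPolynomial.aeval (fun z => algebraMap k K (t z)) P ≠ 0 := by
    by_contra! hcon
    have hP0 : P = 0 := by
      refine MvPolynomial.funext_set (fun _ => Set.range (algebraMap k K))
        (fun _ => Set.infinite_range_of_injective (algebraMap k K).injective) ?_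
      intro x hx
      have hx' : ∀ z, ∃ c, algebraMap k K c = x z := fun z => hx z (Set.mem_univ z)
      choose t ht using hx'
      have h1 := hcon t
      have h2 : (fun z => algebraMap k K (t z)) = x := funext ht
      rw [h2, MvPolynomial.aeval_eq_eval] at h1
      rw [map_zero]
      exact h1
    rw [hP0, map_zero] at hP
    exact hP rfl
  refine ⟨fun z => ∑ i, t (z, i) • b i, ?_⟩
  have h1 := hP' K _ ht
  have h2 : (fun z => algebraMap k K (t z)) =
      crd K b (fun z => (1 : K) ⊗ₜ[k] ∑ i, t (z, i) • b i) := by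
    funext z
    rw [crd_apply, bas_repr_tmul, one_mul]
    congr 1
    rw [b.repr_sum_self]
  rw [h2] at h1
  rw [span_crd b]
  rw [hfam'] at h1
  exact h1

/-- A family which spans at the origin spans for algebraically independent parameters. -/
theorem generic_span {L : Type u} [Field L] [Algebra k L] [Algebra K L] [IsScalarTower k K L]
    {τ κ D : Type*} [Fintype τ] [Fintype κ] (X : τ → L) (hX : AlgebraicIndependent K X)
    (w₀ : D → κ → K ⊗[k] A) (w : D → τ → κ → K ⊗[k] A)
    (h : Submodule.span K (Set.range w₀) = ⊤) :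
    Submodule.span L (Set.range fun (d : D) (j : κ) =>
      bc k A K L (w₀ d j) + ∑ z, X z • bc k A K L (w d z j)) = ⊤ := by
  classical
  let b := Module.finBasis k A
  obtain ⟨P, hP, hP'⟩ := exists_poly (fun d => crd K b (w₀ d)) (fun d z => crd K b (w d z))
    (fun _ : τ => (0 : K)) (by
      have h1 : fam K (fun d => crd K b (w₀ d)) (fun d z => crd K b (w d z))
          (fun _ : τ => (0 : K)) = fun d => crd K b (w₀ d) := by
        funext d j
        simp [fam]
      rw [h1]
      exact (span_crd b _).1 h)
  have hP0 : P ≠ 0 := by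
    rintro rfl
    exact hP (map_zero _)
  have h1 := hP' L X (fun h0 => hP0 (hX (by rw [h0, map_zero])))
  rw [span_crd b]
  have h2 : fam L (fun d => crd K b (w₀ d)) (fun d z => crd K b (w d z)) X =
      fun d => crd L b (fun j => bc k A K L (w₀ d j) + ∑ z, X z • bc k A K L (w d z j)) := by
    funext d j
    rw [crd_apply]
    simp only [fam, map_add, map_sum, map_smul, Finsupp.add_apply, Finsupp.coe_finsetSum,
      Finset.sum_apply, Finsupp.smul_apply, smul_eq_mul, bas_repr_bc, crd_apply]
  rw [h2] at h1
  exact h1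

end tensor

end Pool.Agent.H49.GSB
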