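import Pool.Agent.H49.GSB.SwapD

/-!
# The underlying division algebras
-/

open TensorProduct Module
open Pool.Agent.H72.SB hiding IsFunctionField

namespace Pool.Agent.H49.GSB

universe u

variable {k : Type u} [Field k]

/-- The underlying division algebra. -/
theorem exists_division (A : CSA.{u, u} k) : ∃ (r : ℕ) (D : CSA.{u, u} k), r ≠ 0 ∧
    (∀ x : D, x ≠ 0 → IsUnit x) ∧ Nonempty (A ≃ₐ[k] Matrix (Fin r) (Fin r) D) := by
  have : IsArtinianRing A := IsArtinianRing.of_finite k A
  obtain ⟨r, hr, D, hD1, hD2, hD3, ⟨e⟩⟩ :=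
    IsSimpleRing.exists_algEquiv_matrix_divisionRing_finite k A
  have hcen : Algebra.IsCentral k D := by
    constructor
    intro d hd
    have h1 : e.symm (Matrix.scalar (Fin r) d) ∈ Subalgebra.center k A := by
      rw [Subalgebra.mem_center_iff]
      intro x
      apply e.injective
      rw [map_mul, map_mul, AlgEquiv.apply_symm_apply]
      ext i j
      simp only [Matrix.scalar_apply, Matrix.mul_diagonal, Matrix.diagonal_mul]
      rw [Subalgebra.mem_center_iff] at hd
      exact hd _
    obtain ⟨c, hc⟩ := Algebra.mem_bot.1 (Algebra.IsCentral.out h1)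
    refine Algebra.mem_bot.2 ⟨c, ?_⟩
    have h2 := congrArg e hc
    rw [AlgEquiv.apply_symm_apply, AlgEquiv.commutes] at h2
    have h3 := congrFun (congrFun h2 0) 0
    simpa [Matrix.algebraMap_matrix_apply] using h3
  refine ⟨r, { carrier := D }, NeZero.ne r, fun x hx => ?_, ⟨e⟩⟩
  exact isUnit_iff_ne_zero.2 hx

/-- Transport along Brauer equivalence on the left. -/
theorem inCyclic_left {A D C : CSA.{u, u} k} (hAD : IsBrauerEquivalent D A) (h : InCyclic A C) :
    InCyclic D C := by
  induction h with
  | self => exact InCyclic.equiv _ _ InCyclic.self hAD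
  | one C e => exact InCyclic.one C e
  | mul B C E _ _ e hB hC => exact InCyclic.mul B C E hB hC e
  | inv B C _ e hB => exact InCyclic.inv B C hB e
  | equiv B C _ e hB => exact InCyclic.equiv B C hB e

theorem brauer_of_matrix {A D : CSA.{u, u} k} {r : ℕ} (hr : r ≠ 0)
    (e : A ≃ₐ[k] Matrix (Fin r) (Fin r) D) : IsBrauerEquivalent D A := by
  refine ⟨1 * r, 1, by omega, one_ne_zero, ⟨?_⟩⟩
  exact ((Matrix.reindexAlgEquiv k D finProdFinEquiv).symm.trans
    (Matrix.compAlgEquiv (Fin 1) (Fin r) D k).symm).trans e.symm.mapMatrix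

/-- The degree of a division algebra divides the degree of a splitting field. -/
theorem dvd_of_splitBy {D : Type*} [Ring D] [Algebra k D] [FiniteDimensional k D]
    (hdiv : ∀ x : D, x ≠ 0 → IsUnit x) [Nontrivial D] {d : ℕ}
    (hD : finrank k D = d ^ 2) {L : Type*} [Field L] [Algebra k L]
    [FiniteDimensional k L]
    (h : SplitBy k D L) : d ∣ finrank k L := by
  obtain ⟨a, ha, ha2, ⟨f⟩⟩ := h
  have had : a = d := by
    rw [hD] at ha2
    exact Nat.pow_left_injective (n := 2) (by norm_num) ha2
  subst had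
  let _ : DivisionRing D := DivisionRing.ofIsUnitOrEqZero fun x => by
    by_cases hx : x = 0
    · exact Or.inr hx
    · exact Or.inl (hdiv x hx)
  let g : D →+* Module.End L (Fin a → L) :=
    (Matrix.toLinAlgEquiv' (R := L) (n := Fin a)).toAlgHom.toRingHom.comp f.toRingHom
  let _ : Module D (Fin a → L) := Module.compHom (Fin a → L) g
  have hsmul : ∀ (x : D) (v : Fin a → L), x • v = (f x).mulVec v := fun x v => rfl
  have : IsScalarTower k D (Fin a → L) := by
    constructor
    intro c x v
    rw [hsmul, hsmul, map_smul, Matrix.smul_mulVec]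
  have h1 := Module.finrank_mul_finrank k D (Fin a → L)
  rw [hD, Module.finrank_pi_fintype] at h1
  simp only [Finset.sum_const, Finset.card_univ, Fintype.card_fin, smul_eq_mul] at h1
  refine ⟨finrank D (Fin a → L), ?_⟩
  apply Nat.eq_of_mul_eq_mul_left ha
  rw [← h1]
  ring

/-- Division algebras in the same subgroup: the degree of `D'` divides the degree of `D`. -/
theorem deg_dvd [Infinite k] {D D' : CSA.{u, u} k} (hdiv : ∀ x : D', x ≠ 0 → IsUnit x) {d d' : ℕ}
    (hD : finrank k D = d ^ 2) (hD' : finrank k D' = d' ^ 2) (hd : 0 < d)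
    (h : InCyclic D D') : d' ∣ d := by
  obtain ⟨Ω, _, _, _, hΩ⟩ := exists_omega k 0
  obtain ⟨ρ, b, β, hρ, hs⟩ := exists_form (Ω := Ω) D hD
  obtain ⟨r, L, hL, hfin, hsum, hL1⟩ := exists_fields (isForm_of_rho hρ)
    (K := ⊥) (U := ⊤) (l := d) (by simp) hd ratR_top
  rw [← hsum]
  refine Finset.dvd_sum fun j _ => ?_
  obtain ⟨U', hU', hUr'⟩ := hL1 j
  have h1 : SplitBy k D' (L j) := SplitBy.of_inCyclic h (splitBy_of_ratR hρ hU' hUr')
  have h2 : finrank (⊥ : IntermediateField k Ω) (IntermediateField.extendScalars (hL j)) =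
      finrank k (L j) := by
    have h3 := Module.finrank_mul_finrank k (⊥ : IntermediateField k Ω)
      (IntermediateField.extendScalars (hL j))
    rw [IntermediateField.finrank_bot, one_mul] at h3
    rw [h3]
    rfl
  have h4 : FiniteDimensional k (L j) := by
    have h5 := hfin j
    have h6 : FiniteDimensional k (⊥ : IntermediateField k Ω) := inferInstance
    have h7 : FiniteDimensional k (IntermediateField.extendScalars (hL j)) :=
      Module.Finite.trans (⊥ : IntermediateField k Ω) _
    exact h7
  rw [h2]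
  exact dvd_of_splitBy hdiv hD' h1

end Pool.Agent.H49.GSB
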