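import Pool.Agent.H49.GSB.Dual

/-!
# The entries of an element of `K ⊗ M_ρ(A)`
-/

open TensorProduct

namespace Pool.Agent.H49.GSB

universe u

variable {k : Type u} [Field k] {A : Type u} [Ring A] [Algebra k A]
  {K : Type u} [Field K] [Algebra k K] {ρ : Type} [Fintype ρ] [DecidableEq ρ]

/-- The entry of an element of `K ⊗ M_ρ(A)`. -/
noncomputable def ent (k A K : Type u) [Field k] [Ring A] [Algebra k A] [Field K] [Algebra k K]
    {ρ : Type} [Fintype ρ] [DecidableEq ρ] (i j : ρ) : K ⊗[k] Matrix ρ ρ A →ₗ[K] K ⊗[k] A :=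
  LinearMap.baseChange K (Matrix.entryLinearMap k A i j)

/-- The matrix with one entry. -/
noncomputable def sgl (k A K : Type u) [Field k] [Ring A] [Algebra k A] [Field K] [Algebra k K]
    {ρ : Type} [Fintype ρ] [DecidableEq ρ] (i j : ρ) : K ⊗[k] A →ₗ[K] K ⊗[k] Matrix ρ ρ A :=
  LinearMap.baseChange K (Matrix.singleLinearMap k i j)

@[simp] theorem ent_tmul (i j : ρ) (c : K) (M : Matrix ρ ρ A) :
    ent k A K i j (c ⊗ₜ M) = c ⊗ₜ M i j := by
  simp [ent]

@[simp] theorem sgl_tmul (i j : ρ) (c : K) (a : A) :
    sgl k A K i j (c ⊗ₜ a) = c ⊗ₜ Matrix.single i j a := by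
  simp [sgl]

theorem ent_sgl (i j i' j' : ρ) (x : K ⊗[k] A) :
    ent k A K i' j' (sgl k A K i j x) = if i = i' ∧ j = j' then x else 0 := by
  induction x using TensorProduct.induction_on with
  | zero => simp
  | tmul c a =>
    rw [sgl_tmul, ent_tmul, Matrix.single_apply]
    split_ifs <;> simp
  | add x y hx hy =>
    rw [map_add, map_add, hx, hy]
    split_ifs <;> simp

theorem sum_sgl (X : K ⊗[k] Matrix ρ ρ A) : ∑ i, ∑ j, sgl k A K i j (ent k A K i j X) = X := by
  induction X using TensorProduct.induction_on with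
  | zero => simp
  | tmul c M =>
    simp only [ent_tmul, sgl_tmul]
    simp only [← TensorProduct.tmul_sum]
    rw [← Matrix.matrix_eq_sum_single]
  | add x y hx hy => simp only [map_add, Finset.sum_add_distrib, hx, hy]

theorem ent_mul (i j : ρ) (X Y : K ⊗[k] Matrix ρ ρ A) :
    ent k A K i j (X * Y) = ∑ l, ent k A K i l X * ent k A K l j Y := by
  induction X using TensorProduct.induction_on with
  | zero => simp
  | add x y hx hy => simp only [add_mul, map_add, Finset.sum_add_distrib, hx, hy]
  | tmul c M =>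
    induction Y using TensorProduct.induction_on with
    | zero => simp
    | add x y hx hy => simp only [mul_add, map_add, Finset.sum_add_distrib, hx, hy]
    | tmul d N =>
      simp only [Algebra.TensorProduct.tmul_mul_tmul, ent_tmul, Matrix.mul_apply,
        TensorProduct.tmul_sum]

theorem ent_lam (l : K →ₗ[k] K) (i j : ρ) (X : K ⊗[k] Matrix ρ ρ A) :
    ent k A K i j (lam l X) = lam l (ent k A K i j X) := by
  induction X using TensorProduct.induction_on with
  | zero => simp
  | tmul c M => simp
  | add x y hx hy => simp only [map_add, hx, hy]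

/-- The right ideal of all matrices with columns in `W`. -/
def colI (W : Submodule K (ρ → K ⊗[k] A)) : Submodule K (K ⊗[k] Matrix ρ ρ A) where
  carrier := {X | ∀ j, (fun i => ent k A K i j X) ∈ W}
  add_mem' := fun {X Y} hX hY j => by
    have := W.add_mem (hX j) (hY j)
    convert this using 1
    funext i
    simp
  zero_mem' := fun j => by
    have : (fun i => ent k A K i j (0 : K ⊗[k] Matrix ρ ρ A)) = 0 := by funext i; simp
    rw [this]; exact W.zero_mem
  smul_mem' := fun c X hX j => by
    have := W.smul_mem c (hX j)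
    convert this using 1
    funext i
    simp

theorem mem_colI {W : Submodule K (ρ → K ⊗[k] A)} {X : K ⊗[k] Matrix ρ ρ A} :
    X ∈ colI W ↔ ∀ j, (fun i => ent k A K i j X) ∈ W := Iff.rfl

theorem colI_right {W : Submodule K (ρ → K ⊗[k] A)} (hW : ∀ w ∈ W, ∀ y, (fun i => w i * y) ∈ W)
    {X : K ⊗[k] Matrix ρ ρ A} (hX : X ∈ colI W) (Y : K ⊗[k] Matrix ρ ρ A) : X * Y ∈ colI W := by
  intro j
  have h : (fun i => ent k A K i j (X * Y)) =
      ∑ l, fun i => ent k A K i l X * ent k A K l j Y := by
    funext i
    rw [ent_mul, Finset.sum_apply]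
  rw [h]
  exact W.sum_mem fun l _ => hW _ (hX l) _

/-- The matrix with given columns. -/
noncomputable def ofCols (f : ρ → ρ → K ⊗[k] A) : K ⊗[k] Matrix ρ ρ A :=
  ∑ i, ∑ j, sgl k A K i j (f j i)

theorem ent_ofCols (f : ρ → ρ → K ⊗[k] A) (i j : ρ) : ent k A K i j (ofCols f) = f j i := by
  rw [ofCols, map_sum, Finset.sum_eq_single i]
  · rw [map_sum, Finset.sum_eq_single j]
    · rw [ent_sgl, if_pos ⟨rfl, rfl⟩]
    · intro j' _ hj
      rw [ent_sgl, if_neg (fun h => hj h.2)]
    · intro h; exact absurd (Finset.mem_univ _) h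
  · intro i' _ hi
    rw [map_sum]
    refine Finset.sum_eq_zero fun j' _ => ?_
    rw [ent_sgl, if_neg (fun h => hi h.1)]
  · intro h; exact absurd (Finset.mem_univ _) h

theorem ext_ent {X Y : K ⊗[k] Matrix ρ ρ A} (h : ∀ i j, ent k A K i j X = ent k A K i j Y) :
    X = Y := by
  rw [← sum_sgl X, ← sum_sgl Y]
  simp only [h]

theorem colI_finrank [FiniteDimensional k A] (W : Submodule K (ρ → K ⊗[k] A)) :
    Module.finrank K (colI W) = Fintype.card ρ * Module.finrank K W := by
  let φ : colI W →ₗ[K] (ρ → W) :=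
    { toFun := fun X j => ⟨fun i => ent k A K i j X.1, X.2 j⟩
      map_add' := fun X Y => by funext j; apply Subtype.ext; funext i; simp
      map_smul' := fun c X => by funext j; apply Subtype.ext; funext i; simp }
  have hφ : ∀ X j i, (φ X j : ρ → K ⊗[k] A) i = ent k A K i j X.1 := fun X j i => rfl
  have hb : Function.Bijective φ := by
    constructor
    · intro X Y h
      apply Subtype.ext
      apply ext_ent
      intro i j
      rw [← hφ, ← hφ, h]
    · intro f
      refine ⟨⟨ofCols fun j i => (f j : ρ → K ⊗[k] A) i, ?_⟩, ?_⟩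
      · intro j
        have : (fun i => ent k A K i j (ofCols fun j i => (f j : ρ → K ⊗[k] A) i)) =
            (f j : ρ → K ⊗[k] A) := by
          funext i; rw [ent_ofCols]
        rw [this]
        exact (f j).2
      · funext j
        apply Subtype.ext
        funext i
        rw [hφ, ent_ofCols]
  rw [(LinearEquiv.ofBijective φ hb).finrank_eq, Module.finrank_pi_fintype]
  simp

theorem colI_stable [Nonempty ρ] {F : IntermediateField k K} {W : Submodule K (ρ → K ⊗[k] A)}
    (h : Stable F (colI W)) (l : K →ₗ[F] K) {w : ρ → K ⊗[k] A} (hw : w ∈ W) :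
    (fun i => lam (l.restrictScalars k) (w i)) ∈ W := by
  obtain ⟨j⟩ := ‹Nonempty ρ›
  have h1 : ofCols (fun j' => if j' = j then w else 0) ∈ colI W := by
    intro j'
    have : (fun i => ent k A K i j' (ofCols fun j' => if j' = j then w else 0)) =
        if j' = j then w else 0 := by
      funext i; rw [ent_ofCols]
    rw [this]
    split_ifs
    · exact hw
    · exact W.zero_mem
  have h2 := h l _ h1 j
  have h3 : (fun i => ent k A K i j (lam (l.restrictScalars k)
      (ofCols fun j' => if j' = j then w else 0))) =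
      fun i => lam (l.restrictScalars k) (w i) := by
    funext i
    rw [ent_lam, ent_ofCols, if_pos rfl]
  rwa [h3] at h2

end Pool.Agent.H49.GSB
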