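import Pool.Agent.H49.GSB.Main

/-!
# The field of definition of the generic point
-/

open TensorProduct

namespace Pool.Agent.H49.GSB

universe u

section

variable {Q S U P G : Type} [Fintype Q] [Fintype S] [Fintype U] [Fintype P] [Fintype G]
  [DecidableEq Q] [DecidableEq S] [DecidableEq U] [DecidableEq P]
  {k : Type u} [Field k] {A : Type u} [Ring A] [Algebra k A]
  {K : Type u} [Field K] [Algebra k K] {L : Type u} [Field L] [Algebra k L] [Algebra K L]
  [IsScalarTower k K L]
  {I : Submodule K (K ⊗[k] A)} {ξ : ((Q ⊕ S) ⊕ U) ⊕ (Q × P) → A}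
  {α : G → K ⊗[k] A} {X : Par Q S U P G → L}

/-- The preimage of the powers of the generic point. -/
noncomputable def pre (I : Submodule K (K ⊗[k] A)) (ξ : ((Q ⊕ S) ⊕ U) ⊕ (Q × P) → A)
    (α : G → K ⊗[k] A) (X : Par Q S U P G → L) : Submodule L (Option P → L ⊗[k] A) where
  carrier := {v | ∀ j, ∑ i, (1 ⊗ₜ con ξ i j) * v i ∈ genPt I ξ α X}
  add_mem' := fun {v w} hv hw j => by
    have h := Submodule.add_mem _ (hv j) (hw j)
    rw [← Finset.sum_add_distrib] at h
    simpa only [Pi.add_apply, mul_add] using h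
  zero_mem' := fun j => by simp
  smul_mem' := fun c v hv j => by
    have h := Submodule.smul_mem _ c (hv j)
    rw [Finset.smul_sum] at h
    simpa only [Pi.smul_apply, mul_smul_comm] using h

theorem mem_pre (v : Option P → L ⊗[k] A) : v ∈ pre I ξ α X ↔
    ∀ j, ∑ i, (1 ⊗ₜ con ξ i j) * v i ∈ genPt I ξ α X := Iff.rfl

/-- The graph of the generic maps. -/
noncomputable def graph (I : Submodule K (K ⊗[k] A)) (ξ : ((Q ⊕ S) ⊕ U) ⊕ (Q × P) → A)
    (α : G → K ⊗[k] A) (X : Par Q S U P G → L) : ext L I →ₗ[L] (Option P → L ⊗[k] A) where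
  toFun x := fun i => i.elim (x : L ⊗[k] A) fun i => eta ξ α X i * x
  map_add' x y := by
    funext i
    cases i <;> simp [mul_add]
  map_smul' c x := by
    funext i
    cases i <;> simp

theorem graph_none (x : ext L I) : graph I ξ α X x none = x := rfl

theorem graph_some (x : ext L I) (i : P) : graph I ξ α X x (some i) = eta ξ α X i * x := rfl

theorem graph_mem (x : ext L I) : graph I ξ α X x ∈ pre I ξ α X := by
  rw [mem_pre]
  intro j
  have h : ∑ i, (1 ⊗ₜ con ξ i j) * graph I ξ α X x i = xi ξ α X (.inl (.inl j)) * x := by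
    rw [Fintype.sum_option, xi_Q, add_mul, Finset.sum_mul]
    congr 1
    exact Finset.sum_congr rfl fun i _ => by rw [graph_some, ← mul_assoc]; rfl
  have h2 := blk_single (ext L I) (fun a : Q ⊕ S => xi ξ α X (.inl a)) (.inl j) x
  rw [h, ← h2]
  exact ⟨_, rfl⟩

variable [FiniteDimensional k A]

theorem range_graph (hX : AlgebraicIndependent K X)
    (hspan : Submodule.span K (Set.range fun d : Gens Q S U P I (K ⊗[k] A) =>
        vec (fun x : I => (x : K ⊗[k] A)) (fun z => 1 ⊗ₜ ξ z) d) = ⊤)
    (hcard : (Fintype.card P + 1) * (Fintype.card Q + Fintype.card S + Fintype.card U) =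
      1 + Fintype.card Q * Fintype.card U)
    (hdim : (Fintype.card Q + Fintype.card S + Fintype.card U) * Module.finrank K I =
      Module.finrank K (K ⊗[k] A)) :
    LinearMap.range (graph I ξ α X) = pre I ξ α X := by
  have hle : LinearMap.range (graph I ξ α X) ≤ pre I ξ α X := by
    rintro _ ⟨x, rfl⟩
    exact graph_mem x
  have hinj : Function.Injective (graph I ξ α X) := by
    intro x y h
    exact Subtype.ext (congrFun h none)
  have h1 := preimage_finrank (V := pre I ξ α X) (xi ξ α X) (fun i j => (1 : L) ⊗ₜ[k] con ξ i j)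
    (gen_span hX hspan) hcard (hdimL hdim) (fun v => mem_pre v)
  apply Submodule.eq_of_le_of_finrank_eq hle
  rw [h1, LinearMap.finrank_range_of_inj hinj]

/-- The key consequence of the block decomposition. -/
theorem graph_stable (hX : AlgebraicIndependent K X)
    (hspan : Submodule.span K (Set.range fun d : Gens Q S U P I (K ⊗[k] A) =>
        vec (fun x : I => (x : K ⊗[k] A)) (fun z => 1 ⊗ₜ ξ z) d) = ⊤)
    (hcard : (Fintype.card P + 1) * (Fintype.card Q + Fintype.card S + Fintype.card U) =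
      1 + Fintype.card Q * Fintype.card U)
    (hdim : (Fintype.card Q + Fintype.card S + Fintype.card U) * Module.finrank K I =
      Module.finrank K (K ⊗[k] A))
    {F : IntermediateField k L} (hF : Stable F (genPt I ξ α X)) (l : L →ₗ[F] L)
    (x : L ⊗[k] A) (hx : x ∈ ext L I) :
    lam (l.restrictScalars k) x ∈ ext L I ∧
      ∀ i, lam (l.restrictScalars k) (eta ξ α X i * x) =
        eta ξ α X i * lam (l.restrictScalars k) x := by
  have h1 : (fun i => lam (l.restrictScalars k) (graph I ξ α X ⟨x, hx⟩ i)) ∈ pre I ξ α X := by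
    rw [mem_pre]
    intro j
    have h2 := hF l _ (graph_mem (X := X) (ξ := ξ) (α := α) ⟨x, hx⟩ j)
    rw [map_sum] at h2
    simpa only [lam_one_mul] using h2
  rw [← range_graph hX hspan hcard hdim] at h1
  obtain ⟨y, hy⟩ := h1
  have h3 := congrFun hy none
  simp only [graph_none] at h3
  refine ⟨by rw [← h3]; exact y.2, fun i => ?_⟩
  have h4 := congrFun hy (some i)
  simp only [graph_some] at h4
  rw [← h4, h3]

/-- The generic point is not defined over a proper subfield of `L`. -/
theorem genPt_min (hX : AlgebraicIndependent K X)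
    (hgen : ∀ F : IntermediateField k L, (∀ c : K, algebraMap K L c ∈ F) → (∀ z, X z ∈ F) → F = ⊤)
    (hmin : ∀ F : IntermediateField k K, DefinedOver F I → F = ⊤)
    (hspan : Submodule.span K (Set.range fun d : Gens Q S U P I (K ⊗[k] A) =>
        vec (fun x : I => (x : K ⊗[k] A)) (fun z => 1 ⊗ₜ ξ z) d) = ⊤)
    (hcard : (Fintype.card P + 1) * (Fintype.card Q + Fintype.card S + Fintype.card U) =
      1 + Fintype.card Q * Fintype.card U)
    (hdim : (Fintype.card Q + Fintype.card S + Fintype.card U) * Module.finrank K I =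
      Module.finrank K (K ⊗[k] A))
    (hα : ∀ β, ∀ x ∈ I, α β * x ∈ I) (hind : LinearIndependent K α) {e : K ⊗[k] A} (he : e ∈ I)
    (hαe : ∀ β, α β * e = α β)
    (F : IntermediateField k L) (hF : DefinedOver F (genPt I ξ α X)) : F = ⊤ := by
  have hst := hF.stable
  have hgs := fun l => graph_stable hX hspan hcard hdim hst l
  -- `F` contains `K`
  have hKF : ∀ c : K, algebraMap K L c ∈ F :=
    le_of_ext_stable hmin F fun l x hx => (hgs l x hx).1
  -- independence over `K`
  have hind' : ∀ μ : ((Q ⊕ S) ⊕ U) × G → K,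
      (∀ x : I, ∑ z, μ z • ((1 ⊗ₜ[k] ξ (.inl z.1)) * (α z.2 * (x : K ⊗[k] A))) = 0) →
      ∀ z, μ z = 0 := by
    intro μ hμ
    have h1 : ∀ (x : I), (fun a => (⟨∑ β, μ (a, β) • (α β * (x : K ⊗[k] A)),
        I.sum_mem fun β _ => I.smul_mem _ (hα β x x.2)⟩ : I)) = 0 := by
      intro x
      apply xi_injective₀ hspan hdim
      rw [map_zero, blk_apply, ← hμ x, Fintype.sum_prod_type]
      refine Finset.sum_congr rfl fun a _ => ?_
      simp only [Finset.mul_sum, mul_smul_comm]
    rintro ⟨a, β⟩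
    have h2 := congrArg (fun y : I => (y : K ⊗[k] A)) (congrFun (h1 ⟨e, he⟩) a)
    simp only [hαe] at h2
    exact (Fintype.linearIndependent_iff.1 hind (fun β => μ (a, β)) h2) β
  apply hgen F hKF
  rintro (⟨i, a, β⟩ | ⟨s, b, β⟩)
  · -- parameters of the first kind
    apply mem_of_forall
    intro l
    have h1 : ∀ x : I, ∑ z : ((Q ⊕ S) ⊕ U) × G,
        (l (X (.inl (i, z.1, z.2))) - l 1 * X (.inl (i, z.1, z.2))) •
          bc k A K L ((1 ⊗ₜ[k] ξ (.inl z.1)) * (α z.2 * (x : K ⊗[k] A))) = 0 := by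
      intro x
      have h2 := (hgs l _ (bc_mem_ext (L := L) x.2)).2 i
      have h3 : lam (l.restrictScalars k) (bc k A K L (x : K ⊗[k] A)) =
          l 1 • bc k A K L (x : K ⊗[k] A) := by
        have := lam_smul_bc hKF l 1 (x : K ⊗[k] A)
        rwa [one_smul] at this
      have h4 : eta ξ α X i * bc k A K L (x : K ⊗[k] A) =
          ∑ z : ((Q ⊕ S) ⊕ U) × G, X (.inl (i, z.1, z.2)) •
            bc k A K L ((1 ⊗ₜ[k] ξ (.inl z.1)) * (α z.2 * (x : K ⊗[k] A))) := by
        rw [eta, Finset.sum_mul, Fintype.sum_prod_type]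
        refine Finset.sum_congr rfl fun a _ => ?_
        rw [Finset.sum_mul]
        refine Finset.sum_congr rfl fun β _ => ?_
        rw [smul_mul_assoc, ← map_mul, mul_assoc]
      rw [h3, mul_smul_comm, h4, map_sum, Finset.smul_sum] at h2
      simp only [lam_smul_bc hKF] at h2
      simp only [sub_smul, Finset.sum_sub_distrib, mul_smul]
      rw [h2, sub_self]
    have h5 := indep (L := L) (fun (z : ((Q ⊕ S) ⊕ U) × G) (x : I) =>
      (1 ⊗ₜ[k] ξ (.inl z.1)) * (α z.2 * (x : K ⊗[k] A))) hind' _ h1 (a, β)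
    exact sub_eq_zero.1 h5
  · -- parameters of the second kind
    apply mem_of_forall
    intro l
    have h1 : ∀ x : I, ∑ z : U × G,
        (l (X (.inr (s, z.1, z.2))) - l 1 * X (.inr (s, z.1, z.2))) •
          bc k A K L ((1 ⊗ₜ[k] ξ (.inl (.inr z.1))) * (α z.2 * (x : K ⊗[k] A))) = 0 := by
      intro x
      have h3 : lam (l.restrictScalars k) (bc k A K L (x : K ⊗[k] A)) =
          l 1 • bc k A K L (x : K ⊗[k] A) := by
        have := lam_smul_bc hKF l 1 (x : K ⊗[k] A)
        rwa [one_smul] at this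
      have h4 : phi ξ α X s * bc k A K L (x : K ⊗[k] A) =
          ∑ z : U × G, X (.inr (s, z.1, z.2)) •
            bc k A K L ((1 ⊗ₜ[k] ξ (.inl (.inr z.1))) * (α z.2 * (x : K ⊗[k] A))) := by
        rw [phi, Finset.sum_mul, Fintype.sum_prod_type]
        refine Finset.sum_congr rfl fun a _ => ?_
        rw [Finset.sum_mul]
        refine Finset.sum_congr rfl fun β _ => ?_
        rw [smul_mul_assoc, ← map_mul, mul_assoc]
      have h6 : xi ξ α X (.inl (.inr s)) * bc k A K L (x : K ⊗[k] A) ∈ genPt I ξ α X := by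
        have := blk_single (ext L I) (fun a : Q ⊕ S => xi ξ α X (.inl a)) (.inr s)
          ⟨_, bc_mem_ext x.2⟩
        rw [← this]
        exact ⟨_, rfl⟩
      have h7 := Submodule.sub_mem _ (hst l _ h6) (Submodule.smul_mem _ (l 1) h6)
      have h8 : lam (l.restrictScalars k)
          (xi ξ α X (.inl (.inr s)) * bc k A K L (x : K ⊗[k] A)) -
          l 1 • (xi ξ α X (.inl (.inr s)) * bc k A K L (x : K ⊗[k] A)) =
          ∑ z : U × G, (l (X (.inr (s, z.1, z.2))) - l 1 * X (.inr (s, z.1, z.2))) •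
            bc k A K L ((1 ⊗ₜ[k] ξ (.inl (.inr z.1))) * (α z.2 * (x : K ⊗[k] A))) := by
        rw [xi_S, add_mul, map_add, lam_one_mul, h3, h4, map_sum, smul_add, mul_smul_comm,
          Finset.smul_sum]
        simp only [lam_smul_bc hKF]
        simp only [sub_smul, Finset.sum_sub_distrib, mul_smul]
        abel
      rw [h8] at h7
      refine blk_disjoint (xi ξ α X) (xi_injective hX hspan hdim) h7 ?_
      refine ⟨fun b => ⟨∑ β, (l (X (.inr (s, b, β))) - l 1 * X (.inr (s, b, β))) •
        bc k A K L (α β * (x : K ⊗[k] A)), Submodule.sum_mem _ fun β _ =>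
          Submodule.smul_mem _ _ (bc_mem_ext (hα β x x.2))⟩, ?_⟩
      rw [blk_apply, Fintype.sum_prod_type]
      refine Finset.sum_congr rfl fun b _ => ?_
      simp only [Finset.mul_sum, mul_smul_comm, xi_U, map_mul, bc_one]
    have hind'' : ∀ μ : U × G → K,
        (∀ x : I, ∑ z, μ z • ((1 ⊗ₜ[k] ξ (.inl (.inr z.1))) * (α z.2 * (x : K ⊗[k] A))) = 0) →
        ∀ z, μ z = 0 := by
      intro μ hμ z
      have h9 := hind' (fun z' => match z' with
        | (.inl _, _) => 0
        | (.inr b, β) => μ (b, β)) (fun x => by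
          rw [Fintype.sum_prod_type, Fintype.sum_sum_type]
          simp only [zero_smul, Finset.sum_const_zero, zero_add]
          rw [← hμ x, Fintype.sum_prod_type]) (.inr z.1, z.2)
      exact h9
    have h5 := indep (L := L) (fun (z : U × G) (x : I) =>
      (1 ⊗ₜ[k] ξ (.inl (.inr z.1))) * (α z.2 * (x : K ⊗[k] A))) hind'' _ h1 (b, β)
    exact sub_eq_zero.1 h5

end

end Pool.Agent.H49.GSB
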