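import Pool.Agent.H49.GSB.Min

/-!
# From `SB_g(A)` to `SB_m(A)`
-/

open TensorProduct

namespace Pool.Agent.H49.GSB

universe u

theorem step {k : Type u} [Field k] [Infinite k] {A : Type u} [Ring A] [Algebra k A]
    [FiniteDimensional k A] [IsSimpleRing A] [Algebra.IsCentral k A]
    {K : Type u} [Field K] [Algebra k K] {L : Type u} [Field L] [Algebra k L] [Algebra K L]
    [IsScalarTower k K L] {g q s u p : ℕ} (hq : 1 ≤ q)
    (hcard : (p + 1) * (q + s + u) = 1 + q * u)
    (hA : Module.finrank k A = (g * (q + s + u)) ^ 2)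
    (hK : IsFunctionField k A g (g * (q + s + u)) K)
    {X : Par (Fin q) (Fin s) (Fin u) (Fin p) (Fin (g ^ 2)) → L} (hX : IsTranscendenceBasis K X)
    (hgen : ∀ F : IntermediateField k L, (∀ c : K, algebraMap K L c ∈ F) → (∀ z, X z ∈ F) →
      F = ⊤) :
    IsFunctionField k A (g * (q + s)) (g * (q + s + u)) L := by
  obtain ⟨⟨I, ⟨hI, hIdim⟩, hmin⟩, htr⟩ := hK
  have hfin : Module.finrank K (K ⊗[k] A) = (g * (q + s + u)) ^ 2 := by
    rw [Module.finrank_baseChange, hA]
  have hcard' : (Fintype.card (Fin p) + 1) *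
      (Fintype.card (Fin q) + Fintype.card (Fin s) + Fintype.card (Fin u)) =
      1 + Fintype.card (Fin q) * Fintype.card (Fin u) := by
    simpa only [Fintype.card_fin] using hcard
  have hdim : (Fintype.card (Fin q) + Fintype.card (Fin s) + Fintype.card (Fin u)) *
      Module.finrank K I = Module.finrank K (K ⊗[k] A) := by
    rw [hfin, hIdim]
    simp only [Fintype.card_fin]
    ring
  let o : Fin q := ⟨0, hq⟩
  obtain ⟨E, ξ, hE, hEI, hspan⟩ := exists_constants (P := Fin p) I hI o hcard' hdim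
  obtain ⟨α, hα, hind⟩ := exists_corner_basis (K := K) (g := g) hE (.inl (.inl o)) (by
    rw [hfin, Fintype.card_sum, Fintype.card_sum]
    simp only [Fintype.card_fin]
    ring)
  have he : E (.inl (.inl o)) (.inl (.inl o)) ∈ I := by rw [hEI, hE.mul_same]
  have hα1 : ∀ β, E (.inl (.inl o)) (.inl (.inl o)) * α β = α β := by
    intro β
    conv_lhs => rw [← hα β, ← mul_assoc, ← mul_assoc, hE.mul_same]
    exact hα β
  have hα2 : ∀ β, α β * E (.inl (.inl o)) (.inl (.inl o)) = α β := by
    intro β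
    conv_lhs => rw [← hα β, mul_assoc, hE.mul_same]
    exact hα β
  refine ⟨⟨genPt I ξ α X, ⟨fun x hx y => genPt_right hI hx y, ?_⟩, ?_⟩, ?_⟩
  · rw [genPt_finrank hX.1 hspan hdim, hIdim]
    simp only [Fintype.card_fin]
    ring
  · exact genPt_min hX.1 hgen hmin hspan hcard' hdim
      (fun β x _ => by rw [hEI, ← mul_assoc, hα1]) hind he hα2
  · have h1 : Algebra.trdeg K L = (Fintype.card
        (Par (Fin q) (Fin s) (Fin u) (Fin p) (Fin (g ^ 2))) : ℕ) := by
      have h := hX.lift_cardinalMk_eq_trdeg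
      rw [Cardinal.mk_fintype, Cardinal.lift_natCast, Cardinal.lift_uzero] at h
      exact h.symm
    have h2 := trdeg_add_eq k K (A := L)
    rw [← h2, htr, h1, ← Nat.cast_add]
    congr 1
    simp only [Par, Fintype.card_sum, Fintype.card_prod, Fintype.card_fin]
    have h3 : g * (q + s + u) - g = g * (q + s + u - 1) := by
      rw [Nat.mul_sub, mul_one]
    have h4 : g * (q + s + u) - g * (q + s) = g * u := by
      rw [← Nat.mul_sub]; congr 1; omega
    rw [h3, h4]
    obtain ⟨r, hr⟩ : ∃ r, q + s + u = r + 1 := ⟨q + s + u - 1, by omega⟩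
    have h5 : q + s + u - 1 = r := by omega
    rw [h5, hr]
    rw [hr] at hcard
    have h6 : p * (r + 1) + r = q * u := by nlinarith
    calc g * (g * r) + (p * ((r + 1) * g ^ 2) + s * (u * g ^ 2))
        = g ^ 2 * (p * (r + 1) + r) + s * (u * g ^ 2) := by ring
      _ = g * (q + s) * (g * u) := by rw [h6]; ring

end Pool.Agent.H49.GSB
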