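import Pool.Agent.H49.GSB.MatRed

/-!
# Stable birationality with an affine space of dimension `dim SB_g(D)`
-/

open TensorProduct Module
open Pool.Agent.H72.SB hiding IsFunctionField

namespace Pool.Agent.H49.GSB

universe u

variable {k : Type u} [Field k]

/-- If `D`, `D'` have the same degree `d` and generate the same subgroup of the Brauer group, `g`
divides `d` and `N ≥ g (d - g)` then `SB_g(D) × 𝔸^N` and `SB_g(D') × 𝔸^N` are birational. -/
theorem swapD [Infinite k] (D D' : CSA.{u, u} k) {d g N : ℕ} (hD : finrank k D = d ^ 2)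
    (hD' : finrank k D' = d ^ 2) (h₁ : InCyclic D D') (h₂ : InCyclic D' D) (hg : 0 < g)
    (hgd : g ∣ d) (hd : 0 < d) (hN : g * (d - g) ≤ N) :
    ∃ (F : Type u) (_ : Field F) (_ : Algebra k F) (F' : Type u) (_ : Field F')
      (_ : Algebra k F'), H72.SB.IsFunctionField D g F ∧ H72.SB.IsFunctionField D' g F' ∧
        Nonempty (FractionRing (MvPolynomial (Fin N) F) ≃ₐ[k]
          FractionRing (MvPolynomial (Fin N) F')) := by
  have hgd' : g ≤ d := Nat.le_of_dvd hd hgd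
  obtain ⟨Ω, _, _, _, hΩ⟩ := exists_omega k (g * (d - g) + N)
  obtain ⟨ρ, b, β, hρ, hs⟩ := exists_form (Ω := Ω) D hD
  obtain ⟨ρ', b', β', hρ', hs'⟩ := exists_form (Ω := Ω) D' hD'
  have hL : Algebra.IsAlgebraic k (algebraicClosure k Ω) := inferInstance
  have hβ := isForm_of_rho hρ
  have hβ' := isForm_of_rho hρ'
  obtain ⟨F₀, _, _, hF₀⟩ := exists_functionField D hD hgd'
  let F₁ := FractionRing (MvPolynomial (Fin N) F₀)
  have htr₁ : Algebra.trdeg k F₁ = (g * (d - g) + N : ℕ) :=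
    trdeg_of_basis (hF₀.trdeg hD) (ratX_basis F₀ N)
  obtain ⟨f⟩ := exists_embedding htr₁ hΩ
  obtain ⟨U, hU, hUK⟩ := exists_of_isFunctionField hD hρ hF₀
    (f.comp (IsScalarTower.toAlgHom k F₀ F₁))
  have hP : Pres β g N f.fieldRange := by
    refine ⟨U, hU, fun i => f (ratX F₀ N i), fun K => ⟨fun h => ⟨?_, fun i => ?_⟩, fun h => ?_⟩⟩
    · rw [← hUK K]
      rintro _ ⟨x, rfl⟩
      exact h ⟨algebraMap F₀ F₁ x, rfl⟩
    · exact h ⟨_, rfl⟩
    · have h1 : K.comap f = ⊤ := by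
        refine ratX_gen k F₀ N _ (fun c => ?_) (fun i => h.2 i)
        exact (hUK K).2 h.1 ⟨c, rfl⟩
      rintro _ ⟨x, rfl⟩
      have h2 : x ∈ K.comap f := by rw [h1]; trivial
      exact h2
  obtain ⟨U', hU', t', ht'⟩ := pres_swap hβ hβ' hg hgd
    (fun K => index_transfer h₁ hρ hρ' hg hgd' K)
    (fun K => index_transfer h₂ hρ' hρ hg hgd' K) hP hN
  obtain ⟨F₀', hF₀'⟩ := exists_fodR k β' U'
  obtain ⟨e', γ, y, _, hc, hUy, _⟩ := two_cell (K := algebraicClosure k Ω) hβ' hU' hU'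
    (hs' ⟨0, hd⟩ ⟨0, hd⟩) (finrank_colS_single _)
  have hUt' : ∀ K : IntermediateField k Ω, f.fieldRange ≤ K ↔ (F₀' ≤ K ∧ ∀ i, t' i ∈ K) :=
    fun K => by rw [ht' K, hF₀' K]
  obtain ⟨h1, h2⟩ := pres_trdeg hL hΩ rfl hc (by rw [trdeg_fieldRange]; exact htr₁) (F₀ := F₀')
    (fun K => by rw [← hUy]; exact (hF₀' K).symm) hUt'
  have h3 : H72.SB.IsFunctionField D' g F₀' := isFunctionField_of hD' hρ' hU' (fun K => (hF₀' K).symm) h1
  obtain ⟨e1⟩ := nonempty_equiv_of_gen hUt' h2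
  exact ⟨F₀, inferInstance, inferInstance, F₀', inferInstance, inferInstance, hF₀, h3,
    ⟨(AlgEquiv.ofInjectiveField f).trans e1.symm⟩⟩

/-- The main theorem, in terms of matrix algebras over `D` and `D'`. -/
theorem matrix_common [Infinite k] (A B D D' : CSA.{u, u} k) {d r m : ℕ}
    (hD : finrank k D = d ^ 2) (hD' : finrank k D' = d ^ 2)
    (eA : A ≃ₐ[k] Matrix (Fin r) (Fin r) D) (eB : B ≃ₐ[k] Matrix (Fin r) (Fin r) D')
    (h₁ : InCyclic D D') (h₂ : InCyclic D' D) (hm : 1 ≤ m) (hmn : m ≤ r * d)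
    (hineq : 2 * (Nat.gcd m d * (d - Nat.gcd m d)) ≤ m * (r * d - m)) :
    ∃ (F : Type u) (_ : Field F) (_ : Algebra k F), H72.SB.IsFunctionField A m F ∧ H72.SB.IsFunctionField B m F := by
  have hd : 0 < d := by
    rcases Nat.eq_zero_or_pos d with h0 | h0
    · rw [h0, mul_zero] at hmn; omega
    · exact h0
  have hg0 : 0 < Nat.gcd m d := Nat.gcd_pos_of_pos_left _ hm
  obtain ⟨F, i1, i2, F', i3, i4, hF, hF', ⟨e⟩⟩ := swapD D D' (g := Nat.gcd m d)
    (N := m * (r * d - m) - Nat.gcd m d * (d - Nat.gcd m d)) hD hD' h₁ h₂ hg0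
    (Nat.gcd_dvd_right m d) hd (by omega)
  have hA := functionField_matrix A D hD eA hm hmn hF
  have hB := functionField_matrix B D' hD' eB hm hmn hF'
  exact ⟨_, _, _, hA, hB.congr_field e.symm⟩

end Pool.Agent.H49.GSB
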